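import Pool.Agent.ColorRef.Fourier

namespace Pool.Agent.ColorRef

open Finset BigOperators
open scoped Classical

set_option linter.unusedSectionVars false

variable {n : ℕ} {k : ℕ} [NeZero k] (w : ℕ)

lemma two_le_card_vset {B : Finset (Pair n)} (hne : B.Nonempty) : 2 ≤ (vset B).card := by
  obtain ⟨e, he⟩ := hne
  have h1 : ({e.1.1, e.1.2} : Finset (Fin n)) ⊆ vset B := by
    intro u hu
    rw [mem_insert, mem_singleton] at hu
    rcases hu with rfl | rfl
    · exact fst_mem_vset he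
    · exact snd_mem_vset he
  calc 2 = ({e.1.1, e.1.2} : Finset (Fin n)).card := (card_pair (ne_of_lt e.2)).symm
    _ ≤ _ := card_le_card h1

/-- Cost of one unit of gadget size. -/
noncomputable def zt (w : ℕ) : ℝ := 2 ^ (2 * w + 1)

lemma zt_pos (w : ℕ) : 0 < zt w := by unfold zt; positivity

lemma gco_bound2 {B : Finset (Pair n)} (hB : B ∈ gad n w) (hk : 2 * w ^ 2 ≤ k) :
    |gco k B| * (k : ℝ) ^ ((vset B).card - 1) ≤ zt w ^ ((vset B).card - 1) := by
  rw [mem_gad] at hB
  have hk0 := kpos (k := k)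
  have h1 : 2 * (vset B).card ^ 2 ≤ k := by
    calc 2 * (vset B).card ^ 2 ≤ 2 * w ^ 2 := by
          gcongr
          exact hB.2
      _ ≤ k := hk
  have h2 := pr_ge (k := k) hB.1.1 h1
  have h3 := pm_blk_le (k := k) hB.1
  have h4 := pm_nonneg k B
  have hv2 := two_le_card_vset hB.1.1
  have hpos : (0 : ℝ) < (1 / 2) ^ (B.card + 1) := by positivity
  have hprpos : 0 < pr k B := lt_of_lt_of_le hpos h2
  have h5 : |gco k B| = pm k B / pr k B := by
    rw [gco, abs_neg, abs_div, abs_mul, abs_pow, abs_neg, abs_one, one_pow, one_mul,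
      abs_of_nonneg h4, abs_of_pos hprpos]
  have h6 : pm k B / pr k B ≤ pm k B * 2 ^ (B.card + 1) := by
    rw [div_le_iff₀ hprpos]
    calc pm k B = pm k B * 2 ^ (B.card + 1) * (1 / 2) ^ (B.card + 1) := by
          rw [mul_assoc, ← mul_pow]; norm_num
      _ ≤ pm k B * 2 ^ (B.card + 1) * pr k B :=
          mul_le_mul_of_nonneg_left h2 (mul_nonneg h4 (by positivity))
  obtain ⟨j, hj⟩ : ∃ j, (vset B).card = j + 2 := ⟨(vset B).card - 2, by omega⟩
  have hjw : j + 2 ≤ w := by rw [← hj]; exact hB.2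
  have h7 : B.card + 1 ≤ (2 * w + 1) * (j + 1) := by
    have h8 := card_le_sq B
    rw [hj] at h8
    have h9 : (j + 2) ^ 2 ≤ w * (j + 2) := by
      rw [sq]; exact Nat.mul_le_mul_right _ hjw
    have h10 : w * (j + 2) ≤ w * (2 * (j + 1)) := Nat.mul_le_mul_left _ (by omega)
    have h11 : (2 * w + 1) * (j + 1) = w * (2 * (j + 1)) + (j + 1) := by ring
    omega
  have h8 : pm k B * (k : ℝ) ^ (j + 1) ≤ 1 := by
    rw [hj] at h3
    have : (pm k B * (k : ℝ) ^ (j + 1)) * k ≤ 1 * k := by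
      calc (pm k B * (k : ℝ) ^ (j + 1)) * k = pm k B * (k : ℝ) ^ (j + 2) := by ring
        _ ≤ k := h3
        _ = 1 * k := (one_mul _).symm
    exact le_of_mul_le_mul_right this hk0
  have hsub : (vset B).card - 1 = j + 1 := by omega
  rw [hsub, h5]
  calc pm k B / pr k B * (k : ℝ) ^ (j + 1)
      ≤ (pm k B * 2 ^ (B.card + 1)) * (k : ℝ) ^ (j + 1) := by
        exact mul_le_mul_of_nonneg_right h6 (by positivity)
    _ = 2 ^ (B.card + 1) * (pm k B * (k : ℝ) ^ (j + 1)) := by ring
    _ ≤ 2 ^ ((2 * w + 1) * (j + 1)) * 1 := by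
        apply mul_le_mul _ h8 (mul_nonneg h4 (by positivity)) (by positivity)
        exact pow_le_pow_right₀ (by norm_num) h7
    _ = zt w ^ (j + 1) := by rw [mul_one, zt, ← pow_mul]

/-- Refined weight bound for a configuration that is not pure at small classes. -/
lemma abs_wt_exp_le2 {S : Finset (Pair n)} {φ : Pair n → St n} (hk : 2 * w ^ 2 ≤ k)
    (hv : Valid w S φ) (hnp : ∀ K ∈ ccl S, K.card ≤ w → ¬ Pure K S (Lst S φ))
    (y : ℝ) (hy1 : 1 ≤ y) (hyk : y ≤ k) :
    |wt k w S φ| * ((k : ℝ) / y) ^ ((vset S).card + 2 * (Iset S φ).card) ≤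
      ((k : ℝ) / y) ^ (lcl w S).card *
        ∏ e ∈ Tset S φ, (zt w / y) ^ ((vset (hs (φ e))).card - 1) := by
  have hk0 := kpos (k := k)
  have hy0 : 0 < y := by linarith
  have hκ1 : 1 ≤ (k : ℝ) / y := by rw [le_div_iff₀ hy0]; linarith
  have hκk : (k : ℝ) / y ≤ k := by
    rw [div_le_iff₀ hy0]
    nlinarith
  have hz := zt_pos w
  set κ := (k : ℝ) / y with hκ
  set T := Tset S φ with hT
  set b := ∑ e ∈ T, ((vset (hs (φ e))).card - 1) with hb
  have h1 := abs_wt_le (k := k) w S φ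
  have h2 : (∏ e ∈ T, |gco k (hs (φ e))|) * (k : ℝ) ^ b ≤ zt w ^ b := by
    rw [hb, ← prod_pow_eq_pow_sum, ← prod_pow_eq_pow_sum, ← prod_mul_distrib]
    apply prod_le_prod
    · intro e _; positivity
    · intro e he; exact gco_bound2 w (hv.gadm e he).1 hk
  have hncl : ncl (Mset S φ) univ ≤ n := by
    have := ncl_le_card (Mset S φ) univ
    rwa [card_univ, Fintype.card_fin] at this
  obtain ⟨c, hc⟩ : ∃ c, n = ncl (Mset S φ) univ + c := ⟨n - ncl (Mset S φ) univ, by omega⟩
  have h3 : pm k (Mset S φ) * (k : ℝ) ^ c ≤ 1 := by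
    have h3' := pm_le k (Mset S φ)
    rw [le_div_iff₀ (by positivity)] at h3'
    have h3'' : (pm k (Mset S φ) * (k : ℝ) ^ c) * (k : ℝ) ^ (ncl (Mset S φ) univ) ≤
        1 * (k : ℝ) ^ (ncl (Mset S φ) univ) := by
      calc (pm k (Mset S φ) * (k : ℝ) ^ c) * (k : ℝ) ^ (ncl (Mset S φ) univ)
          = pm k (Mset S φ) * (k : ℝ) ^ (ncl (Mset S φ) univ + c) := by rw [pow_add]; ring
        _ = pm k (Mset S φ) * (k : ℝ) ^ n := by rw [← hc]
        _ ≤ _ := by rw [one_mul]; exact h3'
    exact le_of_mul_le_mul_right h3'' (by positivity)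
  have h4 := hv.exponent w hnp
  have hsum : ∑ e ∈ T, (vset (hs (φ e))).card = b + T.card := by
    rw [hb, card_eq_sum_ones, ← sum_add_distrib]
    apply sum_congr rfl
    intro e he
    have : 2 ≤ (vset (hs (φ e))).card := two_le_card_vset (mem_gad.1 (hv.gadm e he).1).1.1
    omega
  rw [← hT, hsum] at h4
  have hexp : (vset S).card + 2 * (Iset S φ).card ≤ c + (lcl w S).card + b := by omega
  have hpm := pm_nonneg k (Mset S φ)
  have hA : 0 ≤ ∏ e ∈ T, |gco k (hs (φ e))| := prod_nonneg (fun _ _ => abs_nonneg _)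
  have hprod : ∏ e ∈ T, (zt w / y) ^ ((vset (hs (φ e))).card - 1) = (zt w / y) ^ b := by
    rw [hb, prod_pow_eq_pow_sum]
  rw [hprod]
  calc |wt k w S φ| * κ ^ ((vset S).card + 2 * (Iset S φ).card)
      ≤ ((∏ e ∈ T, |gco k (hs (φ e))|) * pm k (Mset S φ)) *
          κ ^ (c + (lcl w S).card + b) := by
        gcongr
    _ = ((∏ e ∈ T, |gco k (hs (φ e))|) * κ ^ b) * (pm k (Mset S φ) * κ ^ c) *
          κ ^ (lcl w S).card := by rw [pow_add, pow_add]; ring
    _ ≤ (zt w / y) ^ b * 1 * κ ^ (lcl w S).card := by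
        have h5 : (∏ e ∈ T, |gco k (hs (φ e))|) * κ ^ b ≤ (zt w / y) ^ b := by
          rw [hκ, div_pow, div_pow, ← mul_div_assoc]
          gcongr
        have h6 : pm k (Mset S φ) * κ ^ c ≤ 1 := by
          refine le_trans ?_ h3
          gcongr
        gcongr
    _ = _ := by ring

/-- The response part of a state. -/
def rsp : St n → St n
  | some (some H) => some (some H)
  | _ => none

lemma rsp_inj {S : Finset (Pair n)} {φ φ' : Pair n → St n} (h0 : φ ∈ Phi S) (h0' : φ' ∈ Phi S)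
    (hv : Valid w S φ) (hv' : Valid w S φ') (h : (fun e => rsp (φ e)) = fun e => rsp (φ' e)) :
    φ = φ' := by
  have hresp : ∀ e H, φ e = some (some H) ↔ φ' e = some (some H) := by
    intro e H
    have h1 : rsp (φ e) = rsp (φ' e) := congrFun h e
    constructor
    · intro h2
      rw [h2] at h1
      rcases hφ : φ' e with _ | _ | H'
      · rw [hφ] at h1; simp [rsp] at h1
      · rw [hφ] at h1; simp [rsp] at h1
      · rw [hφ] at h1; simp only [rsp] at h1; exact h1.symm
    · intro h2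
      rw [h2] at h1
      rcases hφ : φ e with _ | _ | H'
      · rw [hφ] at h1; simp [rsp] at h1
      · rw [hφ] at h1; simp [rsp] at h1
      · rw [hφ] at h1; simp only [rsp] at h1; exact h1
  have hT : Tset S φ = Tset S φ' := by
    unfold Tset
    apply filter_congr
    intro e _
    constructor
    · rintro ⟨H, hH⟩; exact ⟨H, (hresp e H).1 hH⟩
    · rintro ⟨H, hH⟩; exact ⟨H, (hresp e H).2 hH⟩
  have hL : Lst S φ = Lst S φ' := by
    unfold Lst
    rw [hT]
    apply List.map_congr_left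
    intro e he
    obtain ⟨-, H, hH⟩ := mem_filter.1 (mem_toList.1 he)
    rw [hH, (hresp e H).2 hH]
  have hM : Mset S φ = Mset S φ' := by rw [← hv.fin_eq, ← hv'.fin_eq, hL]
  funext e
  by_cases heS : e ∈ S
  · have hnone : φ e = none ↔ φ' e = none := by
      have h1 : e ∈ Mset S φ ↔ e ∈ Mset S φ' := by rw [hM]
      simpa [Mset, heS] using h1
    rcases hφ : φ e with _ | _ | H
    · exact (hnone.1 hφ).symm
    · rcases hφ' : φ' e with _ | _ | H'
      · rw [hnone.2 hφ'] at hφ; simp at hφ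
      · rfl
      · rw [(hresp e H').2 hφ'] at hφ; simp at hφ
    · exact ((hresp e H).1 hφ).symm
  · rw [mem_Phi.1 h0 e heS, mem_Phi.1 h0' e heS]

/-- Weight of the response states. -/
noncomputable def fa (r : ℝ) : St n → ℝ
  | some (some H) => r ^ ((vset H).card - 1)
  | _ => 1

lemma fa_nonneg {r : ℝ} (hr : 0 ≤ r) (st : St n) : 0 ≤ fa r st := by
  rcases st with _ | _ | H
  · exact zero_le_one
  · exact zero_le_one
  · simp only [fa]; positivity

/-- Response states inside `W`. -/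
noncomputable def Qst (w : ℕ) (W : Finset (Fin n)) : Finset (St n) :=
  {none} ∪ ((gad n w).filter (fun H => vset H ⊆ W)).image (fun H => (some (some H) : St n))

lemma sum_gad_le (W : Finset (Fin n)) (r : ℝ) (hr : 0 ≤ r) :
    ∑ H ∈ (gad n w).filter (fun H => vset H ⊆ W), r ^ ((vset H).card - 1) ≤
      ∑ j ∈ range (W.card + 1), (W.card.choose j : ℝ) *
        (if 2 ≤ j ∧ j ≤ w then 2 ^ (w * j) * r ^ (j - 1) else 0) := by
  have h1 : ∑ H ∈ (gad n w).filter (fun H => vset H ⊆ W), r ^ ((vset H).card - 1) =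
      ∑ X ∈ W.powerset, ∑ H ∈ ((gad n w).filter (fun H => vset H ⊆ W)).filter
        (fun H => vset H = X), r ^ ((vset H).card - 1) := by
    refine (sum_fiberwise_of_maps_to (g := fun H => vset H) ?_ _).symm
    intro H hH
    rw [mem_powerset]
    exact (mem_filter.1 hH).2
  rw [h1]
  have h2 := sum_powerset_apply_card
    (f := fun j => if 2 ≤ j ∧ j ≤ w then (2 : ℝ) ^ (w * j) * r ^ (j - 1) else 0) (x := W)
  have h3 : ∑ j ∈ range (W.card + 1), (W.card.choose j : ℝ) *
        (if 2 ≤ j ∧ j ≤ w then 2 ^ (w * j) * r ^ (j - 1) else 0) =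
      ∑ X ∈ W.powerset, (if 2 ≤ X.card ∧ X.card ≤ w then
        (2 : ℝ) ^ (w * X.card) * r ^ (X.card - 1) else 0) := by
    rw [h2]
    apply sum_congr rfl
    intro j _
    rw [nsmul_eq_mul]
  rw [h3]
  apply sum_le_sum
  intro X _
  split_ifs with hX
  · have h4 : ∑ H ∈ ((gad n w).filter (fun H => vset H ⊆ W)).filter
        (fun H => vset H = X), r ^ ((vset H).card - 1) =
        ((((gad n w).filter (fun H => vset H ⊆ W)).filter (fun H => vset H = X)).card : ℝ) *
        r ^ (X.card - 1) := by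
      rw [← nsmul_eq_mul, ← sum_const]
      apply sum_congr rfl
      intro H hH
      rw [(mem_filter.1 hH).2]
    rw [h4]
    have h5 : (((gad n w).filter (fun H => vset H ⊆ W)).filter (fun H => vset H = X)).card ≤
        2 ^ (w * X.card) := by
      calc _ ≤ (inside X).powerset.card := by
            apply card_le_card
            intro H hH
            rw [mem_powerset, ← (mem_filter.1 hH).2]
            exact subset_inside H
        _ = 2 ^ (inside X).card := card_powerset _
        _ ≤ 2 ^ (w * X.card) := by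
            apply Nat.pow_le_pow_right (by norm_num)
            calc (inside X).card ≤ X.card ^ 2 := card_inside_le X
              _ = X.card * X.card := sq _
              _ ≤ w * X.card := Nat.mul_le_mul_right _ hX.2
    have h6 : ((((gad n w).filter (fun H => vset H ⊆ W)).filter
        (fun H => vset H = X)).card : ℝ) ≤ 2 ^ (w * X.card) := by exact_mod_cast h5
    gcongr
  · apply le_of_eq
    apply sum_eq_zero
    intro H hH
    exfalso
    apply hX
    have h7 := (mem_filter.1 (mem_filter.1 hH).1).1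
    rw [← (mem_filter.1 hH).2]
    exact ⟨two_le_card_vset (mem_gad.1 h7).1.1, (mem_gad.1 h7).2⟩

/-- The size parameter. -/
noncomputable def Yy (w D : ℕ) : ℝ := ((w : ℝ) + 2) ^ 2 * (D : ℝ) ^ 3 * 2 ^ (4 * w + 4)

lemma sum_gad_small (W : Finset (Fin n)) (D : ℕ) (hD : 1 ≤ D) (hW : W.card ≤ (w + 2) * D) :
    ∑ H ∈ (gad n w).filter (fun H => vset H ⊆ W),
      (zt w / Yy w D) ^ ((vset H).card - 1) ≤ 1 / D := by
  have hDR : (1 : ℝ) ≤ D := by exact_mod_cast hD
  have hz := zt_pos w
  have hY : 0 < Yy w D := by unfold Yy; positivity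
  set r := zt w / Yy w D with hr
  have hr0 : 0 < r := by rw [hr]; positivity
  set m : ℝ := ((w : ℝ) + 2) * D with hm
  have hm1 : 1 ≤ m := by
    rw [hm]
    have : (0 : ℝ) ≤ w := Nat.cast_nonneg w
    nlinarith
  -- ratio
  set ρ : ℝ := m ^ 2 * 2 ^ (2 * w) * r with hρ
  have hρval : ρ = 1 / (8 * D) := by
    rw [hρ, hr, hm, zt, Yy]
    have h1 : (2 : ℝ) ^ (4 * w + 4) = 2 ^ (2 * w) * 2 ^ (2 * w + 1) * 8 := by
      rw [← pow_add]
      have : (8 : ℝ) = 2 ^ 3 := by norm_num
      rw [this, ← pow_add]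
      congr 1
      ring
    rw [h1]
    have h2 : (0 : ℝ) < (w : ℝ) + 2 := by positivity
    field_simp
  have hρ0 : 0 < ρ := by rw [hρval]; positivity
  have hρh : ρ ≤ 1 / 2 := by
    rw [hρval]
    rw [div_le_div_iff₀ (by positivity) (by norm_num)]
    linarith
  refine (sum_gad_le w W r hr0.le).trans ?_
  have hterm : ∀ j ∈ range (W.card + 1), (W.card.choose j : ℝ) *
        (if 2 ≤ j ∧ j ≤ w then 2 ^ (w * j) * r ^ (j - 1) else 0) ≤ 4 * ρ * (1 / 2) ^ j := by
    intro j _
    split_ifs with hj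
    · obtain ⟨i, rfl⟩ : ∃ i, j = i + 2 := ⟨j - 2, by omega⟩
      have h1 : (W.card.choose (i + 2) : ℝ) ≤ m ^ (i + 2) := by
        calc (W.card.choose (i + 2) : ℝ) ≤ (W.card : ℝ) ^ (i + 2) := by
              exact_mod_cast Nat.choose_le_pow _ _
          _ ≤ m ^ (i + 2) := by
              have : (W.card : ℝ) ≤ m := by
                rw [hm]; exact_mod_cast hW
              gcongr
      have h2 : m ^ (i + 2) ≤ (m ^ 2) ^ (i + 1) := by
        rw [← pow_mul]
        apply pow_le_pow_right₀ hm1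
        omega
      have h3 : (2 : ℝ) ^ (w * (i + 2)) ≤ (2 ^ (2 * w)) ^ (i + 1) := by
        rw [← pow_mul]
        apply pow_le_pow_right₀ (by norm_num)
        nlinarith
      have h4 : i + 2 - 1 = i + 1 := by omega
      rw [h4]
      calc (W.card.choose (i + 2) : ℝ) * (2 ^ (w * (i + 2)) * r ^ (i + 1))
          ≤ (m ^ 2) ^ (i + 1) * ((2 ^ (2 * w)) ^ (i + 1) * r ^ (i + 1)) := by
            gcongr
            exact h1.trans h2
        _ = ρ ^ (i + 1) := by
            rw [hρ, mul_pow (m ^ 2 * 2 ^ (2 * w)) r, mul_pow (m ^ 2), mul_assoc]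
        _ = ρ * ρ ^ i := by ring
        _ ≤ ρ * (1 / 2) ^ i := by gcongr
        _ = 4 * ρ * (1 / 2) ^ (i + 2) := by ring
    · rw [mul_zero]; positivity
  calc ∑ j ∈ range (W.card + 1), (W.card.choose j : ℝ) *
        (if 2 ≤ j ∧ j ≤ w then 2 ^ (w * j) * r ^ (j - 1) else 0)
      ≤ ∑ j ∈ range (W.card + 1), 4 * ρ * (1 / 2) ^ j := sum_le_sum hterm
    _ = 4 * ρ * ∑ j ∈ range (W.card + 1), (1 / 2) ^ j := by rw [mul_sum]
    _ ≤ 4 * ρ * 2 := by
        gcongr
        exact sum_geometric_two_le _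
    _ = 1 / D := by rw [hρval]; field_simp; norm_num

/-- The total weight of the configurations with a given set of extra vertices is bounded. -/
lemma sum_valid_le (S : Finset (Pair n)) (I : Finset (Fin n)) (D : ℕ) (hD1 : 1 ≤ D)
    (hD : S.card ≤ D) :
    ∑ φ ∈ (Phi S).filter (fun φ => Valid w S φ ∧ Iset S φ = I),
      ∏ e ∈ Tset S φ, (zt w / Yy w D) ^ ((vset (hs (φ e))).card - 1) ≤ 3 := by
  have hDR : (1 : ℝ) ≤ D := by exact_mod_cast hD1
  have hz := zt_pos w
  have hY : 0 < Yy w D := by unfold Yy; positivity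
  set r := zt w / Yy w D with hr
  have hr0 : 0 ≤ r := by rw [hr]; positivity
  by_cases hI : I.card ≤ w * D
  · set W := vset S ∪ I with hW
    have hWc : W.card ≤ (w + 2) * D := by
      calc (vset S ∪ I).card ≤ (vset S).card + I.card := card_union_le _ _
        _ ≤ 2 * D + w * D := by
            have := card_vset_le S
            omega
        _ = (w + 2) * D := by ring
    set F := (Phi S).filter (fun φ => Valid w S φ ∧ Iset S φ = I) with hF
    let Rf : (Pair n → St n) → (Pair n → St n) := fun φ e => rsp (φ e)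
    have hinj : Set.InjOn Rf F := by
      intro φ hφ φ' hφ' h
      rw [mem_coe, hF, mem_filter] at hφ hφ'
      exact rsp_inj w hφ.1 hφ'.1 hφ.2.1 hφ'.2.1 h
    have hval : ∀ φ ∈ F, ∏ e ∈ Tset S φ, r ^ ((vset (hs (φ e))).card - 1) =
        ∏ e ∈ S, fa r (Rf φ e) := by
      intro φ _
      rw [Tset, prod_filter]
      apply prod_congr rfl
      intro e _
      rcases hφ : φ e with _ | _ | H <;> simp [Rf, hφ, rsp, fa, hs]
    have h1 : ∑ φ ∈ F, ∏ e ∈ Tset S φ, r ^ ((vset (hs (φ e))).card - 1) =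
        ∑ ψ ∈ F.image Rf, ∏ e ∈ S, fa r (ψ e) := by
      rw [sum_image hinj]
      exact sum_congr rfl hval
    have hsub : F.image Rf ⊆ Fintype.piFinset (fun e => if e ∈ S then Qst w W else {none}) := by
      intro ψ hψ
      obtain ⟨φ, hφ, rfl⟩ := mem_image.1 hψ
      rw [hF, mem_filter, mem_Phi] at hφ
      obtain ⟨h0, hv, hI'⟩ := hφ
      rw [Fintype.mem_piFinset]
      intro e
      by_cases he : e ∈ S
      · rw [if_pos he]
        unfold Qst
        rw [mem_union]
        simp only [Rf]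
        rcases hφe : φ e with _ | _ | H
        · left; simp [rsp]
        · left; simp [rsp]
        · right
          rw [mem_image]
          refine ⟨H, ?_, by simp [rsp]⟩
          have heT : e ∈ Tset S φ := mem_filter.2 ⟨he, H, hφe⟩
          have h2 := (hv.gadm e heT).1
          have h3 : vset H ⊆ W := by
            intro v hvH
            rw [hW, mem_union]
            by_cases hvS : v ∈ vset S
            · exact Or.inl hvS
            · right
              rw [← hI', Iset, mem_sdiff]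
              refine ⟨mem_lvset.2 ⟨(e, hs (φ e)), mem_Lst.2 ⟨e, heT, rfl⟩, ?_⟩, hvS⟩
              rw [hφe]; exact hvH
          rw [hφe] at h2
          exact mem_filter.2 ⟨h2, h3⟩
      · rw [if_neg he]
        simp only [Rf]
        rw [h0 e he]
        simp [rsp]
    have h2 : ∑ ψ ∈ Fintype.piFinset (fun e : Pair n => if e ∈ S then Qst w W else {none}),
        ∏ e ∈ S, fa r (ψ e) = ∏ e ∈ S, ∑ st ∈ Qst w W, fa r st := by
      have h3 : ∏ e ∈ S, ∑ st ∈ Qst w W, fa r st =
          ∏ e : Pair n, ∑ st ∈ (if e ∈ S then Qst w W else {none} : Finset (St n)),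
            (if e ∈ S then fa r st else 1) := by
        rw [← prod_filter_mul_prod_filter_not univ (fun e => e ∈ S)]
        have h4 : univ.filter (fun e => e ∈ S) = S := by simp
        rw [h4]
        have h5 : ∏ e ∈ univ.filter (fun e => e ∉ S),
            ∑ st ∈ (if e ∈ S then Qst w W else {none} : Finset (St n)),
            (if e ∈ S then fa r st else 1) = 1 := by
          apply prod_eq_one
          intro e he
          simp [(mem_filter.1 he).2]
        rw [h5, mul_one]
        apply prod_congr rfl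
        intro e he
        simp [he]
      rw [h3, prod_univ_sum]
      apply sum_congr rfl
      intro ψ _
      rw [← prod_filter_mul_prod_filter_not univ (fun e => e ∈ S)]
      have h4 : univ.filter (fun e => e ∈ S) = S := by simp
      rw [h4]
      have h5 : ∏ e ∈ univ.filter (fun e => e ∉ S), (if e ∈ S then fa r (ψ e) else 1) = 1 := by
        apply prod_eq_one
        intro e he
        simp [(mem_filter.1 he).2]
      rw [h5, mul_one]
      apply prod_congr rfl
      intro e he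
      simp [he]
    have h3 : ∑ st ∈ Qst w W, fa r st ≤ 1 + 1 / D := by
      unfold Qst
      rw [sum_union]
      · rw [sum_singleton, sum_image]
        · simp only [fa]
          have := sum_gad_small w W D hD1 hWc
          rw [← hr] at this
          linarith
        · intro H _ H' _ h
          simpa using h
      · rw [disjoint_left]
        intro st hst hst'
        rw [mem_singleton] at hst
        rw [mem_image] at hst'
        obtain ⟨H, -, hH⟩ := hst'
        rw [hst] at hH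
        simp at hH
    have h4 : 0 ≤ ∑ st ∈ Qst w W, fa r st := sum_nonneg (fun st _ => fa_nonneg hr0 st)
    rw [h1]
    calc ∑ ψ ∈ F.image Rf, ∏ e ∈ S, fa r (ψ e)
        ≤ ∑ ψ ∈ Fintype.piFinset (fun e : Pair n => if e ∈ S then Qst w W else {none}),
          ∏ e ∈ S, fa r (ψ e) := by
          apply sum_le_sum_of_subset_of_nonneg hsub
          intro ψ _ _
          exact prod_nonneg (fun e _ => fa_nonneg hr0 _)
      _ = (∑ st ∈ Qst w W, fa r st) ^ S.card := by rw [h2, prod_const]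
      _ ≤ (1 + 1 / D) ^ S.card := pow_le_pow_left₀ h4 h3 _
      _ ≤ (1 + 1 / D) ^ D := by
          apply pow_le_pow_right₀ _ hD
          have : (0 : ℝ) ≤ 1 / D := by positivity
          linarith
      _ ≤ (Real.exp (1 / D)) ^ D := by
          gcongr
          rw [add_comm]
          exact Real.add_one_le_exp _
      _ = Real.exp (D * (1 / D)) := by rw [← Real.exp_nat_mul]
      _ = Real.exp 1 := by
          congr 1
          field_simp
      _ ≤ 3 := Real.exp_one_lt_three.le
  · have h1 : (Phi S).filter (fun φ => Valid w S φ ∧ Iset S φ = I) = ∅ := by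
      rw [filter_eq_empty_iff]
      rintro φ - ⟨hv, hI'⟩
      apply hI
      rw [← hI']
      calc (Iset S φ).card ≤ (lvset (Lst S φ)).card := card_le_card sdiff_subset
        _ ≤ w * S.card := card_lvset_le w hv
        _ ≤ w * D := Nat.mul_le_mul_left _ hD
    rw [h1]; simp

/-- Summation over the sets of extra vertices. -/
lemma sum_extra_le2 (κ : ℝ) (hκ : 0 < κ) (hn : (n : ℝ) ≤ κ ^ 2) :
    ∑ I : Finset (Fin n), (1 / κ ^ 2) ^ I.card ≤ 3 := by
  have h1 : ∑ I : Finset (Fin n), (1 / κ ^ 2) ^ I.card = (1 / κ ^ 2 + 1) ^ n := by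
    have := sum_pow_mul_eq_add_pow (1 / κ ^ 2) 1 (univ : Finset (Fin n))
    rw [card_univ, Fintype.card_fin, powerset_univ] at this
    rw [← this]
    apply sum_congr rfl
    intro I _
    rw [one_pow, mul_one]
  rw [h1]
  calc (1 / κ ^ 2 + 1) ^ n ≤ (Real.exp (1 / κ ^ 2)) ^ n := by
        gcongr
        exact Real.add_one_le_exp _
    _ = Real.exp (n * (1 / κ ^ 2)) := by rw [← Real.exp_nat_mul]
    _ ≤ Real.exp 1 := by
        apply Real.exp_le_exp.2
        rw [mul_one_div, div_le_one (by positivity)]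
        exact hn
    _ ≤ 3 := Real.exp_one_lt_three.le

/-- Main coefficient bound, refined version. -/
theorem abs_aco_le2 {S : Finset (Pair n)} (hk : 2 * w ^ 2 ≤ k) (D : ℕ) (hD1 : 1 ≤ D)
    (hD : S.card ≤ D) (hyk : Yy w D ≤ k) (hn : (n : ℝ) ≤ ((k : ℝ) / Yy w D) ^ 2) :
    |aco k w S| * ((k : ℝ) / Yy w D) ^ (vset S).card ≤
      9 * ((k : ℝ) / Yy w D) ^ (lcl w S).card := by
  have hk0 := kpos (k := k)
  have hDR : (1 : ℝ) ≤ D := by exact_mod_cast hD1
  have hY1 : 1 ≤ Yy w D := by
    unfold Yy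
    have h1 : (1 : ℝ) ≤ ((w : ℝ) + 2) ^ 2 := by
      have : (0 : ℝ) ≤ w := Nat.cast_nonneg w
      nlinarith
    have h2 : (1 : ℝ) ≤ (D : ℝ) ^ 3 := one_le_pow₀ hDR
    have h3 : (1 : ℝ) ≤ 2 ^ (4 * w + 4) := one_le_pow₀ (by norm_num)
    calc (1 : ℝ) = 1 * 1 * 1 := by ring
      _ ≤ _ := by gcongr
  have hY0 : 0 < Yy w D := by linarith
  set κ := (k : ℝ) / Yy w D with hκ
  have hκ0 : 0 < κ := by rw [hκ]; positivity
  -- designated blocks
  have hex : ∀ K : {K // K ∈ ccl S}, ∃ B ⊆ S, Blk B ∧ vset B ⊆ K.1 ∧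
      ∀ u ∈ vset B, ∀ v ∈ vset B, u ≠ v → ¬ Conn (S \ B) u v :=
    fun K => exists_block_class K.2
  choose β hβ1 hβ2 hβ3 hβ4 using hex
  let Bs : Finset (Finset (Pair n)) :=
    ((ccl S).attach.filter (fun K => K.1.card ≤ w)).image β
  have hBs : ∀ B ∈ Bs, B ⊆ S ∧ B ∈ gad n w := by
    intro B hB
    obtain ⟨K, hK, rfl⟩ := mem_image.1 hB
    refine ⟨hβ1 K, mem_gad.2 ⟨hβ2 K, ?_⟩⟩
    exact (card_le_card (hβ3 K)).trans (mem_filter.1 hK).2
  have hdis : ∀ B ∈ Bs, ∀ B' ∈ Bs, B ≠ B' → Disjoint B B' := by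
    intro B hB B' hB' hne
    obtain ⟨K, hK, rfl⟩ := mem_image.1 hB
    obtain ⟨K', hK', rfl⟩ := mem_image.1 hB'
    have hKK : K.1 ≠ K'.1 := fun h => hne (by rw [Subtype.ext h])
    have hd := ccl_disjoint K.2 K'.2 hKK
    rw [disjoint_left]
    intro e he he'
    exact (disjoint_left.1 hd) (hβ3 K (fst_mem_vset he)) (hβ3 K' (fst_mem_vset he'))
  have h1 := aco_eq_nonclean (k := k) w hk Bs hBs hdis
  let P : (Pair n → St n) → ℝ := fun φ =>
    ∏ e ∈ Tset S φ, (zt w / Yy w D) ^ ((vset (hs (φ e))).card - 1)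
  have hP0 : ∀ φ, 0 ≤ P φ := by
    intro φ
    have := zt_pos w
    exact prod_nonneg (fun e _ => by positivity)
  have hbound : ∀ φ ∈ (Phi S).filter (fun φ => ∀ B ∈ Bs, ¬ Clean S φ B),
      |wt k w S φ| * κ ^ (vset S).card ≤
      (if Valid w S φ then κ ^ (lcl w S).card * (P φ * (1 / κ ^ 2) ^ (Iset S φ).card) else 0) := by
    intro φ hφ
    rw [mem_filter] at hφ
    by_cases hwt : wt k w S φ = 0
    · rw [hwt, abs_zero, zero_mul]
      have := hP0 φ
      split_ifs
      · positivity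
      · exact le_rfl
    · have hv := valid_of_wt_ne_zero (k := k) w hwt
      rw [if_pos hv]
      have hnp : ∀ K ∈ ccl S, K.card ≤ w → ¬ Pure K S (Lst S φ) := by
        intro K hK hKw hpure
        have hB : β ⟨K, hK⟩ ∈ Bs := by
          apply mem_image_of_mem
          rw [mem_filter]
          exact ⟨mem_attach _ _, hKw⟩
        exact hφ.2 _ hB (hv.clean_of_pure w hK (hβ1 ⟨K, hK⟩) (hβ2 ⟨K, hK⟩) (hβ3 ⟨K, hK⟩)
          (hβ4 ⟨K, hK⟩) hpure)
      have h2 := abs_wt_exp_le2 w hk hv hnp (Yy w D) hY1 hyk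
      rw [← hκ, pow_add, pow_mul] at h2
      rw [one_div, inv_pow, ← mul_assoc, ← div_eq_mul_inv, le_div_iff₀ (by positivity)]
      calc |wt k w S φ| * κ ^ (vset S).card * (κ ^ 2) ^ (Iset S φ).card
          = |wt k w S φ| * (κ ^ (vset S).card * (κ ^ 2) ^ (Iset S φ).card) := by ring
        _ ≤ _ := h2
  have h2 : |aco k w S| * κ ^ (vset S).card ≤
      ∑ φ ∈ (Phi S).filter (fun φ => ∀ B ∈ Bs, ¬ Clean S φ B),
      (if Valid w S φ then κ ^ (lcl w S).card * (P φ * (1 / κ ^ 2) ^ (Iset S φ).card) else 0) := by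
    rw [h1]
    calc |∑ φ ∈ (Phi S).filter (fun φ => ∀ B ∈ Bs, ¬ Clean S φ B), wt k w S φ| *
          κ ^ (vset S).card
        ≤ (∑ φ ∈ (Phi S).filter (fun φ => ∀ B ∈ Bs, ¬ Clean S φ B), |wt k w S φ|) *
          κ ^ (vset S).card :=
          mul_le_mul_of_nonneg_right (abs_sum_le_sum_abs _ _) (by positivity)
      _ = ∑ φ ∈ (Phi S).filter (fun φ => ∀ B ∈ Bs, ¬ Clean S φ B), |wt k w S φ| *
          κ ^ (vset S).card := by rw [sum_mul]
      _ ≤ _ := sum_le_sum hbound
  have h3 : ∑ φ ∈ (Phi S).filter (fun φ => ∀ B ∈ Bs, ¬ Clean S φ B),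
      (if Valid w S φ then κ ^ (lcl w S).card * (P φ * (1 / κ ^ 2) ^ (Iset S φ).card) else 0) ≤
      ∑ φ ∈ Phi S,
      (if Valid w S φ then κ ^ (lcl w S).card * (P φ * (1 / κ ^ 2) ^ (Iset S φ).card) else 0) := by
    apply sum_le_sum_of_subset_of_nonneg (filter_subset _ _)
    intro φ _ _
    have := hP0 φ
    split_ifs
    · positivity
    · exact le_rfl
  have h4 : ∑ φ ∈ Phi S,
      (if Valid w S φ then κ ^ (lcl w S).card * (P φ * (1 / κ ^ 2) ^ (Iset S φ).card) else 0) =
      ∑ I : Finset (Fin n), ∑ φ ∈ (Phi S).filter (fun φ => Valid w S φ ∧ Iset S φ = I),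
        κ ^ (lcl w S).card * (P φ * (1 / κ ^ 2) ^ I.card) := by
    rw [← sum_filter]
    rw [← sum_fiberwise_of_maps_to (s := (Phi S).filter (fun φ => Valid w S φ))
      (t := (univ : Finset (Finset (Fin n)))) (g := fun φ => Iset S φ) (fun _ _ => mem_univ _)]
    apply sum_congr rfl
    intro I _
    rw [filter_filter]
    apply sum_congr rfl
    intro φ hφ
    rw [(mem_filter.1 hφ).2.2]
  have h5 : ∀ I ∈ (univ : Finset (Finset (Fin n))),
      ∑ φ ∈ (Phi S).filter (fun φ => Valid w S φ ∧ Iset S φ = I),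
        κ ^ (lcl w S).card * (P φ * (1 / κ ^ 2) ^ I.card) ≤
      (3 * κ ^ (lcl w S).card) * (1 / κ ^ 2) ^ I.card := by
    intro I _
    have h6 : ∑ φ ∈ (Phi S).filter (fun φ => Valid w S φ ∧ Iset S φ = I),
        κ ^ (lcl w S).card * (P φ * (1 / κ ^ 2) ^ I.card) =
        (∑ φ ∈ (Phi S).filter (fun φ => Valid w S φ ∧ Iset S φ = I), P φ) *
        (κ ^ (lcl w S).card * (1 / κ ^ 2) ^ I.card) := by
      rw [sum_mul]
      apply sum_congr rfl
      intro φ _; ring
    rw [h6]
    calc _ ≤ 3 * (κ ^ (lcl w S).card * (1 / κ ^ 2) ^ I.card) :=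
          mul_le_mul_of_nonneg_right (sum_valid_le w S I D hD1 hD) (by positivity)
      _ = _ := by ring
  calc |aco k w S| * κ ^ (vset S).card
      ≤ ∑ I : Finset (Fin n), ∑ φ ∈ (Phi S).filter (fun φ => Valid w S φ ∧ Iset S φ = I),
        κ ^ (lcl w S).card * (P φ * (1 / κ ^ 2) ^ I.card) := by
        refine h2.trans (h3.trans ?_)
        rw [h4]
    _ ≤ ∑ I : Finset (Fin n), (3 * κ ^ (lcl w S).card) * (1 / κ ^ 2) ^ I.card := sum_le_sum h5
    _ = (3 * κ ^ (lcl w S).card) * ∑ I : Finset (Fin n), (1 / κ ^ 2) ^ I.card := by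
        rw [mul_sum]
    _ ≤ (3 * κ ^ (lcl w S).card) * 3 :=
        mul_le_mul_of_nonneg_left (sum_extra_le2 κ hκ0 hn) (by positivity)
    _ = 9 * κ ^ (lcl w S).card := by ring

end Pool.Agent.ColorRef
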