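import Pool.Agent.ColorRef.Count2

namespace Pool.Agent.ColorRef

open Finset BigOperators
open scoped Classical

set_option linter.unusedSectionVars false

variable {n : ℕ} {k : ℕ} [NeZero k] (w : ℕ)

lemma Yy_ge_one {D : ℕ} (hD1 : 1 ≤ D) : 1 ≤ Yy w D := by
  have hDR : (1 : ℝ) ≤ D := by exact_mod_cast hD1
  unfold Yy
  have h1 : (1 : ℝ) ≤ ((w : ℝ) + 2) ^ 2 := by
    have : (0 : ℝ) ≤ w := Nat.cast_nonneg w
    nlinarith
  have h2 : (1 : ℝ) ≤ (D : ℝ) ^ 3 := one_le_pow₀ hDR
  have h3 : (1 : ℝ) ≤ 2 ^ (4 * w + 4) := one_le_pow₀ (by norm_num)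
  calc (1 : ℝ) = 1 * 1 * 1 := by ring
    _ ≤ _ := by gcongr

/-- Bound for a single squared coefficient. -/
lemma sq_aco_le2 {S : Finset (Pair n)} (hk : 2 * w ^ 2 ≤ k) (D : ℕ) (hD1 : 1 ≤ D)
    (hD : S.card ≤ D) (θ : ℝ) (hθ : 1 ≤ θ) (hyk : Yy w D ≤ k)
    (h1 : (n : ℝ) * θ ^ 4 ≤ ((k : ℝ) / Yy w D) ^ 2)
    (h2 : ((k : ℝ) / Yy w D) ^ 2 ≤ θ ^ (w + 1)) :
    aco k w S ^ 2 * ((n : ℝ) ^ (vset S).card * θ ^ (3 * (vset S).card)) ≤ 81 := by
  have hk0 := kpos (k := k)
  have hθ0 : 0 < θ := by linarith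
  have hY1 := Yy_ge_one w hD1
  have hY0 : 0 < Yy w D := by linarith
  set κ := (k : ℝ) / Yy w D with hκ
  have hκ0 : 0 < κ := by rw [hκ]; positivity
  have hn : (n : ℝ) ≤ κ ^ 2 := by
    refine le_trans ?_ h1
    calc (n : ℝ) = n * 1 := (mul_one _).symm
      _ ≤ n * θ ^ 4 := by gcongr; exact one_le_pow₀ hθ
  set v := (vset S).card with hv
  set c := (lcl w S).card with hc
  have hA := abs_aco_le2 w hk D hD1 hD hyk hn
  have hcv : c * (w + 1) ≤ v := card_lcl_mul_le w S
  have hB : aco k w S ^ 2 * (κ ^ 2) ^ v ≤ 81 * (κ ^ 2) ^ c := by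
    have h4 : (|aco k w S| * κ ^ v) ^ 2 ≤ (9 * κ ^ c) ^ 2 :=
      pow_le_pow_left₀ (by positivity) hA 2
    calc aco k w S ^ 2 * (κ ^ 2) ^ v = (|aco k w S| * κ ^ v) ^ 2 := by
          rw [mul_pow, sq_abs, ← pow_mul, ← pow_mul, mul_comm 2 v]
      _ ≤ (9 * κ ^ c) ^ 2 := h4
      _ = 81 * (κ ^ 2) ^ c := by
          rw [mul_pow, ← pow_mul, ← pow_mul, mul_comm c 2]
          norm_num
  have hC : (κ ^ 2) ^ c ≤ θ ^ v := by
    calc (κ ^ 2) ^ c ≤ (θ ^ (w + 1)) ^ c := by gcongr
      _ = θ ^ ((w + 1) * c) := by rw [← pow_mul]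
      _ ≤ θ ^ v := by
          apply pow_le_pow_right₀ hθ
          rw [mul_comm]; exact hcv
  have hE : (n : ℝ) ^ v * θ ^ (3 * v) * θ ^ v ≤ (κ ^ 2) ^ v := by
    calc (n : ℝ) ^ v * θ ^ (3 * v) * θ ^ v = ((n : ℝ) * θ ^ 4) ^ v := by
          rw [mul_pow, ← pow_mul θ 4 v, show 4 * v = 3 * v + v by ring, pow_add]
          ring
      _ ≤ (κ ^ 2) ^ v := by gcongr
  have h5 : (aco k w S ^ 2 * ((n : ℝ) ^ v * θ ^ (3 * v))) * θ ^ v ≤ 81 * θ ^ v := by
    calc (aco k w S ^ 2 * ((n : ℝ) ^ v * θ ^ (3 * v))) * θ ^ v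
        = aco k w S ^ 2 * ((n : ℝ) ^ v * θ ^ (3 * v) * θ ^ v) := by ring
      _ ≤ aco k w S ^ 2 * (κ ^ 2) ^ v := by gcongr
      _ ≤ 81 * (κ ^ 2) ^ c := hB
      _ ≤ 81 * θ ^ v := by gcongr
  exact le_of_mul_le_mul_right h5 (by positivity)

lemma choose_sq_le (v s : ℕ) : ((v ^ 2).choose s : ℝ) ≤ Real.exp (2 * Real.sqrt s * v) := by
  rcases Nat.eq_zero_or_pos s with rfl | hs
  · simp
  · have hsR : (0 : ℝ) < s := by exact_mod_cast hs
    have hq : 0 < Real.sqrt s := Real.sqrt_pos.2 hsR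
    have hqq : Real.sqrt s * Real.sqrt s = s := Real.mul_self_sqrt hsR.le
    have h1 : ((v ^ 2).choose s : ℝ) ≤ ((v : ℝ) ^ 2) ^ s / s.factorial := by
      have := Nat.choose_le_pow_div (α := ℝ) s (v ^ 2)
      push_cast at this
      exact this
    have h2 : (Real.sqrt s * v) ^ s / s.factorial ≤ Real.exp (Real.sqrt s * v) :=
      Real.pow_div_factorial_le_exp _ (by positivity) s
    have h3 : (v / Real.sqrt s : ℝ) ^ s ≤ Real.exp (Real.sqrt s * v) := by
      calc (v / Real.sqrt s : ℝ) ^ s ≤ (Real.exp (v / Real.sqrt s)) ^ s := by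
            gcongr
            have := Real.add_one_le_exp (v / Real.sqrt s : ℝ)
            linarith
        _ = Real.exp (s * (v / Real.sqrt s)) := by rw [← Real.exp_nat_mul]
        _ = Real.exp (Real.sqrt s * v) := by
            congr 1
            rw [← mul_div_assoc, div_eq_iff hq.ne']
            calc (s : ℝ) * v = (Real.sqrt s * Real.sqrt s) * v := by rw [hqq]
              _ = Real.sqrt s * v * Real.sqrt s := by ring
    calc ((v ^ 2).choose s : ℝ) ≤ ((v : ℝ) ^ 2) ^ s / s.factorial := h1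
      _ = (v / Real.sqrt s : ℝ) ^ s * ((Real.sqrt s * v) ^ s / s.factorial) := by
          rw [← mul_div_assoc, ← mul_pow]
          congr 2
          field_simp
      _ ≤ Real.exp (Real.sqrt s * v) * Real.exp (Real.sqrt s * v) := by
          gcongr
      _ = Real.exp (2 * Real.sqrt s * v) := by
          rw [← Real.exp_add]; congr 1; ring

/-- The number of edge sets with given vertex set and size. -/
lemma card_fiber_le2 (V : Finset (Fin n)) (s D : ℕ) (hs : s ≤ D) (θ : ℝ)
    (hθ : Real.exp (2 * Real.sqrt D) ≤ θ) :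
    ((univ.filter (fun S : Finset (Pair n) => vset S = V ∧ S.card = s)).card : ℝ) ≤
      θ ^ V.card := by
  have h1 : univ.filter (fun S : Finset (Pair n) => vset S = V ∧ S.card = s) ⊆
      powersetCard s (inside V) := by
    intro S hS
    rw [mem_filter] at hS
    rw [mem_powersetCard]
    refine ⟨?_, hS.2.2⟩
    rw [← hS.2.1]
    exact subset_inside S
  have h2 : (univ.filter (fun S : Finset (Pair n) => vset S = V ∧ S.card = s)).card ≤
      (V.card ^ 2).choose s := by
    calc _ ≤ (powersetCard s (inside V)).card := card_le_card h1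
      _ = (inside V).card.choose s := card_powersetCard _ _
      _ ≤ (V.card ^ 2).choose s := Nat.choose_le_choose s (card_inside_le V)
  calc ((univ.filter (fun S : Finset (Pair n) => vset S = V ∧ S.card = s)).card : ℝ)
      ≤ ((V.card ^ 2).choose s : ℝ) := by exact_mod_cast h2
    _ ≤ Real.exp (2 * Real.sqrt s * V.card) := choose_sq_le _ _
    _ ≤ Real.exp (V.card * (2 * Real.sqrt D)) := by
        apply Real.exp_le_exp.2
        have h3 : Real.sqrt s ≤ Real.sqrt D := Real.sqrt_le_sqrt (by exact_mod_cast hs)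
        have h4 : (0 : ℝ) ≤ V.card := Nat.cast_nonneg _
        nlinarith
    _ = (Real.exp (2 * Real.sqrt D)) ^ V.card := by rw [← Real.exp_nat_mul]
    _ ≤ θ ^ V.card := by
        gcongr

/-- Bound for the sum of the squared coefficients. -/
theorem sum_sq_aco_le2 (hk : 2 * w ^ 2 ≤ k) (D : ℕ) (hn0 : 0 < n) (hD1 : 1 ≤ D)
    (θ : ℝ) (hθ : Real.exp (2 * Real.sqrt D) ≤ θ) (hyk : Yy w D ≤ k)
    (h1 : (n : ℝ) * θ ^ 4 ≤ ((k : ℝ) / Yy w D) ^ 2)
    (h2 : ((k : ℝ) / Yy w D) ^ 2 ≤ θ ^ (w + 1)) :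
    ∑ S ∈ TD n D, aco k w S ^ 2 ≤ 81 * D * (2 * D + 1) / θ ^ 2 := by
  have hθ1 : 1 ≤ θ := by
    refine le_trans ?_ hθ
    exact Real.one_le_exp (by positivity)
  have hθ0 : 0 < θ := by linarith
  have hnR : (0 : ℝ) < n := by exact_mod_cast hn0
  have hDR : (0 : ℝ) < D := by exact_mod_cast hD1
  -- pointwise bound
  let g : Finset (Fin n) → ℝ := fun V =>
    81 / ((n : ℝ) ^ V.card * θ ^ V.card * θ ^ 2)
  have hg0 : ∀ V, 0 ≤ g V := by
    intro V
    simp only [g]
    positivity
  have hpt : ∀ S ∈ TD n D, aco k w S ^ 2 ≤ g (vset S) := by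
    intro S hS
    rw [TD, mem_filter] at hS
    have h4 := sq_aco_le2 w hk D hD1 hS.2.2 θ hθ1 hyk h1 h2
    have h5 : 1 ≤ (vset S).card := by
      obtain ⟨e, he⟩ := card_pos.1 hS.2.1
      exact card_pos.2 ⟨_, fst_mem_vset he⟩
    simp only [g]
    rw [le_div_iff₀ (by positivity)]
    refine le_trans ?_ h4
    have h6 : θ ^ (vset S).card * θ ^ 2 ≤ θ ^ (3 * (vset S).card) := by
      rw [← pow_add]
      apply pow_le_pow_right₀ hθ1
      omega
    calc aco k w S ^ 2 * ((n : ℝ) ^ (vset S).card * θ ^ (vset S).card * θ ^ 2)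
        = aco k w S ^ 2 * ((n : ℝ) ^ (vset S).card * (θ ^ (vset S).card * θ ^ 2)) := by ring
      _ ≤ _ := by gcongr
  -- fibre the sum
  have hmaps : ∀ S ∈ TD n D, (vset S, S.card) ∈
      (univ.filter (fun V : Finset (Fin n) => V.card ≤ 2 * D)) ×ˢ (Icc 1 D) := by
    intro S hS
    rw [TD, mem_filter] at hS
    rw [mem_product, mem_filter, mem_Icc]
    refine ⟨⟨mem_univ _, ?_⟩, hS.2⟩
    exact (card_vset_le S).trans (Nat.mul_le_mul_left 2 hS.2.2)
  have hfib : ∑ S ∈ TD n D, g (vset S) =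
      ∑ V ∈ univ.filter (fun V : Finset (Fin n) => V.card ≤ 2 * D), ∑ s ∈ Icc 1 D,
        ∑ S ∈ (TD n D).filter (fun S => (vset S, S.card) = (V, s)), g (vset S) := by
    rw [← sum_product' (f := fun V s =>
      ∑ S ∈ (TD n D).filter (fun S => (vset S, S.card) = (V, s)), g (vset S))]
    exact (sum_fiberwise_of_maps_to hmaps (fun S => g (vset S))).symm
  have hinner : ∀ V : Finset (Fin n), ∀ s ∈ Icc 1 D,
      ∑ S ∈ (TD n D).filter (fun S => (vset S, S.card) = (V, s)), g (vset S) ≤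
      81 / ((n : ℝ) ^ V.card * θ ^ 2) := by
    intro V s hs
    have h4 : ∑ S ∈ (TD n D).filter (fun S => (vset S, S.card) = (V, s)), g (vset S) =
        (((TD n D).filter (fun S => (vset S, S.card) = (V, s))).card : ℝ) * g V := by
      rw [← nsmul_eq_mul, ← sum_const]
      apply sum_congr rfl
      intro S hS
      have := (mem_filter.1 hS).2
      rw [Prod.mk.injEq] at this
      rw [this.1]
    rw [h4]
    have h5 : ((TD n D).filter (fun S => (vset S, S.card) = (V, s))).card ≤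
        (univ.filter (fun S : Finset (Pair n) => vset S = V ∧ S.card = s)).card := by
      apply card_le_card
      intro S hS
      rw [mem_filter] at hS ⊢
      have := hS.2
      rw [Prod.mk.injEq] at this
      exact ⟨mem_univ _, this⟩
    have h6 : ((((TD n D).filter (fun S => (vset S, S.card) = (V, s))).card : ℕ) : ℝ) ≤
        θ ^ V.card := by
      refine le_trans ?_ (card_fiber_le2 V s D (mem_Icc.1 hs).2 θ hθ)
      exact_mod_cast h5
    calc (((TD n D).filter (fun S => (vset S, S.card) = (V, s))).card : ℝ) * g V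
        ≤ θ ^ V.card * g V := mul_le_mul_of_nonneg_right h6 (hg0 V)
      _ = 81 / ((n : ℝ) ^ V.card * θ ^ 2) := by
          simp only [g]
          field_simp
  have hV : ∑ V ∈ univ.filter (fun V : Finset (Fin n) => V.card ≤ 2 * D),
      (D : ℝ) * (81 / ((n : ℝ) ^ V.card * θ ^ 2)) ≤ 81 * D * (2 * D + 1) / θ ^ 2 := by
    have h4 : ∑ V ∈ univ.filter (fun V : Finset (Fin n) => V.card ≤ 2 * D),
        (D : ℝ) * (81 / ((n : ℝ) ^ V.card * θ ^ 2)) =
        ∑ m ∈ range (2 * D + 1), ∑ V ∈ (univ.filter (fun V : Finset (Fin n) =>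
          V.card ≤ 2 * D)).filter (fun V => V.card = m),
          (D : ℝ) * (81 / ((n : ℝ) ^ V.card * θ ^ 2)) := by
      refine (sum_fiberwise_of_maps_to (g := fun V : Finset (Fin n) => V.card) ?_ _).symm
      intro V hV
      rw [mem_range]
      have := (mem_filter.1 hV).2
      omega
    rw [h4]
    have h5 : ∀ m ∈ range (2 * D + 1), ∑ V ∈ (univ.filter (fun V : Finset (Fin n) =>
          V.card ≤ 2 * D)).filter (fun V => V.card = m),
          (D : ℝ) * (81 / ((n : ℝ) ^ V.card * θ ^ 2)) ≤ 81 * D / θ ^ 2 := by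
      intro m _
      have h6 : ∑ V ∈ (univ.filter (fun V : Finset (Fin n) =>
          V.card ≤ 2 * D)).filter (fun V => V.card = m),
          (D : ℝ) * (81 / ((n : ℝ) ^ V.card * θ ^ 2)) =
          (((univ.filter (fun V : Finset (Fin n) =>
          V.card ≤ 2 * D)).filter (fun V => V.card = m)).card : ℝ) *
          ((D : ℝ) * (81 / ((n : ℝ) ^ m * θ ^ 2))) := by
        rw [← nsmul_eq_mul, ← sum_const]
        apply sum_congr rfl
        intro V hV
        rw [(mem_filter.1 hV).2]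
      rw [h6]
      have h7 : ((univ.filter (fun V : Finset (Fin n) =>
          V.card ≤ 2 * D)).filter (fun V => V.card = m)).card ≤ n ^ m := by
        calc _ ≤ (powersetCard m (univ : Finset (Fin n))).card := by
              apply card_le_card
              intro V hV
              rw [mem_powersetCard]
              exact ⟨subset_univ _, (mem_filter.1 hV).2⟩
          _ = n.choose m := by rw [card_powersetCard, card_univ, Fintype.card_fin]
          _ ≤ n ^ m := Nat.choose_le_pow _ _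
      have h8 : ((((univ.filter (fun V : Finset (Fin n) =>
          V.card ≤ 2 * D)).filter (fun V => V.card = m)).card : ℕ) : ℝ) ≤ (n : ℝ) ^ m := by
        exact_mod_cast h7
      calc _ ≤ (n : ℝ) ^ m * ((D : ℝ) * (81 / ((n : ℝ) ^ m * θ ^ 2))) := by gcongr
        _ = 81 * D / θ ^ 2 := by field_simp
    calc _ ≤ ∑ m ∈ range (2 * D + 1), (81 * D / θ ^ 2 : ℝ) := sum_le_sum h5
      _ = 81 * D * (2 * D + 1) / θ ^ 2 := by
          rw [sum_const, card_range, nsmul_eq_mul]; push_cast; ring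
  calc ∑ S ∈ TD n D, aco k w S ^ 2 ≤ ∑ S ∈ TD n D, g (vset S) := sum_le_sum hpt
    _ = _ := hfib
    _ ≤ ∑ V ∈ univ.filter (fun V : Finset (Fin n) => V.card ≤ 2 * D), ∑ s ∈ Icc 1 D,
        81 / ((n : ℝ) ^ V.card * θ ^ 2) := by
        apply sum_le_sum
        intro V hV
        apply sum_le_sum
        intro s hs
        exact hinner V s hs
    _ = ∑ V ∈ univ.filter (fun V : Finset (Fin n) => V.card ≤ 2 * D),
      (D : ℝ) * (81 / ((n : ℝ) ^ V.card * θ ^ 2)) := by
        apply sum_congr rfl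
        intro V _
        rw [sum_const, Nat.card_Icc, nsmul_eq_mul]
        simp
    _ ≤ _ := hV

/-- Bound for the number of relevant coefficients. -/
lemma card_TD_le2 (hn : 2 ≤ n) (D : ℕ) : ((TD n D).card : ℝ) ≤ (n : ℝ) ^ (3 * D) := by
  have h1 : TD n D ⊆ ((univ : Finset (Pair n)).powerset.filter (fun X => X.card ≤ D)) := by
    intro S hS
    rw [TD, mem_filter] at hS
    rw [mem_filter, mem_powerset]
    exact ⟨subset_univ _, hS.2.2⟩
  have h2 : ((univ : Finset (Pair n)).powerset.filter (fun X => X.card ≤ D)).card ≤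
      ((univ : Finset (Pair n)).card + 1) ^ D := by
    have h3 : (univ : Finset (Pair n)).powerset.filter (fun X => X.card ≤ D) ⊆
        (range (D + 1)).biUnion (fun j => powersetCard j (univ : Finset (Pair n))) := by
      intro X hX
      rw [mem_filter, mem_powerset] at hX
      rw [mem_biUnion]
      exact ⟨X.card, by rw [mem_range]; omega, by rw [mem_powersetCard]; exact ⟨hX.1, rfl⟩⟩
    calc _ ≤ ∑ j ∈ range (D + 1), (powersetCard j (univ : Finset (Pair n))).card :=
          (card_le_card h3).trans card_biUnion_le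
      _ ≤ ∑ j ∈ range (D + 1), (univ : Finset (Pair n)).card ^ j * 1 ^ (D - j) * D.choose j := by
          apply sum_le_sum
          intro j hj
          rw [card_powersetCard, one_pow, mul_one]
          have h2 : 1 ≤ D.choose j := Nat.choose_pos (by rw [mem_range] at hj; omega)
          calc _ ≤ (univ : Finset (Pair n)).card ^ j := Nat.choose_le_pow _ _
            _ = (univ : Finset (Pair n)).card ^ j * 1 := (mul_one _).symm
            _ ≤ (univ : Finset (Pair n)).card ^ j * D.choose j := Nat.mul_le_mul_left _ h2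
      _ = ((univ : Finset (Pair n)).card + 1) ^ D := by rw [add_pow]; simp
  have h4 : (univ : Finset (Pair n)).card + 1 ≤ n ^ 3 := by
    have h5 : (univ : Finset (Pair n)).card ≤ n ^ 2 := by
      rw [card_univ]
      calc Fintype.card (Pair n) ≤ Fintype.card (Fin n × Fin n) :=
            Fintype.card_le_of_injective _ Subtype.val_injective
        _ = n ^ 2 := by rw [Fintype.card_prod, Fintype.card_fin]; ring
    have h6 : 1 ≤ n ^ 2 := Nat.one_le_pow _ _ (by omega)
    calc _ ≤ n ^ 2 + n ^ 2 := by omega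
      _ = 2 * n ^ 2 := by ring
      _ ≤ n * n ^ 2 := Nat.mul_le_mul_right _ hn
      _ = n ^ 3 := by ring
  have h7 : (TD n D).card ≤ n ^ (3 * D) := by
    calc (TD n D).card ≤ ((univ : Finset (Pair n)).card + 1) ^ D := (card_le_card h1).trans h2
      _ ≤ (n ^ 3) ^ D := Nat.pow_le_pow_left h4 D
      _ = n ^ (3 * D) := by rw [← pow_mul]
  exact_mod_cast h7

end Pool.Agent.ColorRef
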