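import Pool.Agent.ColorRef.Core

namespace Pool.Agent.ColorRef

open Finset BigOperators
open scoped Classical

set_option linter.unusedSectionVars false

variable {n : ℕ} {k : ℕ} [NeZero k]

lemma two_pow_le_exp (m : ℕ) : (2 : ℝ) ^ m ≤ Real.exp m := by
  have h1 : (2 : ℝ) ≤ Real.exp 1 := by
    have := Real.add_one_le_exp (1 : ℝ)
    linarith
  calc (2 : ℝ) ^ m ≤ (Real.exp 1) ^ m := by gcongr
    _ = Real.exp m := by rw [← Real.exp_nat_mul, mul_one]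

lemma cgnst_le (w m : ℕ) (a : ℝ) (ha : (m : ℝ) + 1 ≤ a) :
    Cg w * Nst w m ≤ 2 ^ (2 * w ^ 2 + 3) * a ^ w := by
  have hm : (0 : ℝ) ≤ m := Nat.cast_nonneg m
  have h3 : (Nst w m : ℝ) ≤ 3 * a ^ w * 2 ^ (w ^ 2) := by
    unfold Nst
    have h5 : (1 : ℝ) ≤ ((m : ℝ) + 1) ^ w := one_le_pow₀ (by linarith)
    have h6 : (1 : ℝ) ≤ 2 ^ (w ^ 2) := one_le_pow₀ (by norm_num)
    have h4 : (1 : ℝ) ≤ ((m : ℝ) + 1) ^ w * 2 ^ (w ^ 2) := by
      calc (1 : ℝ) = 1 * 1 := (one_mul 1).symm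
        _ ≤ _ := by gcongr
    have h7 : ((m : ℝ) + 1) ^ w * 2 ^ (w ^ 2) ≤ a ^ w * 2 ^ (w ^ 2) := by gcongr
    push_cast
    linarith
  have h8 : 0 ≤ a ^ w := pow_nonneg (by linarith) w
  calc Cg w * Nst w m ≤ 2 ^ (w ^ 2 + 1) * (3 * a ^ w * 2 ^ (w ^ 2)) := by
        unfold Cg
        exact mul_le_mul_of_nonneg_left h3 (by positivity)
    _ ≤ 2 ^ (w ^ 2 + 1) * (4 * a ^ w * 2 ^ (w ^ 2)) := by
        apply mul_le_mul_of_nonneg_left _ (by positivity)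
        apply mul_le_mul_of_nonneg_right _ (by positivity)
        linarith
    _ = 2 ^ (2 * w ^ 2 + 3) * a ^ w := by
        rw [show 2 * w ^ 2 + 3 = (w ^ 2 + 1) + (w ^ 2) + 2 by ring, pow_add, pow_add]
        norm_num
        ring

lemma Z_le (w p : ℕ) (s : ℝ) (hs0 : 1000 ≤ s) (hlog : 24 * Real.log s ≤ s)
    (hws : (w : ℝ) ≤ s / 4) (hpw : 4 * (p : ℝ) * w + 3 ≤ s ^ 6) :
    (Cg w * Nst w (4 * p * w + 2)) ^ 4 ≤ Real.exp (s ^ 2) := by
  have hs1 : (0 : ℝ) < s := by linarith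
  have hw0 : (0 : ℝ) ≤ w := Nat.cast_nonneg w
  have hw2s : (w : ℝ) ^ 2 ≤ s ^ 2 / 16 := by
    calc (w : ℝ) ^ 2 ≤ (s / 4) ^ 2 := by gcongr
      _ = s ^ 2 / 16 := by ring
  have hs2 : (1000000 : ℝ) ≤ s ^ 2 := by nlinarith
  have h4 : Cg w * Nst w (4 * p * w + 2) ≤ 2 ^ (2 * w ^ 2 + 3) * (s ^ 6) ^ w := by
    apply cgnst_le
    push_cast
    linarith
  have h5 : (s ^ 6) ^ w ≤ Real.exp (s ^ 2 / 16) := by
    have h7 : (s ^ 6) ^ w = Real.exp ((6 * w) * Real.log s) := by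
      rw [← pow_mul, ← Real.exp_log (pow_pos hs1 (6 * w)), Real.log_pow]
      push_cast
      rfl
    rw [h7]
    apply Real.exp_le_exp.2
    have h8 : 0 ≤ Real.log s := Real.log_nonneg (by linarith)
    have h9 : Real.log s ≤ s / 24 := by linarith
    calc (6 * (w : ℝ)) * Real.log s ≤ (6 * (s / 4)) * (s / 24) := by gcongr
      _ = s ^ 2 / 16 := by ring
  have h6 : (2 : ℝ) ^ (2 * w ^ 2 + 3) ≤ Real.exp (s ^ 2 / 8 + 3) := by
    refine (two_pow_le_exp _).trans ?_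
    apply Real.exp_le_exp.2
    push_cast
    linarith
  have hCN : 0 ≤ Cg w * Nst w (4 * p * w + 2) := by
    have := Cg_ge_one w
    exact mul_nonneg (by linarith) (Nat.cast_nonneg _)
  have h7 : Cg w * Nst w (4 * p * w + 2) ≤ Real.exp (s ^ 2 / 8 + 3 + s ^ 2 / 16) := by
    rw [Real.exp_add (s ^ 2 / 8 + 3)]
    exact h4.trans (mul_le_mul h6 h5 (by positivity) (by positivity))
  have h8 : (Real.exp (s ^ 2 / 8 + 3 + s ^ 2 / 16)) ^ 4 ≤ Real.exp (s ^ 2) := by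
    rw [← Real.exp_nat_mul]
    apply Real.exp_le_exp.2
    push_cast
    linarith
  exact (pow_le_pow_left₀ hCN h7 4).trans h8

lemma Yy_le (w D : ℕ) (L : ℝ) (hL0 : 64000 ≤ L) (hLlog : 100 * Real.log L ≤ L)
    (hwL : (w : ℝ) ≤ L / 256) (hDL : (D : ℝ) ≤ L ^ 2 / 1000) :
    Yy w D ≤ Real.exp (3 * L / 4) := by
  have hL : 0 < L := by linarith
  have h1 : ((w : ℝ) + 2) ^ 2 ≤ Real.exp (2 * (w + 1)) := by
    have h2 : (w : ℝ) + 2 ≤ Real.exp (w + 1) := by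
      have := Real.add_one_le_exp ((w : ℝ) + 1)
      linarith
    calc ((w : ℝ) + 2) ^ 2 ≤ (Real.exp (w + 1)) ^ 2 := by gcongr
      _ = Real.exp (2 * (w + 1)) := by
          rw [← Real.exp_nat_mul]; norm_num
  have h2 : (D : ℝ) ^ 3 ≤ Real.exp (6 * (L / 100)) := by
    have h3 : (D : ℝ) ≤ L ^ 2 := by
      refine hDL.trans ?_
      have := sq_nonneg L
      linarith
    have h4 : L ≤ Real.exp (L / 100) := by
      rw [← Real.log_le_iff_le_exp hL]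
      linarith
    calc (D : ℝ) ^ 3 ≤ (L ^ 2) ^ 3 := by gcongr
      _ = L ^ 6 := by ring
      _ ≤ (Real.exp (L / 100)) ^ 6 := by gcongr
      _ = Real.exp (6 * (L / 100)) := by rw [← Real.exp_nat_mul]; norm_num
  have h3 : (2 : ℝ) ^ (4 * w + 4) ≤ Real.exp (4 * w + 4) := by
    have := two_pow_le_exp (4 * w + 4)
    push_cast at this
    exact this
  have h4 : Real.exp (2 * (w + 1)) * Real.exp (6 * (L / 100)) * Real.exp (4 * w + 4) =
      Real.exp (2 * (w + 1) + 6 * (L / 100) + (4 * w + 4)) := by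
    rw [Real.exp_add (2 * ((w : ℝ) + 1) + 6 * (L / 100)), Real.exp_add (2 * ((w : ℝ) + 1))]
  calc Yy w D = ((w : ℝ) + 2) ^ 2 * (D : ℝ) ^ 3 * 2 ^ (4 * w + 4) := rfl
    _ ≤ Real.exp (2 * (w + 1)) * Real.exp (6 * (L / 100)) * Real.exp (4 * w + 4) := by gcongr
    _ = Real.exp (2 * (w + 1) + 6 * (L / 100) + (4 * w + 4)) := h4
    _ ≤ Real.exp (3 * L / 4) := by
        apply Real.exp_le_exp.2
        linarith

lemma pw_le (w D p : ℕ) (s L : ℝ) (hs0 : 1000 ≤ s) (hws : (w : ℝ) ≤ s / 4)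
    (hL0 : 0 < L) (hL2 : L ≤ s ^ 2) (hDL : (D : ℝ) ≤ L ^ 2 / 1000)
    (hp : p = (2 * w + 3) * D + 3) : 4 * (p : ℝ) * w + 3 ≤ s ^ 6 := by
  have hs1 : (0 : ℝ) < s := by linarith
  have hw0 : (0 : ℝ) ≤ w := Nat.cast_nonneg w
  have h3 : (D : ℝ) ≤ s ^ 4 / 1000 := by
    refine hDL.trans ?_
    have : L ^ 2 ≤ (s ^ 2) ^ 2 := by gcongr
    calc L ^ 2 / 1000 ≤ (s ^ 2) ^ 2 / 1000 := by gcongr
      _ = s ^ 4 / 1000 := by ring
  have h4 : 2 * (w : ℝ) + 3 ≤ s := by linarith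
  have h5 : (p : ℝ) ≤ s ^ 5 / 1000 + 3 := by
    rw [hp]; push_cast
    calc (2 * (w : ℝ) + 3) * D + 3 ≤ s * (s ^ 4 / 1000) + 3 := by gcongr
      _ = s ^ 5 / 1000 + 3 := by ring
  have h6 : (1000 : ℝ) ≤ s ^ 5 / 1000 := by
    rw [le_div_iff₀ (by norm_num)]
    calc (1000 : ℝ) * 1000 ≤ 1000 ^ 5 := by norm_num
      _ ≤ s ^ 5 := by gcongr
  have h7 : s ^ 5 ≤ s ^ 6 := pow_le_pow_right₀ (by linarith) (by norm_num)
  calc 4 * (p : ℝ) * w + 3 ≤ 4 * (s ^ 5 / 1000 + 3) * (s / 4) + 3 := by gcongr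
    _ = (s ^ 5 / 1000 + 3) * s + 3 := by ring
    _ ≤ (s ^ 5 / 1000 + s ^ 5 / 1000) * s + s ^ 5 / 1000 := by
        have h9 : (s ^ 5 / 1000 + 3) * s ≤ (s ^ 5 / 1000 + s ^ 5 / 1000) * s :=
          mul_le_mul_of_nonneg_right (by linarith) hs1.le
        linarith
    _ = s ^ 6 / 500 + s ^ 5 / 1000 := by ring
    _ ≤ s ^ 6 := by linarith

/-- The second moment bound in terms of the excess `L` of `log k` over `(log n) / 2`. -/
theorem asym (hn : 6 ≤ n) (s L : ℝ) (hs : s ^ 2 = Real.log n) (hs0 : 1000 ≤ s)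
    (hlog : 24 * Real.log s ≤ s) (hkL : (k : ℝ) ^ 2 = n * Real.exp (2 * L))
    (hL1 : 64 * s ≤ L) (hL2 : L ≤ s ^ 2) (hLlog : 100 * Real.log L ≤ L)
    (D : ℕ) (hD : D ≤ ⌊L ^ 2 / 1000⌋₊) (hD1 : 1 ≤ D)
    (F : (Pair n → Bool) → ℝ)
    (hF : ∀ (σ : Fin n → ZMod k) (y : Pair n → Bool), (∀ e, Mono σ e → y e = false) → 1 ≤ F y)
    (hmean : 𝔼 y, F y = 0)
    (hdeg : ∀ S : Finset (Pair n), D < S.card → fh F S = 0) :
    1 / 4 ≤ (𝔼 y, F y ^ 2) * (L ^ 4 * Real.exp (-(L / 4)) + 18 / n) := by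
  have hnR : (6 : ℝ) ≤ n := by exact_mod_cast hn
  have hn0 : (0 : ℝ) < n := by linarith
  have hk0 := kpos (k := k)
  have hL0 : 0 < L := by linarith
  have hexpn : Real.exp (s ^ 2) = n := by rw [hs, Real.exp_log hn0]
  -- parameters
  obtain ⟨w, hw⟩ : ∃ w : ℕ, w = ⌈8 * s ^ 2 / L⌉₊ + 16 := ⟨_, rfl⟩
  have hw1 : 8 * s ^ 2 / L + 16 ≤ w := by
    rw [hw]; push_cast
    have := Nat.le_ceil (8 * s ^ 2 / L)
    linarith
  have hw2 : (w : ℝ) ≤ 8 * s ^ 2 / L + 17 := by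
    rw [hw]; push_cast
    have := (Nat.ceil_lt_add_one (by positivity : (0 : ℝ) ≤ 8 * s ^ 2 / L)).le
    linarith
  have hw3 : 8 * s ^ 2 / L ≤ s / 8 := by
    rw [div_le_iff₀ hL0]
    nlinarith
  have hws : (w : ℝ) ≤ s / 4 := by linarith
  have hwL : (w : ℝ) ≤ L / 256 := by linarith
  have hw0 : (0 : ℝ) ≤ w := Nat.cast_nonneg w
  have hDL : (D : ℝ) ≤ L ^ 2 / 1000 :=
    le_trans (by exact_mod_cast hD) (Nat.floor_le (by positivity))
  have hDR : (1 : ℝ) ≤ D := by exact_mod_cast hD1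
  obtain ⟨θ, hθdef⟩ : ∃ θ : ℝ, θ = Real.exp (L / 8) := ⟨_, rfl⟩
  -- condition on θ
  have hθ : Real.exp (2 * Real.sqrt D) ≤ θ := by
    rw [hθdef]
    apply Real.exp_le_exp.2
    have h1 : Real.sqrt D ≤ L / 16 := by
      rw [Real.sqrt_le_left (by positivity)]
      calc (D : ℝ) ≤ L ^ 2 / 1000 := hDL
        _ ≤ (L / 16) ^ 2 := by nlinarith [sq_nonneg L]
    linarith
  -- the size parameter
  have hY : Yy w D ≤ Real.exp (3 * L / 4) := Yy_le w D L (by linarith) hLlog hwL hDL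
  have hY1 := Yy_ge_one w hD1
  have hY0 : 0 < Yy w D := by linarith
  have hnk' : (n : ℝ) ≤ (k : ℝ) ^ 2 := by
    rw [hkL]
    calc (n : ℝ) = n * 1 := (mul_one _).symm
      _ ≤ _ := by
          gcongr
          exact Real.one_le_exp (by positivity)
  have hkexp : Real.exp L ≤ k := by
    have h1 : (Real.exp L) ^ 2 ≤ (k : ℝ) ^ 2 := by
      rw [hkL, ← Real.exp_nat_mul]
      calc Real.exp ((2 : ℕ) * L) = 1 * Real.exp (2 * L) := by norm_num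
        _ ≤ n * Real.exp (2 * L) := by
            gcongr
            linarith
    exact le_of_sq_le_sq h1 hk0.le
  have hyk : Yy w D ≤ k := by
    refine hY.trans (le_trans ?_ hkexp)
    apply Real.exp_le_exp.2
    linarith
  have h1 : (n : ℝ) * θ ^ 4 ≤ ((k : ℝ) / Yy w D) ^ 2 := by
    rw [div_pow, le_div_iff₀ (by positivity), hkL]
    have h2 : (Yy w D) ^ 2 ≤ Real.exp (3 * L / 2) := by
      calc (Yy w D) ^ 2 ≤ (Real.exp (3 * L / 4)) ^ 2 := pow_le_pow_left₀ hY0.le hY 2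
        _ = Real.exp (3 * L / 2) := by
            rw [← Real.exp_nat_mul]; congr 1; push_cast; ring
    have h3 : θ ^ 4 = Real.exp (L / 2) := by
      rw [hθdef, ← Real.exp_nat_mul]; congr 1; push_cast; ring
    rw [h3]
    calc (n : ℝ) * Real.exp (L / 2) * (Yy w D) ^ 2
        ≤ (n : ℝ) * Real.exp (L / 2) * Real.exp (3 * L / 2) :=
          mul_le_mul_of_nonneg_left h2 (by positivity)
      _ = n * Real.exp (2 * L) := by
          rw [mul_assoc, ← Real.exp_add]; congr 2; ring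
  have h2 : ((k : ℝ) / Yy w D) ^ 2 ≤ θ ^ (w + 1) := by
    have h3 : (k : ℝ) / Yy w D ≤ k := by
      rw [div_le_iff₀ hY0]
      nlinarith
    have h4 : θ ^ (w + 1) = Real.exp ((w + 1) * (L / 8)) := by
      rw [hθdef, ← Real.exp_nat_mul]; congr 1; push_cast; ring
    rw [h4]
    calc ((k : ℝ) / Yy w D) ^ 2 ≤ (k : ℝ) ^ 2 := pow_le_pow_left₀ (by positivity) h3 2
      _ = Real.exp (s ^ 2) * Real.exp (2 * L) := by rw [hkL, hexpn]
      _ = Real.exp (s ^ 2 + 2 * L) := by rw [Real.exp_add]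
      _ ≤ Real.exp ((w + 1) * (L / 8)) := by
          apply Real.exp_le_exp.2
          have h5 : (8 * s ^ 2 / L + 16) * (L / 8) = s ^ 2 + 2 * L := by
            field_simp
            ring
          have h6 : (8 * s ^ 2 / L + 16) * (L / 8) ≤ (w + 1) * (L / 8) := by
            apply mul_le_mul_of_nonneg_right _ (by positivity)
            linarith
          linarith
  -- the moment condition
  obtain ⟨p, hp⟩ : ∃ p : ℕ, p = (2 * w + 3) * D + 3 := ⟨_, rfl⟩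
  have hpw : 4 * (p : ℝ) * w + 3 ≤ s ^ 6 := pw_le w D p s L hs0 hws hL0 hL2 hDL hp
  have hZ : (Cg w * Nst w (4 * p * w + 2)) ^ 4 ≤ n := by
    rw [← hexpn]
    exact Z_le w p s hs0 hlog hws hpw
  have hs2 : (1000000 : ℝ) ≤ s ^ 2 := by nlinarith
  have hw2s : (w : ℝ) ^ 2 ≤ s ^ 2 / 16 := by
    calc (w : ℝ) ^ 2 ≤ (s / 4) ^ 2 := by gcongr
      _ = s ^ 2 / 16 := by ring
  have hB : (2 : ℝ) ^ (2 * w ^ 2 + 3) ≤ n := by
    refine (two_pow_le_exp _).trans ?_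
    rw [← hexpn]
    apply Real.exp_le_exp.2
    push_cast
    linarith
  have hk : 2 * w ^ 2 ≤ k := by
    have h3 : (2 : ℝ) * (w : ℝ) ^ 2 ≤ k := by
      have h4 : 2 * (w : ℝ) ^ 2 ≤ Real.exp L := by
        have h5 : L ^ 2 / 2 ≤ Real.exp L := by
          have := Real.quadratic_le_exp_of_nonneg hL0.le
          linarith
        have h6 : (w : ℝ) ^ 2 ≤ (L / 256) ^ 2 := by gcongr
        nlinarith [sq_nonneg L]
      linarith
    exact_mod_cast h3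
  have hnk : n ≤ k ^ 2 := by exact_mod_cast hnk'
  have hcore := core (k := k) w hn hk hnk D hD1 p hp θ hθ hyk h1 h2 hZ hB F hF hmean hdeg
  refine hcore.trans ?_
  have hnn : 0 ≤ 𝔼 y, F y ^ 2 := expect_nonneg (fun y _ => sq_nonneg _)
  apply mul_le_mul_of_nonneg_left _ hnn
  have h3 : 162 * (D : ℝ) * (2 * D + 1) / θ ^ 2 ≤ L ^ 4 * Real.exp (-(L / 4)) := by
    have h4 : θ ^ 2 = Real.exp (L / 4) := by
      rw [hθdef, ← Real.exp_nat_mul]; congr 1; push_cast; ring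
    rw [h4, Real.exp_neg, ← div_eq_mul_inv]
    apply div_le_div_of_nonneg_right _ (Real.exp_pos _).le
    calc 162 * (D : ℝ) * (2 * D + 1) ≤ 162 * D * (2 * D + D) := by gcongr
      _ = 486 * (D : ℝ) ^ 2 := by ring
      _ ≤ 486 * (L ^ 2 / 1000) ^ 2 := by gcongr
      _ ≤ L ^ 4 := by nlinarith [sq_nonneg (L ^ 2)]
  linarith

end Pool.Agent.ColorRef
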