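import Pool.Agent.ColorRef.Conn

namespace Pool.Agent.ColorRef

open Finset

variable {n : ℕ}

lemma pure_aux (K : Finset (Fin n)) (L : List (Pair n × Finset (Pair n))) :
    ∀ S : Finset (Pair n), ClosedK S K → (∀ p ∈ L, Blk p.2) → Pure K S L →
    (∀ p ∈ L, ¬ Disjoint K (vset p.2) → p.2 ⊆ S ∧ vset p.2 ⊆ K) ∧
    (∀ e ∈ fin S L, (e.1.1 ∈ K ∨ e.1.2 ∈ K) → e ∈ S) := by
  induction L with
  | nil =>
    intro S _ _ _
    refine ⟨by simp, ?_⟩
    intro e he _
    exact he
  | cons p L ih =>
    intro S hK hL hpure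
    have hpure' : (¬ Disjoint K (vset p.2) → CaseA S p.2) ∧ Pure K (symmDiff S p.2) L := hpure
    have hLL : ∀ q ∈ L, Blk q.2 := fun q hq => hL q (by simp [hq])
    by_cases hd : Disjoint K (vset p.2)
    · have hK' := hK.symmDiff_of_disjoint hd
      have h1 := ih (symmDiff S p.2) hK' hLL hpure'.2
      have hedge : ∀ e ∈ symmDiff S p.2, (e.1.1 ∈ K ∨ e.1.2 ∈ K) → e ∈ S := by
        intro e he hek
        rcases mem_symmDiff.1 he with h | h
        · exact h.1
        · exfalso
          rcases hek with h2 | h2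
          · exact (disjoint_left.1 hd) h2 (fst_mem_vset h.1)
          · exact (disjoint_left.1 hd) h2 (snd_mem_vset h.1)
      refine ⟨?_, ?_⟩
      · intro q hq hqK
        rcases List.mem_cons.1 hq with rfl | hq
        · exact absurd hd hqK
        · obtain ⟨h2, h3⟩ := h1.1 q hq hqK
          refine ⟨?_, h3⟩
          intro e he
          exact hedge e (h2 he) (Or.inl (h3 (fst_mem_vset he)))
      · intro e he hek
        exact hedge e (h1.2 e he hek) hek
    · have hA := hpure'.1 hd
      have hsub : symmDiff S p.2 ⊆ S := by rw [symmDiff_of_subset hA.1]; exact sdiff_subset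
      have h1 := ih (symmDiff S p.2) (hK.mono hsub) hLL hpure'.2
      refine ⟨?_, ?_⟩
      · intro q hq hqK
        rcases List.mem_cons.1 hq with rfl | hq
        · refine ⟨hA.1, ?_⟩
          intro v hv
          rw [not_disjoint_iff] at hqK
          obtain ⟨u, huK, hu⟩ := hqK
          have hc : Conn S u v := ((hL q (by simp)).conn hu hv).mono hA.1
          exact (hK.conn hc).1 huK
        · obtain ⟨h2, h3⟩ := h1.1 q hq hqK
          exact ⟨h2.trans hsub, h3⟩
      · intro e he hek
        exact hsub (h1.2 e he hek)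

lemma pure_block (K : Finset (Fin n)) (B : Finset (Pair n)) (hBK : vset B ⊆ K) (hB : Blk B)
    (L : List (Pair n × Finset (Pair n))) :
    ∀ S : Finset (Pair n), ClosedK S K → (∀ p ∈ L, Blk p.2) → Pure K S L → B ⊆ S →
    (∀ u ∈ vset B, ∀ v ∈ vset B, u ≠ v → ¬ Conn (S \ B) u v) →
    (∀ p ∈ L, ¬ Disjoint K (vset p.2) → p.2 = B ∨ Disjoint p.2 B) ∧
    (B ⊆ fin S L ∨ (Disjoint B (fin S L) ∧ ∃ p ∈ L, p.2 = B)) := by
  induction L with
  | nil =>
    intro S _ _ _ hBS _
    exact ⟨by simp, Or.inl hBS⟩
  | cons p L ih =>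
    intro S hK hL hpure hBS hsep
    have hpure' : (¬ Disjoint K (vset p.2) → CaseA S p.2) ∧ Pure K (symmDiff S p.2) L := hpure
    have hLL : ∀ q ∈ L, Blk q.2 := fun q hq => hL q (by simp [hq])
    by_cases hd : Disjoint K (vset p.2)
    · have hK' := hK.symmDiff_of_disjoint hd
      have hBS' : B ⊆ symmDiff S p.2 := by
        intro e he
        rw [mem_symmDiff]
        refine Or.inl ⟨hBS he, fun h => ?_⟩
        exact (disjoint_left.1 hd) (hBK (fst_mem_vset he)) (fst_mem_vset h)
      have hsep' : ∀ u ∈ vset B, ∀ v ∈ vset B, u ≠ v → ¬ Conn (symmDiff S p.2 \ B) u v := by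
        intro u hu v hv huv hc
        apply hsep u hu v hv huv
        refine Conn.local_mono (fun x => x ∈ K) ?_ ?_ (hBK hu) hc
        · intro e he
          exact hK' e (mem_sdiff.1 he).1
        · intro e he heK
          rw [mem_sdiff] at he ⊢
          refine ⟨?_, he.2⟩
          rcases mem_symmDiff.1 he.1 with h | h
          · exact h.1
          · exact absurd (fst_mem_vset h.1) ((disjoint_left.1 hd) heK)
      have h1 := ih _ hK' hLL hpure'.2 hBS' hsep'
      refine ⟨?_, ?_⟩
      · intro q hq hqK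
        rcases List.mem_cons.1 hq with rfl | hq
        · exact absurd hd hqK
        · exact h1.1 q hq hqK
      · rcases h1.2 with h2 | ⟨h2, q, hq, hqB⟩
        · exact Or.inl h2
        · exact Or.inr ⟨h2, q, by simp [hq], hqB⟩
    · have hA := hpure'.1 hd
      have hS' : symmDiff S p.2 = S \ p.2 := symmDiff_of_subset hA.1
      have hsub : symmDiff S p.2 ⊆ S := by rw [hS']; exact sdiff_subset
      by_cases hdB : Disjoint p.2 B
      · have hBS' : B ⊆ symmDiff S p.2 := by
          rw [hS']
          intro e he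
          rw [mem_sdiff]
          exact ⟨hBS he, fun h => (disjoint_left.1 hdB) h he⟩
        have hsep' : ∀ u ∈ vset B, ∀ v ∈ vset B, u ≠ v → ¬ Conn (symmDiff S p.2 \ B) u v :=
          fun u hu v hv huv hc => hsep u hu v hv huv
            (hc.mono (sdiff_subset_sdiff hsub Subset.rfl))
        have h1 := ih _ (hK.mono hsub) hLL hpure'.2 hBS' hsep'
        refine ⟨?_, ?_⟩
        · intro q hq hqK
          rcases List.mem_cons.1 hq with rfl | hq
          · exact Or.inr hdB
          · exact h1.1 q hq hqK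
        · rcases h1.2 with h2 | ⟨h2, q, hq, hqB⟩
          · exact Or.inl h2
          · exact Or.inr ⟨h2, q, by simp [hq], hqB⟩
      · -- the graph removed at this step is `B`
        have hZne : (B ∩ p.2).Nonempty := by
          rw [not_disjoint_iff] at hdB
          obtain ⟨e, he1, he2⟩ := hdB
          exact ⟨e, mem_inter.2 ⟨he2, he1⟩⟩
        have hsub1 : B ⊆ p.2 := by
          by_contra hcon
          have hZ : B ∩ p.2 ≠ B := fun h => hcon (inter_eq_left.1 h)
          obtain ⟨u, hu, v, hv, huv, hc⟩ := hB.2 (B ∩ p.2) inter_subset_left hZne hZ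
          refine hA.2 u (vset_mono inter_subset_right hu) v (vset_mono inter_subset_right hv) huv
            (hc.mono ?_)
          intro e he
          rw [mem_sdiff, mem_inter] at he
          rw [mem_sdiff]
          exact ⟨hBS he.1, fun h => he.2 ⟨he.1, h⟩⟩
        have hsub2 : p.2 = B := by
          by_contra hcon
          obtain ⟨u, hu, v, hv, huv, hc⟩ := (hL p (by simp)).2 B hsub1 hB.1
            (fun h => hcon h.symm)
          exact hsep u hu v hv huv (hc.mono (sdiff_subset_sdiff hA.1 Subset.rfl))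
        have h1 := pure_aux K L _ (hK.mono hsub) hLL hpure'.2
        have hS'' : symmDiff S p.2 = S \ B := by rw [hS', hsub2]
        refine ⟨?_, ?_⟩
        · intro q hq hqK
          rcases List.mem_cons.1 hq with rfl | hq
          · exact Or.inl hsub2
          · right
            have h2 := (h1.1 q hq hqK).1
            rw [hS''] at h2
            rw [disjoint_left]
            intro e he heB
            exact (mem_sdiff.1 (h2 he)).2 heB
        · right
          refine ⟨?_, p, by simp, hsub2⟩
          rw [disjoint_left]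
          intro e heB hef
          have h3 := h1.2 e hef (Or.inl (hBK (fst_mem_vset heB)))
          rw [hS''] at h3
          exact (mem_sdiff.1 h3).2 heB

/-- Every connected component of a graph contains a block. -/
lemma exists_block (S : Finset (Pair n)) {e0 : Pair n} (he0 : e0 ∈ S) :
    ∃ B ⊆ S, Blk B ∧ (∀ u ∈ vset B, Conn S e0.1.1 u) ∧
      ∀ u ∈ vset B, ∀ v ∈ vset B, u ≠ v → ¬ Conn (S \ B) u v := by
  classical
  set Sa := S.filter (fun f => Conn S e0.1.1 f.1.1) with hSa
  set F : Finset (Finset (Pair n)) := Sa.powerset.filter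
    (fun Z => Z.Nonempty ∧ ∀ u ∈ vset Z, ∀ v ∈ vset Z, u ≠ v → ¬ Conn (S \ Z) u v) with hF
  have hSaF : Sa ∈ F := by
    rw [hF, mem_filter, mem_powerset]
    refine ⟨Subset.rfl, ⟨e0, by simp [hSa, he0, Conn.refl]⟩, ?_⟩
    intro u hu v hv huv hc
    have hu1 : Conn S e0.1.1 u := by
      obtain ⟨f, hf, h1 | h1⟩ := mem_vset.1 hu
      · rw [h1]; exact (mem_filter.1 hf).2
      · rw [h1]; exact ((mem_filter.1 hf).2).trans (Conn.of_mem (mem_filter.1 hf).1)
    have hu2 : u ∉ vset (S \ Sa) := by
      intro h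
      obtain ⟨f, hf, h1⟩ := mem_vset.1 h
      obtain ⟨hfS, hfn⟩ := mem_sdiff.1 hf
      apply hfn
      rw [hSa, mem_filter]
      refine ⟨hfS, ?_⟩
      rcases h1 with h1 | h1
      · rw [← h1]; exact hu1
      · exact (h1 ▸ hu1).trans (Conn.of_mem hfS).symm
    exact huv (Conn.eq_of_notMem hu2 hc)
  obtain ⟨B, hBF, hBmin⟩ := exists_min_image F card ⟨Sa, hSaF⟩
  rw [hF, mem_filter, mem_powerset] at hBF
  obtain ⟨hBSa, hBne, hBsep⟩ := hBF
  have hBS : B ⊆ S := hBSa.trans (filter_subset _ _)
  refine ⟨B, hBS, ⟨hBne, ?_⟩, ?_, hBsep⟩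
  · intro Z hZB hZne hZB'
    by_contra hcon
    push Not at hcon
    have hZF : Z ∈ F := by
      rw [hF, mem_filter, mem_powerset]
      refine ⟨hZB.trans hBSa, hZne, ?_⟩
      intro u hu v hv huv hc
      apply hcon u hu v hv huv
      -- transfer the connection
      have huB := vset_mono hZB hu
      have hvB := vset_mono hZB hv
      have key := Conn.ind (G := S \ Z)
        (fun x y => (∀ b ∈ vset B, Conn (S \ B) x b →
            ∃ c ∈ vset B, Conn (S \ B) y c ∧ Conn (B \ Z) b c) ∧
          (∀ b ∈ vset B, Conn (S \ B) y b →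
            ∃ c ∈ vset B, Conn (S \ B) x c ∧ Conn (B \ Z) b c))
        ⟨fun x => ⟨fun b hb h => ⟨b, hb, h, Conn.refl _ _⟩, fun b hb h => ⟨b, hb, h, Conn.refl _ _⟩⟩,
         fun {x y} h => ⟨h.2, h.1⟩,
         fun {x y z} h1 h2 => ⟨fun b hb h => by
            obtain ⟨c, hc, h3, h4⟩ := h1.1 b hb h
            obtain ⟨d, hd, h5, h6⟩ := h2.1 c hc h3
            exact ⟨d, hd, h5, h4.trans h6⟩, fun b hb h => by
            obtain ⟨c, hc, h3, h4⟩ := h2.2 b hb h
            obtain ⟨d, hd, h5, h6⟩ := h1.2 c hc h3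
            exact ⟨d, hd, h5, h4.trans h6⟩⟩⟩
        (by
          intro e he
          rw [mem_sdiff] at he
          by_cases heB : e ∈ B
          · have h1 := fst_mem_vset heB
            have h2 := snd_mem_vset heB
            have h3 : Conn (B \ Z) e.1.1 e.1.2 := Conn.of_mem (mem_sdiff.2 ⟨heB, he.2⟩)
            refine ⟨fun b hb h => ?_, fun b hb h => ?_⟩
            · have hbe : e.1.1 = b := by
                by_contra hne
                exact hBsep _ h1 _ hb hne h
              exact ⟨e.1.2, h2, Conn.refl _ _, hbe ▸ h3⟩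
            · have hbe : e.1.2 = b := by
                by_contra hne
                exact hBsep _ h2 _ hb hne h
              exact ⟨e.1.1, h1, Conn.refl _ _, hbe ▸ h3.symm⟩
          · have h3 : Conn (S \ B) e.1.1 e.1.2 := Conn.of_mem (mem_sdiff.2 ⟨he.1, heB⟩)
            exact ⟨fun b hb h => ⟨b, hb, h3.symm.trans h, Conn.refl _ _⟩,
              fun b hb h => ⟨b, hb, h3.trans h, Conn.refl _ _⟩⟩) hc
      obtain ⟨c, hcB, h1, h2⟩ := key.1 u huB (Conn.refl _ _)
      have hvc : v = c := by
        by_contra hne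
        exact hBsep _ hvB _ hcB hne h1
      rw [hvc]; exact h2
    have h1 := hBmin Z hZF
    have h2 : Z.card < B.card := card_lt_card (Finset.ssubset_iff_subset_ne.2 ⟨hZB, hZB'⟩)
    omega
  · intro u hu
    obtain ⟨f, hf, h1 | h1⟩ := mem_vset.1 hu
    · rw [h1]; exact (mem_filter.1 (hBSa hf)).2
    · rw [h1]
      exact ((mem_filter.1 (hBSa hf)).2).trans (Conn.of_mem (hBS hf))

end Pool.Agent.ColorRef
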