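import Pool.Agent.ColorRef.Clean

namespace Pool.Agent.ColorRef

open Finset BigOperators
open scoped Classical

set_option linter.unusedSectionVars false

variable {n : ℕ} {k : ℕ} [NeZero k] (w : ℕ)

/-- The nontrivial connectivity classes of `S`. -/
noncomputable def ccl (S : Finset (Pair n)) : Finset (Finset (Fin n)) := (vset S).image (cls S)

/-- The nontrivial connectivity classes of `S` with more than `w` vertices. -/
noncomputable def lcl (S : Finset (Pair n)) : Finset (Finset (Fin n)) :=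
  (ccl S).filter (fun K => w < K.card)

lemma closedK_cls (S : Finset (Pair n)) (v : Fin n) : ClosedK S (cls S v) := by
  intro e he
  rw [mem_cls, mem_cls]
  exact ⟨fun h => h.trans (Conn.of_mem he), fun h => h.trans (Conn.of_mem he).symm⟩

lemma ccl_subset {S : Finset (Pair n)} {K : Finset (Fin n)} (hK : K ∈ ccl S) : K ⊆ vset S := by
  obtain ⟨v, hv, rfl⟩ := mem_image.1 hK
  intro u hu
  by_contra hne
  have := Conn.eq_of_notMem hne (mem_cls.1 hu).symm
  exact hne (this ▸ hv)

lemma ccl_closed {S : Finset (Pair n)} {K : Finset (Fin n)} (hK : K ∈ ccl S) : ClosedK S K := by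
  obtain ⟨v, hv, rfl⟩ := mem_image.1 hK
  exact closedK_cls S v

lemma ccl_disjoint {S : Finset (Pair n)} {K K' : Finset (Fin n)} (hK : K ∈ ccl S)
    (hK' : K' ∈ ccl S) (hne : K ≠ K') : Disjoint K K' := by
  obtain ⟨v, hv, rfl⟩ := mem_image.1 hK
  obtain ⟨v', hv', rfl⟩ := mem_image.1 hK'
  rw [disjoint_left]
  intro u hu hu'
  apply hne
  exact cls_eq_iff.2 ((mem_cls.1 hu).trans (mem_cls.1 hu').symm)

lemma card_lcl_mul_le (S : Finset (Pair n)) : (lcl w S).card * (w + 1) ≤ (vset S).card := by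
  have h1 : ((lcl w S).biUnion id) ⊆ vset S := by
    intro v hv
    obtain ⟨K, hK, hv⟩ := mem_biUnion.1 hv
    exact ccl_subset (mem_filter.1 hK).1 hv
  have h2 : ((lcl w S).biUnion id).card = ∑ K ∈ lcl w S, K.card := by
    apply card_biUnion
    intro K hK K' hK' hne
    exact ccl_disjoint (mem_filter.1 hK).1 (mem_filter.1 hK').1 hne
  calc (lcl w S).card * (w + 1) = ∑ K ∈ lcl w S, (w + 1) := by rw [sum_const, smul_eq_mul]
    _ ≤ ∑ K ∈ lcl w S, K.card := sum_le_sum (fun K hK => (mem_filter.1 hK).2)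
    _ = ((lcl w S).biUnion id).card := h2.symm
    _ ≤ (vset S).card := card_le_card h1

lemma exists_block_class {S : Finset (Pair n)} {K : Finset (Fin n)} (hK : K ∈ ccl S) :
    ∃ B ⊆ S, Blk B ∧ vset B ⊆ K ∧
      ∀ u ∈ vset B, ∀ v ∈ vset B, u ≠ v → ¬ Conn (S \ B) u v := by
  obtain ⟨v, hv, rfl⟩ := mem_image.1 hK
  obtain ⟨e, he, h1⟩ := mem_vset.1 hv
  obtain ⟨B, hBS, hB, h2, h3⟩ := exists_block S he
  refine ⟨B, hBS, hB, ?_, h3⟩
  intro u hu
  rw [mem_cls]
  have hve : Conn S v e.1.1 := by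
    rcases h1 with h1 | h1
    · rw [h1]; exact Conn.refl _ _
    · rw [h1]; exact (Conn.of_mem he).symm
  exact hve.trans (h2 u hu)

/-- The vertices used by the gadgets of a configuration outside `S`. -/
noncomputable def Iset (S : Finset (Pair n)) (φ : Pair n → St n) : Finset (Fin n) :=
  lvset (Lst S φ) \ vset S

lemma mem_lvset {L : List (Pair n × Finset (Pair n))} {v : Fin n} :
    v ∈ lvset L ↔ ∃ p ∈ L, v ∈ vset p.2 := by
  induction L with
  | nil => simp [lvset]
  | cons p L ih =>
    simp only [lvset, mem_union, ih, List.mem_cons]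
    constructor
    · rintro (h | ⟨q, hq, hv⟩)
      · exact ⟨p, Or.inl rfl, h⟩
      · exact ⟨q, Or.inr hq, hv⟩
    · rintro ⟨q, rfl | hq, hv⟩
      · exact Or.inl hv
      · exact Or.inr ⟨q, hq, hv⟩

lemma mem_Lst {S : Finset (Pair n)} {φ : Pair n → St n} {p : Pair n × Finset (Pair n)} :
    p ∈ Lst S φ ↔ ∃ e ∈ Tset S φ, (e, hs (φ e)) = p := by
  simp [Lst]

lemma Valid.list_blk {S : Finset (Pair n)} {φ : Pair n → St n} (h : Valid w S φ) :
    ∀ p ∈ Lst S φ, Blk p.2 ∧ p.1 ∈ p.2 ∧ p.1 ∈ S := by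
  intro p hp
  obtain ⟨e, he, rfl⟩ := mem_Lst.1 hp
  have h1 := h.gadm e he
  exact ⟨(mem_gad.1 h1.1).1, h1.2, (mem_filter.1 he).1⟩

lemma Valid.list_pairwise {S : Finset (Pair n)} {φ : Pair n → St n} (h : Valid w S φ) :
    (Lst S φ).Pairwise (fun p q => q.1 ∉ p.2) := by
  rw [Lst, List.pairwise_map]
  have hnd : (Tset S φ).toList.Nodup := nodup_toList _
  have h2 : ∀ a ∈ (Tset S φ).toList, ∀ b ∈ (Tset S φ).toList, a ≠ b → b ∉ hs (φ a) := by
    intro a ha b hb hab
    exact h.sep b (mem_toList.1 hb) a (mem_toList.1 ha) (Ne.symm hab)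
  exact List.Pairwise.imp_of_mem (fun {a b} ha hb hab => h2 a ha b hb hab) hnd

/-- A valid configuration that never touches the class `K` except by removing blocks is clean
at every block inside `K`. -/
lemma Valid.clean_of_pure {S : Finset (Pair n)} {φ : Pair n → St n} (h : Valid w S φ)
    {K : Finset (Fin n)} (hK : K ∈ ccl S) {B : Finset (Pair n)} (hBS : B ⊆ S) (hB : Blk B)
    (hBK : vset B ⊆ K)
    (hsep : ∀ u ∈ vset B, ∀ v ∈ vset B, u ≠ v → ¬ Conn (S \ B) u v)
    (hpure : Pure K S (Lst S φ)) : Clean S φ B := by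
  have hblk : ∀ p ∈ Lst S φ, Blk p.2 := fun p hp => (h.list_blk w p hp).1
  obtain ⟨h1, h2⟩ := pure_aux K (Lst S φ) S (ccl_closed hK) hblk hpure
  obtain ⟨h3, h4⟩ := pure_block K B hBK hB (Lst S φ) S (ccl_closed hK) hblk hpure hBS hsep
  rw [h.fin_eq] at h4
  -- response edges outside `B` use gadgets disjoint from `B`
  refine ⟨?_, ?_⟩
  · rcases h4 with h4 | ⟨h4, p, hp, hpB⟩
    · exact Or.inl (fun e he => (mem_filter.1 (h4 he)).2)
    · right
      obtain ⟨e, he, rfl⟩ := mem_Lst.1 hp
      simp only at hpB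
      have heB : e ∈ B := by rw [← hpB]; exact (h.gadm e he).2
      obtain ⟨heS, H, hH⟩ := mem_filter.1 he
      have hHB : H = B := by rw [hH] at hpB; exact hpB
      refine ⟨e, heB, by rw [hH, hHB], ?_⟩
      intro f hf hfe
      rcases hφ : φ f with _ | _ | H'
      · exfalso
        have : f ∈ Mset S φ := mem_filter.2 ⟨hBS hf, hφ⟩
        exact (disjoint_left.1 h4) hf this
      · rfl
      · exfalso
        have hfT : f ∈ Tset S φ := mem_filter.2 ⟨hBS hf, H', hφ⟩
        have := h.sep f hfT e he hfe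
        rw [hpB] at this
        exact this hf
  · -- separation
    intro u hu v hv huv hc
    apply hsep u hu v hv huv
    have hG : ∀ e ∈ Gset S φ B, (e.1.1 ∈ K ∨ e.1.2 ∈ K) → e ∈ S \ B := by
      intro e he heK
      rw [Gset, mem_union, mem_biUnion] at he
      rcases he with he | ⟨f, hf, he⟩
      · exact he
      · obtain ⟨hfS, hfB⟩ := mem_sdiff.1 hf
        rcases hφ : φ f with _ | _ | H
        · rw [hφ] at he; simp [hs] at he
        · rw [hφ] at he; simp [hs] at he
        · have hfT : f ∈ Tset S φ := mem_filter.2 ⟨hfS, H, hφ⟩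
          have hp : (f, hs (φ f)) ∈ Lst S φ := mem_Lst.2 ⟨f, hfT, rfl⟩
          have hnd : ¬ Disjoint K (vset (hs (φ f))) := by
            rw [not_disjoint_iff]
            rcases heK with h5 | h5
            · exact ⟨_, h5, fst_mem_vset he⟩
            · exact ⟨_, h5, snd_mem_vset he⟩
          have h6 := (h1 _ hp hnd).1
          have h7 := h3 _ hp hnd
          rcases h7 with h7 | h7
          · exfalso
            apply hfB
            rw [← h7]
            exact (h.gadm f hfT).2
          · rw [mem_sdiff]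
            exact ⟨h6 he, (disjoint_left.1 h7) he⟩
    refine Conn.local_mono (fun x => x ∈ K) ?_ ?_ (hBK hu) hc
    · intro e he
      constructor
      · intro h5
        exact (ccl_closed hK e (mem_sdiff.1 (hG e he (Or.inl h5))).1).1 h5
      · intro h5
        exact (ccl_closed hK e (mem_sdiff.1 (hG e he (Or.inr h5))).1).2 h5
    · intro e he h5
      exact hG e he (Or.inl h5)

/-- Exponent inequality for valid configurations which are not pure at small classes. -/
lemma Valid.exponent {S : Finset (Pair n)} {φ : Pair n → St n} (h : Valid w S φ)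
    (hnp : ∀ K ∈ ccl S, K.card ≤ w → ¬ Pure K S (Lst S φ)) :
    ncl (Mset S φ) univ + 2 * (Iset S φ).card + (Tset S φ).card + (vset S).card ≤
      n + (lcl w S).card + ∑ e ∈ Tset S φ, (vset (hs (φ e))).card := by
  have h1 := peel_ineq (Lst S φ) S (vset S) (ccl S) Subset.rfl (h.list_blk w)
    (h.list_pairwise w) (fun K hK => ⟨ccl_subset hK, ccl_closed hK⟩)
    (fun K hK K' hK' hne => ccl_disjoint hK hK' hne)
  rw [h.fin_eq] at h1
  have h2 := ncl_univ_le S
  have h3 : (ccl S).card ≤ ((ccl S).filter (fun K => ¬ Pure K S (Lst S φ))).card +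
      (lcl w S).card := by
    have : ccl S ⊆ ((ccl S).filter (fun K => ¬ Pure K S (Lst S φ))) ∪ lcl w S := by
      intro K hK
      rw [mem_union, mem_filter, lcl, mem_filter]
      by_cases hc : w < K.card
      · exact Or.inr ⟨hK, hc⟩
      · exact Or.inl ⟨hK, hnp K hK (not_lt.1 hc)⟩
    exact (card_le_card this).trans (card_union_le _ _)
  have h4 : (Lst S φ).length = (Tset S φ).card := by simp [Lst]
  have h5 : ((Lst S φ).map (fun p => (vset p.2).card)).sum =
      ∑ e ∈ Tset S φ, (vset (hs (φ e))).card := by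
    rw [Lst, List.map_map]
    exact sum_map_toList (Tset S φ) (fun e => (vset (hs (φ e))).card)
  have h6 : ncl S (vset S) = (ccl S).card := rfl
  rw [h4, h5] at h1
  unfold Iset
  omega

end Pool.Agent.ColorRef
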