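import Pool.Agent.ColorRef.Coef

namespace Pool.Agent.ColorRef

open Finset BigOperators
open scoped Classical

set_option linter.unusedSectionVars false

variable {n : ℕ} {k : ℕ} [NeZero k] (w : ℕ)

/-- An independence statement: `Psi` only depends on the colours of `B` and on `R ∩ B`, while `I`
is invariant under colour shifts that are constant on the classes of `G` and does not depend on
`R ∩ B`; the vertices of `B` lie in distinct classes of `G`. -/
lemma indep (B G : Finset (Pair n))
    (Psi I : (Fin n → ZMod k) → Finset (Pair n) → ℝ)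
    (hsep : ∀ u ∈ vset B, ∀ v ∈ vset B, u ≠ v → ¬ Conn G u v)
    (hI1 : ∀ (σ t : Fin n → ZMod k) (R : Finset (Pair n)),
      (∀ e ∈ G, t e.1.1 = t e.1.2) → I (σ + t) R = I σ R)
    (hI2 : ∀ (σ : Fin n → ZMod k) (R R' : Finset (Pair n)), R \ B = R' \ B → I σ R = I σ R')
    (hP1 : ∀ (σ σ' : Fin n → ZMod k) (R : Finset (Pair n)),
      (∀ v ∈ vset B, σ v = σ' v) → Psi σ R = Psi σ' R)
    (hP2 : ∀ (σ : Fin n → ZMod k) (R R' : Finset (Pair n)), R ∩ B = R' ∩ B → Psi σ R = Psi σ R') :
    𝔼 σ : Fin n → ZMod k, 𝔼 R : Finset (Pair n), Psi σ R * I σ R =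
    (𝔼 σ : Fin n → ZMod k, 𝔼 R : Finset (Pair n), Psi σ R) *
    (𝔼 σ : Fin n → ZMod k, 𝔼 R : Finset (Pair n), I σ R) := by
  let tt : (Fin n → ZMod k) → (Fin n → ZMod k) := fun τ v =>
    ∑ b ∈ vset B, if Conn G b v then τ b else 0
  have ht1 : ∀ τ, ∀ e ∈ G, tt τ e.1.1 = tt τ e.1.2 := by
    intro τ e he
    apply sum_congr rfl
    intro b _
    have : Conn G b e.1.1 ↔ Conn G b e.1.2 :=
      ⟨fun h => h.trans (Conn.of_mem he), fun h => h.trans (Conn.of_mem he).symm⟩
    simp only [this]
  have ht2 : ∀ τ, ∀ b ∈ vset B, tt τ b = τ b := by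
    intro τ b hb
    show ∑ b' ∈ vset B, (if Conn G b' b then τ b' else 0) = τ b
    rw [sum_eq_single b]
    · simp [Conn.refl]
    · intro b' hb' hne
      rw [if_neg (hsep b' hb' b hb hne)]
    · intro h; exact absurd hb h
  -- shift identity
  have hshift : ∀ (τ : Fin n → ZMod k) (R' : Finset (Pair n)),
      𝔼 σ : Fin n → ZMod k, 𝔼 R : Finset (Pair n), Psi σ R * I σ R =
      𝔼 σ : Fin n → ZMod k, 𝔼 R : Finset (Pair n), Psi (σ + τ) (symmDiff R R') * I σ R := by
    intro τ R'
    rw [← Fintype.expect_equiv (Equiv.addRight (tt τ))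
      (fun σ => 𝔼 R : Finset (Pair n), Psi (σ + tt τ) R * I (σ + tt τ) R)
      (fun σ => 𝔼 R : Finset (Pair n), Psi σ R * I σ R) (fun σ => rfl)]
    apply expect_congr rfl
    intro σ _
    rw [← Fintype.expect_bijective (fun R : Finset (Pair n) => symmDiff R (R' ∩ B))
      (symmDiff_left_involutive (R' ∩ B)).bijective
      (fun R => Psi (σ + tt τ) (symmDiff R (R' ∩ B)) * I (σ + tt τ) (symmDiff R (R' ∩ B)))
      (fun R => Psi (σ + tt τ) R * I (σ + tt τ) R)
      (fun R => rfl)]
    apply expect_congr rfl
    intro R _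
    have h1 : Psi (σ + tt τ) (symmDiff R (R' ∩ B)) = Psi (σ + τ) (symmDiff R R') := by
      rw [hP1 (σ + tt τ) (σ + τ) _ (fun v hv => by simp [ht2 τ v hv])]
      apply hP2
      ext e
      simp only [mem_inter, mem_symmDiff]
      tauto
    have h2 : I (σ + tt τ) (symmDiff R (R' ∩ B)) = I σ R := by
      rw [hI1 σ (tt τ) _ (ht1 τ)]
      apply hI2
      ext e
      simp only [mem_inter, mem_symmDiff, mem_sdiff]
      tauto
    rw [h1, h2]
  calc 𝔼 σ : Fin n → ZMod k, 𝔼 R : Finset (Pair n), Psi σ R * I σ R
      = 𝔼 τ : Fin n → ZMod k, 𝔼 R' : Finset (Pair n), 𝔼 σ : Fin n → ZMod k,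
          𝔼 R : Finset (Pair n), Psi (σ + τ) (symmDiff R R') * I σ R := by
        simp only [← hshift]
        rw [expect_const univ_nonempty, expect_const univ_nonempty]
    _ = 𝔼 τ : Fin n → ZMod k, 𝔼 σ : Fin n → ZMod k, 𝔼 R : Finset (Pair n),
          𝔼 R' : Finset (Pair n), Psi (σ + τ) (symmDiff R R') * I σ R := by
        apply expect_congr rfl
        intro τ _
        rw [expect_comm]
        apply expect_congr rfl
        intro σ _
        rw [expect_comm]
    _ = 𝔼 σ : Fin n → ZMod k, 𝔼 R : Finset (Pair n), 𝔼 τ : Fin n → ZMod k,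
          𝔼 R' : Finset (Pair n), Psi (σ + τ) (symmDiff R R') * I σ R := by
        rw [expect_comm]
        apply expect_congr rfl
        intro σ _
        rw [expect_comm]
    _ = 𝔼 σ : Fin n → ZMod k, 𝔼 R : Finset (Pair n),
          (𝔼 τ : Fin n → ZMod k, 𝔼 R' : Finset (Pair n), Psi τ R') * I σ R := by
        apply expect_congr rfl
        intro σ _
        apply expect_congr rfl
        intro R _
        simp only [← expect_mul]
        congr 1
        rw [← Fintype.expect_equiv (Equiv.addLeft σ)
          (fun τ => 𝔼 R' : Finset (Pair n), Psi (σ + τ) R')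
          (fun τ => 𝔼 R' : Finset (Pair n), Psi τ R') (fun σ => rfl)]
        apply expect_congr rfl
        intro τ _
        exact Fintype.expect_bijective (fun R' : Finset (Pair n) => symmDiff R R')
          (symmDiff_right_involutive R).bijective _ _ (fun R' => rfl)
    _ = _ := by
        simp only [← mul_expect]

/-- Auxiliary graph outside the block `B`. -/
noncomputable def Gset (S : Finset (Pair n)) (φ : Pair n → St n) (B : Finset (Pair n)) :
    Finset (Pair n) := (S \ B) ∪ (S \ B).biUnion (fun f => hs (φ f))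

/-- The block `B` is entirely monochromatic or covers itself. -/
def GoodSt (φ : Pair n → St n) (B : Finset (Pair n)) : Prop :=
  (∀ e ∈ B, φ e = none) ∨
    (∃ e ∈ B, φ e = some (some B) ∧ ∀ f ∈ B, f ≠ e → φ f = some none)

/-- The vertices of `B` are separated by the rest of the configuration. -/
def SepB (S : Finset (Pair n)) (φ : Pair n → St n) (B : Finset (Pair n)) : Prop :=
  ∀ u ∈ vset B, ∀ v ∈ vset B, u ≠ v → ¬ Conn (Gset S φ B) u v

/-- The configuration is clean at `B`. -/
def Clean (S : Finset (Pair n)) (φ : Pair n → St n) (B : Finset (Pair n)) : Prop :=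
  GoodSt φ B ∧ SepB S φ B

/-- Put all edges of `B` in the state `none`. -/
noncomputable def resetB (B : Finset (Pair n)) (φ : Pair n → St n) : Pair n → St n :=
  fun f => if f ∈ B then none else φ f

/-- Put the edges of `B` in the good state with index `o`. -/
noncomputable def sttB (B : Finset (Pair n)) (φ : Pair n → St n) (o : Option (Pair n)) :
    Pair n → St n :=
  fun f => if f ∈ B then (match o with
    | none => none
    | some e => if f = e then some (some B) else some none) else φ f

lemma sttB_of_notMem {B : Finset (Pair n)} {φ : Pair n → St n} {o : Option (Pair n)}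
    {f : Pair n} (hf : f ∉ B) : sttB B φ o f = φ f := by simp [sttB, hf]

lemma sttB_none {B : Finset (Pair n)} {φ : Pair n → St n} {f : Pair n} (hf : f ∈ B) :
    sttB B φ none f = none := by simp [sttB, hf]

lemma sttB_some_self {B : Finset (Pair n)} {φ : Pair n → St n} {e : Pair n} (he : e ∈ B) :
    sttB B φ (some e) e = some (some B) := by simp [sttB, he]

lemma sttB_some_ne {B : Finset (Pair n)} {φ : Pair n → St n} {e f : Pair n} (hf : f ∈ B)
    (hne : f ≠ e) : sttB B φ (some e) f = some none := by simp [sttB, hf, hne]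

lemma hs_subset_Gset {S : Finset (Pair n)} {φ : Pair n → St n} {B : Finset (Pair n)}
    {f : Pair n} (hf : f ∈ S \ B) : hs (φ f) ⊆ Gset S φ B := by
  intro e he
  rw [Gset, mem_union, mem_biUnion]
  exact Or.inr ⟨f, hf, he⟩

lemma SepB.disjoint {S : Finset (Pair n)} {φ : Pair n → St n} {B : Finset (Pair n)}
    (h : SepB S φ B) {f : Pair n} (hf : f ∈ S \ B) : Disjoint (hs (φ f)) B := by
  rw [disjoint_left]
  intro e he heB
  exact h _ (fst_mem_vset heB) _ (snd_mem_vset heB) (ne_of_lt e.2)
    (Conn.of_mem (hs_subset_Gset hf he))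

variable (k) in
/-- Coefficient of a good state of `B`. -/
noncomputable def psiC (B : Finset (Pair n)) : Option (Pair n) → ℝ
  | none => (-1) ^ B.card
  | some _ => gco k B

/-- Indicator of a good state of `B`. -/
noncomputable def psiI (B : Finset (Pair n)) (σ : Fin n → ZMod k) (R : Finset (Pair n)) :
    Option (Pair n) → ℝ
  | none => if (∀ e ∈ B, Mono σ e) then 1 else 0
  | some e => if (Rain σ B ∧ B ∩ R = {e}) then 1 else 0

lemma sum_stt_eq_zero {S B : Finset (Pair n)} {φ : Pair n → St n} (hBS : B ⊆ S)
    (hB : B ∈ gad n w) (hk : 2 * w ^ 2 ≤ k) (hsep : SepB S φ B) :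
    ∑ o ∈ insertNone B, wt k w S (sttB B φ o) = 0 := by
  -- splitting products
  have hsplit : ∀ (f : Pair n → ℝ), ∏ e ∈ S, f e = (∏ e ∈ B, f e) * ∏ e ∈ S \ B, f e := by
    intro f
    rw [mul_comm, prod_sdiff hBS]
  have hrest : ∀ (F : Pair n → St n → ℝ) (o : Option (Pair n)),
      ∏ e ∈ S \ B, F e (sttB B φ o e) = ∏ e ∈ S \ B, F e (φ e) := by
    intro F o
    apply prod_congr rfl
    intro e he
    rw [sttB_of_notMem (mem_sdiff.1 he).2]
  -- character part
  have hch : ∀ o ∈ insertNone B, ∀ x : Pair n → Bool,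
      ∏ e ∈ B, ch x e (sttB B φ o e) = 1 := by
    intro o ho x
    rcases o with _ | e
    · apply prod_eq_one
      intro e he
      rw [sttB_none he]; simp [ch]
    · have he : e ∈ B := by simpa using ho
      rw [← mul_prod_erase B _ he, sttB_some_self he]
      have : ∏ f ∈ B.erase e, ch x f (sttB B φ (some e) f) = chi (B.erase e) x := by
        rw [chi]
        apply prod_congr rfl
        intro f hf
        rw [sttB_some_ne (mem_of_mem_erase hf) (ne_of_mem_erase hf)]
        simp [ch]
      rw [this]
      simp only [ch]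
      exact chi_mul_self _ _
  -- coefficient part
  have hco : ∀ o ∈ insertNone B, ∏ e ∈ B, co k (sttB B φ o e) = psiC k B o := by
    intro o ho
    rcases o with _ | e
    · rw [prod_congr rfl (fun e he => by rw [sttB_none he])]
      simp [co, psiC]
    · have he : e ∈ B := by simpa using ho
      rw [← mul_prod_erase B _ he, sttB_some_self he]
      have : ∏ f ∈ B.erase e, co k (sttB B φ (some e) f) = 1 := by
        apply prod_eq_one
        intro f hf
        rw [sttB_some_ne (mem_of_mem_erase hf) (ne_of_mem_erase hf)]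
        simp [co]
      rw [this, mul_one]
      simp [co, psiC]
  -- indicator part
  have hind : ∀ o ∈ insertNone B, ∀ (σ : Fin n → ZMod k) (R : Finset (Pair n)),
      ∏ e ∈ B, ind w σ R e (sttB B φ o e) = psiI B σ R o := by
    intro o ho σ R
    rcases o with _ | e
    · rw [prod_congr rfl (fun e he => by rw [sttB_none he])]
      simp only [ind, psiI]
      split_ifs with h
      · exact prod_eq_one (fun e he => by rw [if_pos (h e he)])
      · push Not at h
        obtain ⟨e, he, hne⟩ := h
        exact prod_eq_zero he (by rw [if_neg hne])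
    · have he : e ∈ B := by simpa using ho
      rw [← mul_prod_erase B _ he, sttB_some_self he]
      have hself : ind w σ R e (some (some B)) =
          if (B ∈ gad n w ∧ e ∈ B ∧ B ∩ R = {e} ∧ Rain σ B) then 1 else 0 := rfl
      rw [hself, psiI]
      by_cases h : Rain σ B ∧ B ∩ R = {e}
      · have h1 : ∏ f ∈ B.erase e, ind w σ R f (sttB B φ (some e) f) = 1 := by
          apply prod_eq_one
          intro f hf
          rw [sttB_some_ne (mem_of_mem_erase hf) (ne_of_mem_erase hf)]
          simp only [ind]
          rw [if_pos]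
          refine ⟨h.1.not_mono (mem_of_mem_erase hf), fun hfR => ?_⟩
          have : f ∈ B ∩ R := mem_inter.2 ⟨mem_of_mem_erase hf, hfR⟩
          rw [h.2, mem_singleton] at this
          exact ne_of_mem_erase hf this
        rw [h1, if_pos h, if_pos ⟨hB, he, h.2, h.1⟩, mul_one]
      · rw [if_neg h, if_neg (fun h' => h ⟨h'.2.2.2, h'.2.2.1⟩), zero_mul]
  set Crest := ∏ e ∈ S \ B, co k (φ e) with hCrest
  set Xrest := 𝔼 x : Pair n → Bool, ∏ e ∈ S \ B, ch x e (φ e) with hXrest
  let I : (Fin n → ZMod k) → Finset (Pair n) → ℝ := fun σ R => ∏ e ∈ S \ B, ind w σ R e (φ e)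
  let psi : Option (Pair n) → (Fin n → ZMod k) → Finset (Pair n) → ℝ := fun o σ R =>
    psiC k B o * psiI B σ R o
  let Psi : (Fin n → ZMod k) → Finset (Pair n) → ℝ := fun σ R => ∑ o ∈ insertNone B, psi o σ R
  have hwt : ∀ o ∈ insertNone B, wt k w S (sttB B φ o) =
      Crest * Xrest * 𝔼 σ : Fin n → ZMod k, 𝔼 R : Finset (Pair n), psi o σ R * I σ R := by
    intro o ho
    rw [wt]
    simp only [hsplit]
    rw [hco o ho]
    have h1 : (𝔼 x : Pair n → Bool, (∏ e ∈ B, ch x e (sttB B φ o e)) *
        ∏ e ∈ S \ B, ch x e (sttB B φ o e)) = Xrest := by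
      apply expect_congr rfl
      intro x _
      rw [hch o ho x, one_mul, hrest (fun e st => ch x e st) o]
    have h2 : (𝔼 σ : Fin n → ZMod k, 𝔼 R : Finset (Pair n),
        (∏ e ∈ B, ind w σ R e (sttB B φ o e)) * ∏ e ∈ S \ B, ind w σ R e (sttB B φ o e)) =
        𝔼 σ : Fin n → ZMod k, 𝔼 R : Finset (Pair n), psiI B σ R o * I σ R := by
      apply expect_congr rfl
      intro σ _
      apply expect_congr rfl
      intro R _
      rw [hind o ho σ R, hrest (fun e st => ind w σ R e st) o]
    have h3 : ∏ e ∈ S \ B, co k (sttB B φ o e) = Crest := hrest (fun _ st => co k st) o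
    rw [h1, h2, h3]
    have h4 : (𝔼 σ : Fin n → ZMod k, 𝔼 R : Finset (Pair n), psi o σ R * I σ R) =
        psiC k B o *
        𝔼 σ : Fin n → ZMod k, 𝔼 R : Finset (Pair n), psiI B σ R o * I σ R := by
      rw [mul_expect]
      apply expect_congr rfl
      intro σ _
      rw [mul_expect]
      apply expect_congr rfl
      intro R _
      simp only [psi]
      ring
    rw [h4]
    ring
  rw [sum_congr rfl hwt, ← mul_sum]
  have hsum : ∑ o ∈ insertNone B, 𝔼 σ : Fin n → ZMod k, 𝔼 R : Finset (Pair n),
      psi o σ R * I σ R = 𝔼 σ : Fin n → ZMod k, 𝔼 R : Finset (Pair n), Psi σ R * I σ R := by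
    rw [← expect_sum_comm]
    apply expect_congr rfl
    intro σ _
    rw [← expect_sum_comm]
    apply expect_congr rfl
    intro R _
    rw [← sum_mul]
  rw [hsum]
  -- the factor vanishing by the choice of the gadget coefficient
  have hPsi0 : (𝔼 σ : Fin n → ZMod k, 𝔼 R : Finset (Pair n), Psi σ R) = 0 := by
    have h1 : ∀ (σ : Fin n → ZMod k) (R : Finset (Pair n)), Psi σ R =
        (-1) ^ B.card * (if (∀ e ∈ B, Mono σ e) then 1 else 0) +
        gco k B * ∑ e ∈ B, (if (Rain σ B ∧ B ∩ R = {e}) then 1 else 0) := by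
      intro σ R
      show ∑ o ∈ insertNone B, psi o σ R = _
      rw [sum_insertNone, mul_sum]
      rfl
    simp only [h1, expect_add_distrib, ← mul_expect]
    have h2 : (𝔼 σ : Fin n → ZMod k, 𝔼 _R : Finset (Pair n),
        if (∀ e ∈ B, Mono σ e) then (1 : ℝ) else 0) = pm k B := by
      rw [pm]
      apply expect_congr rfl
      intro σ _
      rw [expect_const univ_nonempty]
    have h3 : (𝔼 σ : Fin n → ZMod k, 𝔼 R : Finset (Pair n),
        ∑ e ∈ B, (if (Rain σ B ∧ B ∩ R = {e}) then (1 : ℝ) else 0)) = pr k B := rfl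
    rw [h2, h3, gco]
    rw [mem_gad] at hB
    have h4 : 2 * (vset B).card ^ 2 ≤ k := by
      calc 2 * (vset B).card ^ 2 ≤ 2 * w ^ 2 := by gcongr; exact hB.2
        _ ≤ k := hk
    have hpr : pr k B ≠ 0 := by
      have := pr_ge (k := k) hB.1.1 h4
      have hpos : (0 : ℝ) < (1 / 2) ^ (B.card + 1) := by positivity
      exact (lt_of_lt_of_le hpos this).ne'
    field_simp
    ring
  rw [indep B (Gset S φ B) Psi I hsep ?_ ?_ ?_ ?_, hPsi0, zero_mul, mul_zero]
  · -- shift invariance
    intro σ t R ht
    apply prod_congr rfl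
    intro f hf
    have hfG : f ∈ Gset S φ B := by rw [Gset, mem_union]; exact Or.inl hf
    have htf := ht f hfG
    have hmono : Mono (σ + t) f ↔ Mono σ f := by
      unfold Mono
      simp only [Pi.add_apply, htf]
      exact add_left_inj _
    rcases hφ : φ f with _ | _ | H
    · simp only [ind, hmono]
    · simp only [ind, hmono]
    · simp only [ind]
      by_cases hH : H ∈ gad n w
      · have hrain : Rain (σ + t) H ↔ Rain σ H := by
          have hconst : ∀ u ∈ vset H, ∀ v ∈ vset H, t u = t v := by
            intro u hu v hv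
            have hc := (mem_gad.1 hH).1.conn hu hv
            apply Conn.map t _ hc
            intro e he
            apply ht
            have := hs_subset_Gset (φ := φ) hf
            rw [hφ] at this
            exact this he
          unfold Rain
          constructor
          · intro h u hu v hv huv
            apply h u hu v hv
            simp only [Pi.add_apply, huv, hconst u hu v hv]
          · intro h u hu v hv huv
            apply h u hu v hv
            simp only [Pi.add_apply, hconst u hu v hv] at huv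
            exact add_right_cancel huv
        simp only [hrain]
      · simp [hH]
  · -- independence of `R ∩ B`
    intro σ R R' hRR
    apply prod_congr rfl
    intro f hf
    have hfR : f ∈ R ↔ f ∈ R' := by
      have h1 : f ∈ R \ B ↔ f ∈ R' \ B := by rw [hRR]
      simp only [mem_sdiff, (mem_sdiff.1 hf).2, not_false_eq_true, and_true] at h1
      exact h1
    rcases hφ : φ f with _ | _ | H
    · simp only [ind]
    · simp only [ind, hfR]
    · simp only [ind]
      have hd := hsep.disjoint hf
      rw [hφ] at hd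
      have hHR : H ∩ R = H ∩ R' := by
        ext e
        rw [mem_inter, mem_inter]
        constructor
        · rintro ⟨h1, h2⟩
          have : e ∈ R \ B := mem_sdiff.2 ⟨h2, (disjoint_left.1 hd) h1⟩
          rw [hRR] at this
          exact ⟨h1, (mem_sdiff.1 this).1⟩
        · rintro ⟨h1, h2⟩
          have : e ∈ R' \ B := mem_sdiff.2 ⟨h2, (disjoint_left.1 hd) h1⟩
          rw [← hRR] at this
          exact ⟨h1, (mem_sdiff.1 this).1⟩
      simp only [hHR]
  · -- `Psi` depends only on colours of `B`
    intro σ σ' R hσ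
    have h1 : (∀ e ∈ B, Mono σ e) ↔ (∀ e ∈ B, Mono σ' e) := by
      apply forall₂_congr
      intro e he
      unfold Mono
      rw [hσ _ (fst_mem_vset he), hσ _ (snd_mem_vset he)]
    have h2 : Rain σ B ↔ Rain σ' B := by
      unfold Rain
      apply forall₂_congr
      intro u hu
      apply forall₂_congr
      intro v hv
      rw [hσ u hu, hσ v hv]
    apply sum_congr rfl
    intro o _
    rcases o with _ | e
    · simp only [psi, psiI, h1]
    · simp only [psi, psiI, h2]
  · intro σ R R' hRR
    have h1 : B ∩ R = B ∩ R' := by rw [inter_comm B R, inter_comm B R', hRR]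
    apply sum_congr rfl
    intro o _
    rcases o with _ | e
    · simp only [psi, psiI]
    · simp only [psi, psiI, h1]

end Pool.Agent.ColorRef
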