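import Pool.Agent.ColorRef.Cancel

namespace Pool.Agent.ColorRef

open Finset BigOperators
open scoped Classical

set_option linter.unusedSectionVars false

variable {n : ℕ} {k : ℕ} [NeZero k] (w : ℕ)

lemma Gset_stt {S B : Finset (Pair n)} {φ : Pair n → St n} {o : Option (Pair n)} :
    Gset S (sttB B φ o) B = Gset S φ B := by
  have : (S \ B).biUnion (fun f => hs (sttB B φ o f)) = (S \ B).biUnion (fun f => hs (φ f)) := by
    apply biUnion_congr rfl
    intro f hf
    rw [sttB_of_notMem (mem_sdiff.1 hf).2]
  rw [Gset, Gset, this]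

lemma goodSt_stt {B : Finset (Pair n)} {φ : Pair n → St n} {o : Option (Pair n)}
    (ho : o ∈ insertNone B) : GoodSt (sttB B φ o) B := by
  rcases o with _ | e
  · exact Or.inl (fun e he => sttB_none he)
  · have he : e ∈ B := by simpa using ho
    exact Or.inr ⟨e, he, sttB_some_self he, fun f hf hne => sttB_some_ne hf hne⟩

lemma clean_sum_zero {S B : Finset (Pair n)} (hBS : B ⊆ S) (hB : B ∈ gad n w)
    (hk : 2 * w ^ 2 ≤ k) (Q : (Pair n → St n) → Prop)
    (hQ : ∀ (φ : Pair n → St n) (o : Option (Pair n)), o ∈ insertNone B → resetB B φ = φ →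
      (Q (sttB B φ o) ↔ Q φ))
    (F : Finset (Pair n → St n)) (hF : ∀ φ, φ ∈ F ↔ (φ ∈ Phi S ∧ Clean S φ B ∧ Q φ)) :
    ∑ φ ∈ F, wt k w S φ = 0 := by
  set F0 := (Phi S).filter (fun φ => resetB B φ = φ ∧ SepB S φ B ∧ Q φ) with hF0
  have hstt : ∀ φ, GoodSt φ B → ∃ o ∈ insertNone B, φ = sttB B (resetB B φ) o := by
    intro φ hφ
    rcases hφ with h | ⟨e, he, h1, h2⟩
    · refine ⟨none, by simp, ?_⟩
      funext f
      by_cases hf : f ∈ B
      · rw [sttB_none hf, h f hf]
      · rw [sttB_of_notMem hf]; simp [resetB, hf]
    · refine ⟨some e, by simpa using he, ?_⟩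
      funext f
      by_cases hf : f ∈ B
      · by_cases hfe : f = e
        · subst hfe; rw [sttB_some_self hf, h1]
        · rw [sttB_some_ne hf hfe, h2 f hf hfe]
      · rw [sttB_of_notMem hf]; simp [resetB, hf]
  have hmaps : ∀ φ ∈ F, resetB B φ ∈ F0 := by
    intro φ hφ
    rw [hF] at hφ
    obtain ⟨hφ1, hφ2, hφ3⟩ := hφ
    have hrr : resetB B (resetB B φ) = resetB B φ := by
      funext f; by_cases hf : f ∈ B <;> simp [resetB, hf]
    obtain ⟨o, ho, hφo⟩ := hstt φ hφ2.1
    rw [hF0, mem_filter]
    refine ⟨?_, hrr, ?_, ?_⟩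
    · rw [mem_Phi] at hφ1 ⊢
      intro e he
      have : e ∉ B := fun h => he (hBS h)
      simp [resetB, this, hφ1 e he]
    · have h1 := hφ2.2
      unfold SepB at h1 ⊢
      rw [hφo, Gset_stt] at h1
      exact h1
    · rw [hφo] at hφ3
      exact (hQ _ o ho hrr).1 hφ3
  rw [← sum_fiberwise_of_maps_to hmaps]
  apply sum_eq_zero
  intro φ0 hφ0
  rw [hF0, mem_filter] at hφ0
  obtain ⟨h1, h2, h3, h4⟩ := hφ0
  have himg : F.filter (fun φ => resetB B φ = φ0) = (insertNone B).image (sttB B φ0) := by
    ext φ
    rw [mem_filter, mem_image]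
    constructor
    · rintro ⟨hφ, hr⟩
      rw [hF] at hφ
      obtain ⟨o, ho, hφo⟩ := hstt φ hφ.2.1.1
      exact ⟨o, ho, by rw [hφo, hr]⟩
    · rintro ⟨o, ho, rfl⟩
      refine ⟨?_, ?_⟩
      · rw [hF]
        refine ⟨?_, ⟨goodSt_stt ho, ?_⟩, (hQ φ0 o ho h2).2 h4⟩
        · rw [mem_Phi] at h1 ⊢
          intro e he
          have : e ∉ B := fun h => he (hBS h)
          rw [sttB_of_notMem this, h1 e he]
        · unfold SepB
          rw [Gset_stt]
          exact h3
      · funext f
        by_cases hf : f ∈ B
        · have : φ0 f = none := by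
            rw [← h2]; simp [resetB, hf]
          simp [resetB, hf, this]
        · simp [resetB, hf, sttB]
  rw [himg, sum_image]
  · exact sum_stt_eq_zero w hBS hB hk h3
  · intro o ho o' ho' hoo
    rcases o with _ | e <;> rcases o' with _ | e'
    · rfl
    · exfalso
      have he' : e' ∈ B := by simpa using ho'
      have h5 := congrFun hoo e'
      rw [sttB_none he', sttB_some_self he'] at h5
      exact absurd h5 (by simp)
    · exfalso
      have he : e ∈ B := by simpa using ho
      have h5 := congrFun hoo e
      rw [sttB_none he, sttB_some_self he] at h5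
      exact absurd h5 (by simp)
    · have he : e ∈ B := by simpa using ho
      have h5 := congrFun hoo e
      by_contra hne
      have hne' : e ≠ e' := fun h => hne (by rw [h])
      rw [sttB_some_self he, sttB_some_ne he hne'] at h5
      exact absurd h5 (by simp)

/-- Configurations which are clean at some block of a disjoint family cancel. -/
lemma aco_eq_nonclean {S : Finset (Pair n)} (hk : 2 * w ^ 2 ≤ k)
    (Bs : Finset (Finset (Pair n))) (hBs : ∀ B ∈ Bs, B ⊆ S ∧ B ∈ gad n w)
    (hdis : ∀ B ∈ Bs, ∀ B' ∈ Bs, B ≠ B' → Disjoint B B') :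
    aco k w S = ∑ φ ∈ (Phi S).filter (fun φ => ∀ B ∈ Bs, ¬ Clean S φ B), wt k w S φ := by
  rw [aco_eq]
  induction Bs using Finset.induction_on with
  | empty => simp
  | insert B Bs' hB ih =>
    have ih' := ih (fun B' hB' => hBs B' (mem_insert_of_mem hB'))
      (fun B1 h1 B2 h2 => hdis B1 (mem_insert_of_mem h1) B2 (mem_insert_of_mem h2))
    rw [ih']
    have hBS := hBs B (mem_insert_self _ _)
    have hzero := clean_sum_zero w hBS.1 hBS.2 hk
      (fun φ => ∀ B' ∈ Bs', ¬ Clean S φ B') ?_
      ((Phi S).filter (fun φ => (∀ B' ∈ Bs', ¬ Clean S φ B') ∧ Clean S φ B))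
      (fun φ => by rw [mem_filter]; tauto)
    · have hsplit := sum_filter_add_sum_filter_not
        ((Phi S).filter (fun φ => ∀ B' ∈ Bs', ¬ Clean S φ B')) (fun φ => Clean S φ B)
        (fun φ => wt k w S φ)
      rw [filter_filter, filter_filter] at hsplit
      have e2 : (Phi S).filter (fun φ => (∀ B' ∈ Bs', ¬ Clean S φ B') ∧ ¬ Clean S φ B) =
          (Phi S).filter (fun φ => ∀ B' ∈ insert B Bs', ¬ Clean S φ B') := by
        apply filter_congr
        intro φ _
        simp only [mem_insert, forall_eq_or_imp]
        exact and_comm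
      rw [hzero, zero_add, e2] at hsplit
      exact hsplit.symm
    · intro φ o ho hφ
      have hnone : ∀ f ∈ B, φ f = none := by
        intro f hf; rw [← hφ]; simp [resetB, hf]
      apply forall₂_congr
      intro B' hB'
      have hne : B ≠ B' := fun h => hB (h ▸ hB')
      have hd := hdis B (mem_insert_self _ _) B' (mem_insert_of_mem hB') hne
      have hval : ∀ f ∈ B', sttB B φ o f = φ f := by
        intro f hf
        exact sttB_of_notMem (fun h => (disjoint_left.1 hd) h hf)
      have hgood : GoodSt (sttB B φ o) B' ↔ GoodSt φ B' := by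
        unfold GoodSt
        constructor
        · rintro (h | ⟨e, he, h1, h2⟩)
          · exact Or.inl (fun e he => by rw [← hval e he]; exact h e he)
          · exact Or.inr ⟨e, he, by rw [← hval e he]; exact h1,
              fun f hf hfe => by rw [← hval f hf]; exact h2 f hf hfe⟩
        · rintro (h | ⟨e, he, h1, h2⟩)
          · exact Or.inl (fun e he => by rw [hval e he]; exact h e he)
          · exact Or.inr ⟨e, he, by rw [hval e he]; exact h1,
              fun f hf hfe => by rw [hval f hf]; exact h2 f hf hfe⟩
      have hG : Gset S (sttB B φ o) B' = Gset S φ B' := by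
        have hBsub : B ⊆ S \ B' := by
          intro f hf
          rw [mem_sdiff]
          exact ⟨hBS.1 hf, (disjoint_left.1 hd) hf⟩
        rw [Gset, Gset]
        ext f
        simp only [mem_union, mem_biUnion]
        constructor
        · rintro (h | ⟨g, hg, hfg⟩)
          · exact Or.inl h
          · by_cases hgB : g ∈ B
            · left
              rcases o with _ | e
              · rw [sttB_none hgB] at hfg
                simp [hs] at hfg
              · by_cases hge : g = e
                · subst hge
                  rw [sttB_some_self hgB] at hfg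
                  exact hBsub hfg
                · rw [sttB_some_ne hgB hge] at hfg
                  simp [hs] at hfg
            · right
              rw [sttB_of_notMem hgB] at hfg
              exact ⟨g, hg, hfg⟩
        · rintro (h | ⟨g, hg, hfg⟩)
          · exact Or.inl h
          · by_cases hgB : g ∈ B
            · rw [hnone g hgB] at hfg
              simp [hs] at hfg
            · right
              exact ⟨g, hg, by rw [sttB_of_notMem hgB]; exact hfg⟩
      unfold Clean SepB
      rw [hgood, hG]

end Pool.Agent.ColorRef
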