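import Pool.Agent.ColorRef.Valid

namespace Pool.Agent.ColorRef

open Finset BigOperators
open scoped Classical

set_option linter.unusedSectionVars false

variable {n : ℕ} {k : ℕ} [NeZero k] (w : ℕ)

lemma ncl_univ_le (S : Finset (Pair n)) :
    ncl S univ + (vset S).card ≤ ncl S (vset S) + n := by
  have h1 : ncl S univ ≤ ncl S (vset S) + ((univ \ vset S).card) := by
    have : (univ : Finset (Fin n)).image (cls S) ⊆
        (vset S).image (cls S) ∪ (univ \ vset S).image (cls S) := by
      rw [← image_union]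
      apply image_subset_image
      intro v _
      simp
    calc ncl S univ ≤ ((vset S).image (cls S) ∪ (univ \ vset S).image (cls S)).card :=
          card_le_card this
      _ ≤ ((vset S).image (cls S)).card + ((univ \ vset S).image (cls S)).card :=
          card_union_le _ _
      _ ≤ ncl S (vset S) + ((univ \ vset S).card) := by
          gcongr
          · exact le_rfl
          · exact card_image_le
  have h2 : (univ \ vset S).card + (vset S).card = n := by
    rw [card_sdiff_add_card_eq_card (subset_univ _), card_univ, Fintype.card_fin]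
  omega

lemma ncl_blk {B : Finset (Pair n)} (hB : Blk B) : ncl B (vset B) ≤ 1 := by
  rw [ncl, card_le_one]
  intro a ha b hb
  obtain ⟨u, hu, rfl⟩ := mem_image.1 ha
  obtain ⟨v, hv, rfl⟩ := mem_image.1 hb
  exact cls_eq_iff.2 (hB.conn hu hv)

lemma ncl_univ_blk {B : Finset (Pair n)} (hB : Blk B) :
    ncl B univ + (vset B).card ≤ n + 1 := by
  have h1 := ncl_univ_le B
  have h2 := ncl_blk hB
  omega

lemma blk_singleton (e : Pair n) : Blk ({e} : Finset (Pair n)) := by
  refine ⟨singleton_nonempty e, ?_⟩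
  intro Z hZ hne hZe
  exfalso
  apply hZe
  rcases subset_singleton_iff.1 hZ with h | h
  · exact absurd h hne.ne_empty
  · exact h

lemma vset_singleton (e : Pair n) : (vset ({e} : Finset (Pair n))).card = 2 := by
  have : vset ({e} : Finset (Pair n)) = {e.1.1, e.1.2} := by simp [vset]
  rw [this]
  exact card_pair (ne_of_lt e.2)

lemma pm_blk_le {B : Finset (Pair n)} (hB : Blk B) :
    pm k B * (k : ℝ) ^ (vset B).card ≤ k := by
  have hk := kpos (k := k)
  have h1 := pm_le k B
  have h2 := ncl_univ_blk hB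
  have hk1 : (1 : ℝ) ≤ k := by
    have := NeZero.pos k
    exact_mod_cast this
  calc pm k B * (k : ℝ) ^ (vset B).card
      ≤ ((k : ℝ) ^ (ncl B univ) / (k : ℝ) ^ n) * (k : ℝ) ^ (vset B).card := by gcongr
    _ = (k : ℝ) ^ (ncl B univ + (vset B).card) / (k : ℝ) ^ n := by
        rw [pow_add]; ring
    _ ≤ (k : ℝ) ^ (n + 1) / (k : ℝ) ^ n := by
        gcongr
    _ = k := by
        rw [pow_succ]; field_simp

/-- The edges with both endpoints in `X`. -/
noncomputable def inside (X : Finset (Fin n)) : Finset (Pair n) :=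
  univ.filter (fun e => e.1.1 ∈ X ∧ e.1.2 ∈ X)

lemma card_inside_le (X : Finset (Fin n)) : (inside X).card ≤ X.card ^ 2 := by
  have : ((inside X).image (fun e : Pair n => e.1)) ⊆ X ×ˢ X := by
    intro p hp
    obtain ⟨e, he, rfl⟩ := mem_image.1 hp
    rw [mem_product]
    simpa [inside] using he
  calc (inside X).card = ((inside X).image (fun e : Pair n => e.1)).card :=
        (card_image_of_injective _ Subtype.val_injective).symm
    _ ≤ (X ×ˢ X).card := card_le_card this
    _ = X.card ^ 2 := by rw [card_product]; ring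

lemma subset_inside (B : Finset (Pair n)) : B ⊆ inside (vset B) := by
  intro e he
  rw [inside, mem_filter]
  exact ⟨mem_univ _, fst_mem_vset he, snd_mem_vset he⟩

lemma card_le_sq (B : Finset (Pair n)) : B.card ≤ (vset B).card ^ 2 :=
  (card_le_card (subset_inside B)).trans (card_inside_le _)

lemma not_rain {σ : Fin n → ZMod k} {B : Finset (Pair n)} (h : ¬ Rain σ B) :
    ∃ e ∈ inside (vset B), Mono σ e := by
  unfold Rain at h
  push Not at h
  obtain ⟨u, hu, v, hv, huv, hne⟩ := h
  rcases lt_or_gt_of_ne hne with h1 | h1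
  · refine ⟨⟨(u, v), h1⟩, ?_, huv⟩
    simp [inside, hu, hv]
  · refine ⟨⟨(v, u), h1⟩, ?_, huv.symm⟩
    simp [inside, hu, hv]

variable (k) in
/-- Probability that `B` is rainbow. -/
noncomputable def prain (B : Finset (Pair n)) : ℝ :=
  𝔼 σ : Fin n → ZMod k, if Rain σ B then 1 else 0

lemma prain_ge {B : Finset (Pair n)} (hk : 2 * (vset B).card ^ 2 ≤ k) :
    1 / 2 ≤ prain k B := by
  have hk0 := kpos (k := k)
  have h1 : ∀ σ : Fin n → ZMod k, (1 : ℝ) - ∑ e ∈ inside (vset B), (if Mono σ e then 1 else 0) ≤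
      if Rain σ B then 1 else 0 := by
    intro σ
    have hnn : 0 ≤ ∑ e ∈ inside (vset B), (if Mono σ e then (1 : ℝ) else 0) :=
      sum_nonneg (fun _ _ => by split_ifs <;> norm_num)
    split_ifs with hr
    · linarith
    · obtain ⟨e, he, hm⟩ := not_rain hr
      have : (1 : ℝ) ≤ ∑ e ∈ inside (vset B), (if Mono σ e then (1 : ℝ) else 0) := by
        calc (1 : ℝ) = (if Mono σ e then (1 : ℝ) else 0) := by simp [hm]
          _ ≤ _ := single_le_sum (f := fun e => if Mono σ e then (1 : ℝ) else 0)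
              (fun _ _ => by split_ifs <;> norm_num) he
      linarith
  have h2 : ∀ e : Pair n, (𝔼 σ : Fin n → ZMod k, if Mono σ e then (1 : ℝ) else 0) ≤ 1 / k := by
    intro e
    have h3 := pm_blk_le (k := k) (blk_singleton e)
    rw [vset_singleton] at h3
    have h4 : pm k {e} = 𝔼 σ : Fin n → ZMod k, if Mono σ e then (1 : ℝ) else 0 := by
      rw [pm]; simp
    rw [h4] at h3
    rw [le_div_iff₀ hk0]
    have : (𝔼 σ : Fin n → ZMod k, if Mono σ e then (1 : ℝ) else 0) * k * k ≤ 1 * k := by
      linarith [h3]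
    exact le_of_mul_le_mul_right this hk0
  calc (1 : ℝ) / 2 ≤ 1 - ∑ e ∈ inside (vset B), (1 / (k : ℝ)) := by
        rw [sum_const, nsmul_eq_mul]
        have h5 : ((inside (vset B)).card : ℝ) ≤ ((vset B).card : ℝ) ^ 2 := by
          exact_mod_cast card_inside_le (vset B)
        have h6 : (2 : ℝ) * ((vset B).card : ℝ) ^ 2 ≤ k := by exact_mod_cast hk
        have h7 : ((inside (vset B)).card : ℝ) * (1 / (k : ℝ)) ≤ 1 / 2 := by
          rw [mul_one_div, div_le_div_iff₀ hk0 (by norm_num)]
          linarith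
        linarith
    _ ≤ 1 - ∑ e ∈ inside (vset B), (𝔼 σ : Fin n → ZMod k, if Mono σ e then (1 : ℝ) else 0) := by
        gcongr with e _
        exact h2 e
    _ = 𝔼 σ : Fin n → ZMod k,
          ((1 : ℝ) - ∑ e ∈ inside (vset B), (if Mono σ e then 1 else 0)) := by
        rw [expect_sub_distrib, expect_sum_comm, expect_const univ_nonempty]
    _ ≤ prain k B := expect_le_expect (fun σ _ => h1 σ)

lemma pR_ge {B : Finset (Pair n)} {e : Pair n} (he : e ∈ B) :
    (1 / 2 : ℝ) ^ B.card ≤ 𝔼 R : Finset (Pair n), if B ∩ R = {e} then (1 : ℝ) else 0 := by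
  rw [Fintype.expect_eq_sum_div_card, sum_boole, Fintype.card_finset]
  have h1 : (Bᶜ.powerset.image (fun R => insert e R)) ⊆
      univ.filter (fun R : Finset (Pair n) => B ∩ R = {e}) := by
    intro R hR
    obtain ⟨R', hR', rfl⟩ := mem_image.1 hR
    rw [mem_powerset] at hR'
    rw [mem_filter]
    refine ⟨mem_univ _, ?_⟩
    ext f
    rw [mem_inter, mem_insert, mem_singleton]
    constructor
    · rintro ⟨h2, h3 | h3⟩
      · exact h3
      · exact absurd h2 (mem_compl.1 (hR' h3))
    · rintro rfl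
      exact ⟨he, Or.inl rfl⟩
  have h2 : (Bᶜ.powerset.image (fun R => insert e R)).card = 2 ^ (Bᶜ.card) := by
    rw [card_image_of_injOn, card_powerset]
    intro R hR R' hR' hRR'
    simp only [coe_powerset, Set.mem_preimage, Set.mem_powerset_iff, coe_subset] at hR hR'
    have hR1 : e ∉ R := fun h => (mem_compl.1 (hR h)) he
    have hR2 : e ∉ R' := fun h => (mem_compl.1 (hR' h)) he
    have : (insert e R).erase e = (insert e R').erase e := by
      simp only at hRR'
      rw [hRR']
    rwa [erase_insert hR1, erase_insert hR2] at this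
  have h3 := card_le_card h1
  rw [h2] at h3
  have h4 : Bᶜ.card + B.card = Fintype.card (Pair n) := by
    rw [card_compl]
    have := card_le_univ B
    omega
  have h5 : ((2 : ℝ) ^ (Bᶜ.card)) ≤
      ((univ.filter (fun R : Finset (Pair n) => B ∩ R = {e})).card : ℝ) := by
    exact_mod_cast h3
  calc (1 / 2 : ℝ) ^ B.card = (2 : ℝ) ^ (Bᶜ.card) / ((2 ^ Fintype.card (Pair n) : ℕ) : ℝ) := by
        rw [← h4]; push_cast; rw [pow_add, one_div, inv_pow]; field_simp
    _ ≤ _ := by gcongr

lemma pr_ge {B : Finset (Pair n)} (hne : B.Nonempty) (hk : 2 * (vset B).card ^ 2 ≤ k) :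
    (1 / 2 : ℝ) ^ (B.card + 1) ≤ pr k B := by
  obtain ⟨e, he⟩ := hne
  have h1 := prain_ge (k := k) hk
  have h2 := pR_ge he
  have h3 : ∀ σ : Fin n → ZMod k, (if Rain σ B then (1 : ℝ) else 0) *
      (𝔼 R : Finset (Pair n), if B ∩ R = {e} then (1 : ℝ) else 0) ≤
      𝔼 R : Finset (Pair n), ∑ e ∈ B, if (Rain σ B ∧ B ∩ R = {e}) then (1 : ℝ) else 0 := by
    intro σ
    rw [mul_expect]
    apply expect_le_expect
    intro R _
    calc (if Rain σ B then (1 : ℝ) else 0) * (if B ∩ R = {e} then (1 : ℝ) else 0)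
        = if (Rain σ B ∧ B ∩ R = {e}) then (1 : ℝ) else 0 := by
          by_cases h4 : Rain σ B <;> by_cases h5 : B ∩ R = {e} <;> simp [h4, h5]
      _ ≤ _ := single_le_sum (f := fun e => if (Rain σ B ∧ B ∩ R = {e}) then (1 : ℝ) else 0)
              (fun _ _ => by split_ifs <;> norm_num) he
  have h4 : prain k B * (𝔼 R : Finset (Pair n), if B ∩ R = {e} then (1 : ℝ) else 0) ≤ pr k B := by
    rw [prain, expect_mul, pr]
    exact expect_le_expect (fun σ _ => h3 σ)
  calc (1 / 2 : ℝ) ^ (B.card + 1) = (1 / 2) * (1 / 2) ^ B.card := by ring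
    _ ≤ prain k B * (𝔼 R : Finset (Pair n), if B ∩ R = {e} then (1 : ℝ) else 0) := by
        gcongr
    _ ≤ pr k B := h4

/-- Constant bounding the gadget coefficients. -/
noncomputable def Cg (w : ℕ) : ℝ := 2 ^ (w ^ 2 + 1)

lemma Cg_ge_one (w : ℕ) : 1 ≤ Cg w := one_le_pow₀ (by norm_num)

lemma gco_bound {B : Finset (Pair n)} (hB : B ∈ gad n w) (hk : 2 * w ^ 2 ≤ k) :
    |gco k B| * (k : ℝ) ^ (vset B).card ≤ Cg w * k := by
  rw [mem_gad] at hB
  have hk0 := kpos (k := k)
  have h1 : 2 * (vset B).card ^ 2 ≤ k := by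
    calc 2 * (vset B).card ^ 2 ≤ 2 * w ^ 2 := by
          gcongr
          exact hB.2
      _ ≤ k := hk
  have h2 := pr_ge (k := k) hB.1.1 h1
  have h3 := pm_blk_le (k := k) hB.1
  have h4 := pm_nonneg k B
  have hpos : (0 : ℝ) < (1 / 2) ^ (B.card + 1) := by positivity
  have hprpos : 0 < pr k B := lt_of_lt_of_le hpos h2
  have h5 : |gco k B| = pm k B / pr k B := by
    rw [gco, abs_neg, abs_div, abs_mul, abs_pow, abs_neg, abs_one, one_pow, one_mul,
      abs_of_nonneg h4, abs_of_pos hprpos]
  have h6 : pm k B / pr k B ≤ pm k B * 2 ^ (B.card + 1) := by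
    rw [div_le_iff₀ hprpos]
    calc pm k B = pm k B * 2 ^ (B.card + 1) * (1 / 2) ^ (B.card + 1) := by
          rw [mul_assoc, ← mul_pow]; norm_num
      _ ≤ pm k B * 2 ^ (B.card + 1) * pr k B :=
          mul_le_mul_of_nonneg_left h2 (mul_nonneg h4 (by positivity))
  have h7 : B.card + 1 ≤ w ^ 2 + 1 := by
    have := card_le_sq B
    have h8 : (vset B).card ^ 2 ≤ w ^ 2 := by gcongr; exact hB.2
    omega
  have h8 : (2 : ℝ) ^ (B.card + 1) ≤ Cg w := by
    rw [Cg]
    exact pow_le_pow_right₀ (by norm_num) h7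
  calc |gco k B| * (k : ℝ) ^ (vset B).card
      ≤ (pm k B * 2 ^ (B.card + 1)) * (k : ℝ) ^ (vset B).card := by
        rw [h5]
        exact mul_le_mul_of_nonneg_right h6 (by positivity)
    _ = 2 ^ (B.card + 1) * (pm k B * (k : ℝ) ^ (vset B).card) := by ring
    _ ≤ Cg w * k := mul_le_mul h8 h3 (mul_nonneg h4 (by positivity))
        (by linarith [Cg_ge_one w])

end Pool.Agent.ColorRef
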