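import Mathlib

namespace Pool.Agent.ColorRef

open Finset

/-- Pairs `(i,j)` of vertices with `i < j`, that is, the potential edges of a graph on `Fin n`. -/
abbrev Pair (n : ℕ) := {p : Fin n × Fin n // p.1 < p.2}

variable {n : ℕ}

/-- The set of vertices incident to an edge of `H`. -/
def vset (H : Finset (Pair n)) : Finset (Fin n) := H.biUnion (fun e => {e.1.1, e.1.2})

lemma mem_vset {H : Finset (Pair n)} {v : Fin n} :
    v ∈ vset H ↔ ∃ e ∈ H, v = e.1.1 ∨ v = e.1.2 := by
  simp [vset]

lemma fst_mem_vset {H : Finset (Pair n)} {e : Pair n} (h : e ∈ H) : e.1.1 ∈ vset H :=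
  mem_vset.2 ⟨e, h, Or.inl rfl⟩

lemma snd_mem_vset {H : Finset (Pair n)} {e : Pair n} (h : e ∈ H) : e.1.2 ∈ vset H :=
  mem_vset.2 ⟨e, h, Or.inr rfl⟩

lemma vset_mono {H H' : Finset (Pair n)} (h : H ⊆ H') : vset H ⊆ vset H' := by
  intro v hv
  obtain ⟨e, he, h1⟩ := mem_vset.1 hv
  exact mem_vset.2 ⟨e, h he, h1⟩

/-- Connectivity in the graph with edge set `G`. -/
def Conn (G : Finset (Pair n)) : Fin n → Fin n → Prop :=
  Relation.EqvGen (fun u v => ∃ e ∈ G, e.1.1 = u ∧ e.1.2 = v)

namespace Conn

variable {G G' : Finset (Pair n)} {u v w : Fin n}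

lemma refl (G : Finset (Pair n)) (u : Fin n) : Conn G u u := Relation.EqvGen.refl u

lemma symm (h : Conn G u v) : Conn G v u := Relation.EqvGen.symm _ _ h

lemma trans (h : Conn G u v) (h' : Conn G v w) : Conn G u w := Relation.EqvGen.trans _ _ _ h h'

lemma of_mem {e : Pair n} (he : e ∈ G) : Conn G e.1.1 e.1.2 :=
  Relation.EqvGen.rel _ _ ⟨e, he, rfl, rfl⟩

lemma ind (r : Fin n → Fin n → Prop) (hr : Equivalence r)
    (h : ∀ e ∈ G, r e.1.1 e.1.2) (huv : Conn G u v) : r u v := by
  induction huv with
  | rel x y hxy =>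
    obtain ⟨e, he, rfl, rfl⟩ := hxy
    exact h e he
  | refl x => exact hr.refl x
  | symm x y _ ih => exact hr.symm ih
  | trans x y z _ _ ih1 ih2 => exact hr.trans ih1 ih2

lemma mono (h : G ⊆ G') (huv : Conn G u v) : Conn G' u v :=
  ind (Conn G') ⟨refl _, symm, trans⟩ (fun _ he => of_mem (h he)) huv

lemma closed (P : Fin n → Prop) (h : ∀ e ∈ G, (P e.1.1 ↔ P e.1.2)) (huv : Conn G u v) :
    P u ↔ P v :=
  ind (fun x y => P x ↔ P y) ⟨fun _ => Iff.rfl, Iff.symm, Iff.trans⟩ h huv

lemma map {α : Type*} (f : Fin n → α) (h : ∀ e ∈ G, f e.1.1 = f e.1.2) (huv : Conn G u v) :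
    f u = f v :=
  ind (fun x y => f x = f y) ⟨fun _ => rfl, Eq.symm, Eq.trans⟩ h huv

/-- If `K` is closed under `G` and every `G`-edge inside `K` is in `G'`, connections inside `K`
transfer. -/
lemma local_mono (K : Fin n → Prop) (hK : ∀ e ∈ G, (K e.1.1 ↔ K e.1.2))
    (h : ∀ e ∈ G, K e.1.1 → e ∈ G') (hu : K u) (huv : Conn G u v) : Conn G' u v := by
  have := ind (fun x y => (K x ↔ K y) ∧ (K x → Conn G' x y))
    ⟨fun x => ⟨Iff.rfl, fun _ => refl _ _⟩,
     fun {x y} h => ⟨h.1.symm, fun hy => (h.2 (h.1.2 hy)).symm⟩,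
     fun {x y z} h1 h2 => ⟨h1.1.trans h2.1, fun hx => (h1.2 hx).trans (h2.2 (h1.1.1 hx))⟩⟩
    (fun e he => ⟨hK e he, fun hx => of_mem (h e he hx)⟩) huv
  exact this.2 hu

lemma eq_of_notMem (hu : u ∉ vset G) (huv : Conn G u v) : u = v := by
  have := closed (fun x => x = u) (fun e he => ?_) huv
  · exact ((this.1 rfl)).symm
  · constructor
    · intro h; exact absurd (h ▸ fst_mem_vset he) hu
    · intro h; exact absurd (h ▸ snd_mem_vset he) hu

end Conn

/-- Inseparable graphs (2-connected graphs and single edges): for every proper nonempty set `Z`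
of edges, two distinct vertices of `Z` are connected by the remaining edges. -/
def Blk (H : Finset (Pair n)) : Prop :=
  H.Nonempty ∧ ∀ Z ⊆ H, Z.Nonempty → Z ≠ H →
    ∃ u ∈ vset Z, ∃ v ∈ vset Z, u ≠ v ∧ Conn (H \ Z) u v

lemma Blk.conn_aux {H : Finset (Pair n)} (hH : Blk H) {e : Pair n} (he : e ∈ H) {v : Fin n}
    (hv : v ∈ vset H) : Conn H e.1.1 v := by
  classical
  set Z := H.filter (fun f => Conn H e.1.1 f.1.1) with hZ
  have heZ : e ∈ Z := by simp [hZ, he, Conn.refl]
  by_cases hZH : Z = H
  · obtain ⟨f, hf, h1 | h1⟩ := mem_vset.1 hv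
    · rw [← hZH] at hf
      rw [h1]; exact (mem_filter.1 hf).2
    · have hf' := hf
      rw [← hZH] at hf
      rw [h1]; exact ((mem_filter.1 hf).2).trans (Conn.of_mem hf')
  · obtain ⟨x, hx, y, hy, hxy, hc⟩ := hH.2 Z (filter_subset _ _) ⟨e, heZ⟩ hZH
    have hex : Conn H e.1.1 x := by
      obtain ⟨f, hf, h1 | h1⟩ := mem_vset.1 hx
      · rw [h1]; exact (mem_filter.1 hf).2
      · rw [h1]; exact ((mem_filter.1 hf).2).trans (Conn.of_mem (mem_filter.1 hf).1)
    have hx' : x ∉ vset (H \ Z) := by
      intro h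
      obtain ⟨f, hf, h1⟩ := mem_vset.1 h
      obtain ⟨hfH, hfZ⟩ := mem_sdiff.1 hf
      apply hfZ
      rw [hZ, mem_filter]
      refine ⟨hfH, ?_⟩
      rcases h1 with h1 | h1
      · rw [← h1]; exact hex
      · exact (h1 ▸ hex).trans (Conn.of_mem hfH).symm
    exact absurd (Conn.eq_of_notMem hx' hc) hxy

lemma Blk.conn {H : Finset (Pair n)} (hH : Blk H) {u v : Fin n}
    (hu : u ∈ vset H) (hv : v ∈ vset H) : Conn H u v := by
  obtain ⟨e, he⟩ := hH.1
  exact (hH.conn_aux he hu).symm.trans (hH.conn_aux he hv)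

open Classical in
/-- The connectivity class of a vertex. -/
noncomputable def cls (G : Finset (Pair n)) (v : Fin n) : Finset (Fin n) :=
  univ.filter (fun u => Conn G v u)

lemma mem_cls {G : Finset (Pair n)} {u v : Fin n} : u ∈ cls G v ↔ Conn G v u := by
  simp [cls]

lemma self_mem_cls (G : Finset (Pair n)) (v : Fin n) : v ∈ cls G v := mem_cls.2 (Conn.refl _ _)

lemma cls_eq_iff {G : Finset (Pair n)} {u v : Fin n} : cls G u = cls G v ↔ Conn G u v := by
  constructor
  · intro h
    have : v ∈ cls G u := by rw [h]; exact self_mem_cls _ _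
    exact mem_cls.1 this
  · intro h
    ext x
    rw [mem_cls, mem_cls]
    exact ⟨fun hx => h.symm.trans hx, fun hx => h.trans hx⟩

/-- Number of connectivity classes of `G` that meet `X`. -/
noncomputable def ncl (G : Finset (Pair n)) (X : Finset (Fin n)) : ℕ := (X.image (cls G)).card

lemma ncl_le_card (G : Finset (Pair n)) (X : Finset (Fin n)) : ncl G X ≤ X.card := card_image_le

lemma ncl_mono (G : Finset (Pair n)) {X Y : Finset (Fin n)} (h : X ⊆ Y) : ncl G X ≤ ncl G Y :=
  card_le_card (image_subset_image h)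

lemma conn_symmDiff_of_avoid {S H : Finset (Pair n)} {X : Finset (Fin n)} (hX : vset H ⊆ X)
    {v : Fin n} (hv : ∀ x ∈ X, ¬ Conn S v x) {u : Fin n} :
    Conn S v u ↔ Conn (symmDiff S H) v u := by
  constructor
  · intro h
    refine Conn.local_mono (G := S) (fun x => Conn S v x) ?_ ?_ (Conn.refl _ _) h
    · intro e he
      exact ⟨fun h1 => h1.trans (Conn.of_mem he), fun h1 => h1.trans (Conn.of_mem he).symm⟩
    · intro e he h1
      rw [mem_symmDiff]
      left
      refine ⟨he, fun heH => hv _ (hX (fst_mem_vset heH)) h1⟩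
  · intro h
    have := Conn.closed (G := symmDiff S H) (fun x => Conn S v x) ?_ h
    · exact this.1 (Conn.refl _ _)
    · intro e he
      rw [mem_symmDiff] at he
      rcases he with ⟨heS, _⟩ | ⟨heH, _⟩
      · exact ⟨fun h1 => h1.trans (Conn.of_mem heS), fun h1 => h1.trans (Conn.of_mem heS).symm⟩
      · exact ⟨fun h1 => absurd h1 (hv _ (hX (fst_mem_vset heH))),
          fun h1 => absurd h1 (hv _ (hX (snd_mem_vset heH)))⟩

lemma cls_sdiff_subset {S H : Finset (Pair n)} {X : Finset (Fin n)} (hX : vset H ⊆ X) :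
    (univ.image (cls S)) \ (X.image (cls S)) ⊆
      (univ.image (cls (symmDiff S H))) \ (X.image (cls (symmDiff S H))) := by
  intro K hK
  rw [mem_sdiff] at hK
  obtain ⟨hK1, hK2⟩ := hK
  obtain ⟨v, -, rfl⟩ := mem_image.1 hK1
  have hv : ∀ x ∈ X, ¬ Conn S v x := by
    intro x hx hc
    apply hK2
    rw [mem_image]
    exact ⟨x, hx, (cls_eq_iff.2 hc).symm⟩
  have heq : cls S v = cls (symmDiff S H) v := by
    ext u
    rw [mem_cls, mem_cls]
    exact conn_symmDiff_of_avoid hX hv
  rw [mem_sdiff]
  refine ⟨?_, ?_⟩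
  · rw [heq]; exact mem_image_of_mem _ (mem_univ _)
  · intro hmem
    obtain ⟨x, hx, hxe⟩ := mem_image.1 hmem
    have : x ∈ cls S v := by rw [← hxe]; exact self_mem_cls _ _
    exact hv x hx (mem_cls.1 this)

lemma ncl_split {S H : Finset (Pair n)} {X : Finset (Fin n)} (hX : vset H ⊆ X) :
    ncl (symmDiff S H) univ + ncl S X = ncl S univ + ncl (symmDiff S H) X := by
  have h1 : (univ.image (cls S)) \ (X.image (cls S)) =
      (univ.image (cls (symmDiff S H))) \ (X.image (cls (symmDiff S H))) := by
    apply Subset.antisymm (cls_sdiff_subset hX)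
    have := cls_sdiff_subset (S := symmDiff S H) (H := H) hX
    rwa [symmDiff_symmDiff_cancel_right] at this
  have h2 : ∀ G : Finset (Pair n), ((univ.image (cls G)) \ (X.image (cls G))).card + ncl G X
      = ncl G univ := by
    intro G
    exact card_sdiff_add_card_eq_card (image_subset_image (subset_univ _))
  have h3 := h2 S
  have h4 := h2 (symmDiff S H)
  rw [← h1] at h4
  omega

/-- `K` is a union of connectivity classes of `S`. -/
def ClosedK (S : Finset (Pair n)) (K : Finset (Fin n)) : Prop :=
  ∀ e ∈ S, (e.1.1 ∈ K ↔ e.1.2 ∈ K)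

lemma ClosedK.conn {S : Finset (Pair n)} {K : Finset (Fin n)} (h : ClosedK S K) {u v : Fin n}
    (huv : Conn S u v) : u ∈ K ↔ v ∈ K :=
  Conn.closed (fun x => x ∈ K) h huv

/-- The step of the peeling process that removes a block. -/
def CaseA (S H : Finset (Pair n)) : Prop :=
  H ⊆ S ∧ ∀ u ∈ vset H, ∀ v ∈ vset H, u ≠ v → ¬ Conn (S \ H) u v

lemma symmDiff_of_subset {S H : Finset (Pair n)} (h : H ⊆ S) : symmDiff S H = S \ H := by
  ext e
  rw [mem_symmDiff, mem_sdiff]
  constructor
  · rintro (h1 | h1)
    · exact h1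
    · exact absurd (h h1.1) h1.2
  · intro h1; exact Or.inl h1

lemma step_caseA {S H : Finset (Pair n)} (hne : H.Nonempty) :
    ncl (symmDiff S H) univ + 1 ≤ ncl S univ + (vset H).card := by
  have h1 := ncl_split (S := S) (H := H) (X := vset H) Subset.rfl
  have h2 := ncl_le_card (symmDiff S H) (vset H)
  have h3 : 1 ≤ ncl S (vset H) := by
    obtain ⟨e, he⟩ := hne
    exact card_pos.2 ⟨_, mem_image_of_mem _ (fst_mem_vset he)⟩
  omega


lemma cls_eq_singleton {S : Finset (Pair n)} {v : Fin n} (hv : v ∉ vset S) : cls S v = {v} := by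
  ext u
  rw [mem_cls, mem_singleton]
  exact ⟨fun h => (Conn.eq_of_notMem hv h).symm, fun h => h ▸ Conn.refl _ _⟩

lemma step_caseB {S H : Finset (Pair n)} {W : Finset (Fin n)} {P : Finset (Finset (Fin n))}
    (hW : vset S ⊆ W) (hH : Blk H) (hSH : (H ∩ S).Nonempty)
    (hP : ∀ K ∈ P, K ⊆ W ∧ ClosedK S K)
    (hdis : ∀ K ∈ P, ∀ K' ∈ P, K ≠ K' → Disjoint K K')
    (hB : ¬ CaseA S H) :
    ncl (symmDiff S H) univ + 2 * (vset H \ W).card +
      (P.filter (fun K => ¬ Disjoint K (vset H))).card + 1 ≤ ncl S univ + (vset H).card := by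
  classical
  set X := vset H with hX
  set U := X ∩ W with hU
  set J := X \ W with hJ
  set S' := symmDiff S H with hS'
  have hsplit : ncl S' univ + ncl S X = ncl S univ + ncl S' X :=
    ncl_split (S := S) (H := H) (X := X) Subset.rfl
  have hcard : U.card + J.card = X.card := card_inter_add_card_sdiff X W
  have : Nonempty (Fin n) := ⟨hSH.choose.1.1⟩
  -- vertices of `J` are isolated in `S`
  have hJiso : ∀ v ∈ J, v ∉ vset S := fun v hv h => (mem_sdiff.1 hv).2 (hW h)
  -- lower bound for the number of classes of `S` meeting `X`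
  have hlow : J.card + (P.filter (fun K => ¬ Disjoint K X)).card ≤ ncl S X := by
    have hchoose : ∀ K ∈ P.filter (fun K => ¬ Disjoint K X), ∃ u, u ∈ K ∧ u ∈ X := by
      intro K hK
      have := (mem_filter.1 hK).2
      rw [not_disjoint_iff] at this
      exact this
    choose! f hf1 hf2 using hchoose
    have hsub : J.image (cls S) ∪ (P.filter (fun K => ¬ Disjoint K X)).image (fun K => cls S (f K))
        ⊆ X.image (cls S) := by
      apply union_subset
      · exact image_subset_image sdiff_subset
      · intro C hC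
        obtain ⟨K, hK, rfl⟩ := mem_image.1 hC
        exact mem_image_of_mem _ (hf2 K hK)
    have hc1 : (J.image (cls S)).card = J.card := by
      apply card_image_of_injOn
      intro u hu v hv huv
      simp only [mem_coe] at hu hv
      rw [cls_eq_singleton (hJiso u hu), cls_eq_singleton (hJiso v hv)] at huv
      exact singleton_injective huv
    have hsubK : ∀ K ∈ P.filter (fun K => ¬ Disjoint K X), cls S (f K) ⊆ K := by
      intro K hK u hu
      have hKP := (mem_filter.1 hK).1
      exact (((hP K hKP).2).conn (mem_cls.1 hu)).1 (hf1 K hK)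
    have hc2 : ((P.filter (fun K => ¬ Disjoint K X)).image (fun K => cls S (f K))).card =
        (P.filter (fun K => ¬ Disjoint K X)).card := by
      apply card_image_of_injOn
      intro K hK K' hK' hKK'
      simp only [mem_coe] at hK hK'
      by_contra hne
      have hd := hdis K (mem_filter.1 hK).1 K' (mem_filter.1 hK').1 hne
      have h1 : f K ∈ K := hf1 K hK
      have h2 : f K ∈ K' := by
        apply hsubK K' hK'
        have : f K ∈ cls S (f K) := self_mem_cls _ _
        simp only at hKK'
        rwa [hKK'] at this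
      exact (disjoint_left.1 hd) h1 h2
    have hdisj : Disjoint (J.image (cls S))
        ((P.filter (fun K => ¬ Disjoint K X)).image (fun K => cls S (f K))) := by
      rw [disjoint_left]
      intro C hC1 hC2
      obtain ⟨v, hv, rfl⟩ := mem_image.1 hC1
      obtain ⟨K, hK, hKe⟩ := mem_image.1 hC2
      have : v ∈ cls S (f K) := by rw [hKe]; exact self_mem_cls _ _
      have hvK := hsubK K hK this
      exact (mem_sdiff.1 hv).2 ((hP K (mem_filter.1 hK).1).1 hvK)
    calc J.card + (P.filter (fun K => ¬ Disjoint K X)).card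
        = (J.image (cls S)).card +
          ((P.filter (fun K => ¬ Disjoint K X)).image (fun K => cls S (f K))).card := by
            rw [hc1, hc2]
      _ = (J.image (cls S) ∪
          (P.filter (fun K => ¬ Disjoint K X)).image (fun K => cls S (f K))).card :=
            (card_union_of_disjoint hdisj).symm
      _ ≤ ncl S X := card_le_card hsub
  -- upper bound for the number of classes of `S'` meeting `X`
  have hup : ncl S' X + 1 ≤ U.card := by
    -- every class meeting `X` meets `U`
    have himg : X.image (cls S') ⊆ U.image (cls S') := by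
      intro C hC
      obtain ⟨y, hy, rfl⟩ := mem_image.1 hC
      by_contra hcon
      have hcon' : ∀ u ∈ U, ¬ Conn S' y u := by
        intro u hu hc
        apply hcon
        rw [mem_image]
        exact ⟨u, hu, (cls_eq_iff.2 hc).symm⟩
      -- then the class is closed under `H`
      obtain ⟨e, he⟩ := hSH
      rw [mem_inter] at he
      have heU : e.1.1 ∈ U := by
        rw [hU, mem_inter]
        exact ⟨fst_mem_vset he.1, hW (fst_mem_vset he.2)⟩
      have hyc : Conn H y e.1.1 := hH.conn hy (fst_mem_vset he.1)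
      have hclosed : ∀ f ∈ H, (Conn S' y f.1.1 ↔ Conn S' y f.1.2) := by
        intro f hf
        by_cases hfS : f ∈ S
        · have h1 : f.1.1 ∈ U := by
            rw [hU, mem_inter]; exact ⟨fst_mem_vset hf, hW (fst_mem_vset hfS)⟩
          have h2 : f.1.2 ∈ U := by
            rw [hU, mem_inter]; exact ⟨snd_mem_vset hf, hW (snd_mem_vset hfS)⟩
          exact ⟨fun h => absurd h (hcon' _ h1), fun h => absurd h (hcon' _ h2)⟩
        · have hfS' : f ∈ S' := by
            rw [hS', mem_symmDiff]; right; exact ⟨hf, hfS⟩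
          exact ⟨fun h => h.trans (Conn.of_mem hfS'), fun h => h.trans (Conn.of_mem hfS').symm⟩
      have := (Conn.closed (G := H) (fun x => Conn S' y x) hclosed hyc).1 (Conn.refl _ _)
      exact hcon' _ heU this
    -- two distinct vertices of `U` are connected in `S'`
    have htwo : ∃ u ∈ U, ∃ v ∈ U, u ≠ v ∧ Conn S' u v := by
      by_cases hHS : H ⊆ S
      · unfold CaseA at hB
        push Not at hB
        obtain ⟨u, hu, v, hv, huv, hc⟩ := hB hHS
        refine ⟨u, ?_, v, ?_, huv, ?_⟩
        · rw [hU, mem_inter]; exact ⟨hu, hW (vset_mono hHS hu)⟩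
        · rw [hU, mem_inter]; exact ⟨hv, hW (vset_mono hHS hv)⟩
        · rw [hS', symmDiff_of_subset hHS]; exact hc
      · have hZ : H ∩ S ≠ H := fun h => hHS (inter_eq_left.1 h)
        obtain ⟨u, hu, v, hv, huv, hc⟩ := hH.2 (H ∩ S) inter_subset_left hSH hZ
        refine ⟨u, ?_, v, ?_, huv, ?_⟩
        · rw [hU, mem_inter]
          exact ⟨vset_mono inter_subset_left hu, hW (vset_mono inter_subset_right hu)⟩
        · rw [hU, mem_inter]
          exact ⟨vset_mono inter_subset_left hv, hW (vset_mono inter_subset_right hv)⟩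
        · refine Conn.mono ?_ hc
          intro f hf
          rw [mem_sdiff, mem_inter] at hf
          rw [hS', mem_symmDiff]
          right
          exact ⟨hf.1, fun h => hf.2 ⟨hf.1, h⟩⟩
    obtain ⟨u, hu, v, hv, huv, hc⟩ := htwo
    have h1 : (U.image (cls S')).card < U.card := by
      apply lt_of_le_of_ne card_image_le
      intro heq
      have hinj := card_image_iff.1 heq
      exact huv (hinj hu hv (cls_eq_iff.2 hc))
    have h2 : ncl S' X ≤ (U.image (cls S')).card := card_le_card himg
    omega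
  omega

/-- Result of adding the graphs of a list to `S` modulo 2. -/
def fin (S : Finset (Pair n)) : List (Pair n × Finset (Pair n)) → Finset (Pair n)
  | [] => S
  | p :: L => fin (symmDiff S p.2) L

/-- All steps of the list that touch `K` remove blocks. -/
def Pure (K : Finset (Fin n)) (S : Finset (Pair n)) : List (Pair n × Finset (Pair n)) → Prop
  | [] => True
  | p :: L => (¬ Disjoint K (vset p.2) → CaseA S p.2) ∧ Pure K (symmDiff S p.2) L

/-- All vertices of the graphs of the list. -/
def lvset : List (Pair n × Finset (Pair n)) → Finset (Fin n)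
  | [] => ∅
  | p :: L => vset p.2 ∪ lvset L

lemma vset_symmDiff_subset (S H : Finset (Pair n)) : vset (symmDiff S H) ⊆ vset S ∪ vset H := by
  intro v hv
  obtain ⟨e, he, h1⟩ := mem_vset.1 hv
  rw [mem_union]
  rcases mem_symmDiff.1 he with h | h
  · exact Or.inl (mem_vset.2 ⟨e, h.1, h1⟩)
  · exact Or.inr (mem_vset.2 ⟨e, h.1, h1⟩)

lemma ClosedK.symmDiff_of_disjoint {S H : Finset (Pair n)} {K : Finset (Fin n)}
    (h : ClosedK S K) (hd : Disjoint K (vset H)) : ClosedK (symmDiff S H) K := by
  intro e he
  rcases mem_symmDiff.1 he with h1 | h1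
  · exact h e h1.1
  · have h2 : e.1.1 ∉ K := fun h3 => (disjoint_left.1 hd) h3 (fst_mem_vset h1.1)
    have h3 : e.1.2 ∉ K := fun h3 => (disjoint_left.1 hd) h3 (snd_mem_vset h1.1)
    exact ⟨fun h4 => absurd h4 h2, fun h4 => absurd h4 h3⟩

lemma ClosedK.mono {S S' : Finset (Pair n)} {K : Finset (Fin n)}
    (h : ClosedK S K) (hs : S' ⊆ S) : ClosedK S' K := fun e he => h e (hs he)

open Classical in
/-- The exponent inequality of the peeling process. -/
lemma peel_ineq (L : List (Pair n × Finset (Pair n))) :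
    ∀ (S : Finset (Pair n)) (W : Finset (Fin n)) (P : Finset (Finset (Fin n))),
    vset S ⊆ W →
    (∀ p ∈ L, Blk p.2 ∧ p.1 ∈ p.2 ∧ p.1 ∈ S) →
    L.Pairwise (fun p q => q.1 ∉ p.2) →
    (∀ K ∈ P, K ⊆ W ∧ ClosedK S K) →
    (∀ K ∈ P, ∀ K' ∈ P, K ≠ K' → Disjoint K K') →
    ncl (fin S L) univ + 2 * (lvset L \ W).card + (P.filter (fun K => ¬ Pure K S L)).card +
      L.length ≤ ncl S univ + (L.map (fun p => (vset p.2).card)).sum := by
  induction L with
  | nil =>
    intro S W P _ _ _ _ _
    simp [fin, lvset, Pure]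
  | cons p L ih =>
    intro S W P hW hL hpair hP hdis
    have hp := hL p (by simp)
    have hpair' := List.pairwise_cons.1 hpair
    have hL' : ∀ q ∈ L, Blk q.2 ∧ q.1 ∈ q.2 ∧ q.1 ∈ symmDiff S p.2 := by
      intro q hq
      have h1 := hL q (by simp [hq])
      refine ⟨h1.1, h1.2.1, ?_⟩
      rw [mem_symmDiff]
      exact Or.inl ⟨h1.2.2, hpair'.1 q hq⟩
    have hSH : (p.2 ∩ S).Nonempty := ⟨p.1, mem_inter.2 ⟨hp.2.1, hp.2.2⟩⟩
    by_cases hA : CaseA S p.2
    · -- a block is removed
      have hsub : symmDiff S p.2 ⊆ S := by rw [symmDiff_of_subset hA.1]; exact sdiff_subset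
      have hstep := step_caseA (S := S) (H := p.2) hp.1.1
      have hih := ih (symmDiff S p.2) W P ((vset_mono hsub).trans hW) hL' hpair'.2
        (fun K hK => ⟨(hP K hK).1, (hP K hK).2.mono hsub⟩) hdis
      have hl : lvset (p :: L) \ W = lvset L \ W := by
        have : vset p.2 \ W = ∅ := by
          rw [sdiff_eq_empty_iff_subset]; exact (vset_mono hA.1).trans hW
        show (vset p.2 ∪ lvset L) \ W = _
        rw [union_sdiff_distrib, this, empty_union]
      have hf : P.filter (fun K => ¬ Pure K S (p :: L)) =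
          P.filter (fun K => ¬ Pure K (symmDiff S p.2) L) := by
        apply filter_congr
        intro K _
        simp [Pure, hA]
      rw [hl, hf]
      simp only [fin, List.length_cons, List.map_cons, List.sum_cons]
      omega
    · have hstep := step_caseB (S := S) (H := p.2) (W := W) (P := P) hW hp.1 hSH hP hdis hA
      set P' := P.filter (fun K => Disjoint K (vset p.2)) with hP'
      have hih := ih (symmDiff S p.2) (W ∪ vset p.2) P'
        ((vset_symmDiff_subset S p.2).trans (union_subset_union hW Subset.rfl)) hL' hpair'.2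
        (fun K hK => ⟨(hP K (mem_filter.1 hK).1).1.trans subset_union_left,
          (hP K (mem_filter.1 hK).1).2.symmDiff_of_disjoint (mem_filter.1 hK).2⟩)
        (fun K hK K' hK' => hdis K (mem_filter.1 hK).1 K' (mem_filter.1 hK').1)
      have hl : (lvset (p :: L) \ W).card ≤ (vset p.2 \ W).card +
          (lvset L \ (W ∪ vset p.2)).card := by
        have : lvset (p :: L) \ W ⊆ (vset p.2 \ W) ∪ (lvset L \ (W ∪ vset p.2)) := by
          intro v hv
          rw [mem_sdiff] at hv
          have h1 : v ∈ vset p.2 ∪ lvset L := hv.1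
          rw [mem_union] at h1
          rw [mem_union, mem_sdiff, mem_sdiff, mem_union]
          by_cases hvp : v ∈ vset p.2
          · exact Or.inl ⟨hvp, hv.2⟩
          · rcases h1 with h1 | h1
            · exact absurd h1 hvp
            · exact Or.inr ⟨h1, fun h => h.elim hv.2 hvp⟩
        exact (card_le_card this).trans (card_union_le _ _)
      have hf : (P.filter (fun K => ¬ Pure K S (p :: L))).card ≤
          (P.filter (fun K => ¬ Disjoint K (vset p.2))).card +
          (P'.filter (fun K => ¬ Pure K (symmDiff S p.2) L)).card := by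
        have : P.filter (fun K => ¬ Pure K S (p :: L)) ⊆
            (P.filter (fun K => ¬ Disjoint K (vset p.2))) ∪
            (P'.filter (fun K => ¬ Pure K (symmDiff S p.2) L)) := by
          intro K hK
          rw [mem_filter] at hK
          rw [mem_union, mem_filter, mem_filter, hP', mem_filter]
          by_cases hd : Disjoint K (vset p.2)
          · right
            refine ⟨⟨hK.1, hd⟩, ?_⟩
            intro hpure
            apply hK.2
            exact ⟨fun h => absurd hd h, hpure⟩
          · left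
            exact ⟨hK.1, hd⟩
        exact (card_le_card this).trans (card_union_le _ _)
      simp only [fin, List.length_cons, List.map_cons, List.sum_cons]
      omega

end Pool.Agent.ColorRef
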