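import Pool.Agent.ColorRef.SumBound2

namespace Pool.Agent.ColorRef

open Finset BigOperators
open scoped Classical

set_option linter.unusedSectionVars false

variable {n : ℕ} {k : ℕ} [NeZero k] (w : ℕ)

lemma Bm_le (hn : 2 ≤ n) (hB : (2 : ℝ) ^ (2 * w ^ 2 + 3) ≤ n) : Bm w n ≤ (n : ℝ) ^ (2 * w + 1) := by
  have hnR : (2 : ℝ) ≤ n := by exact_mod_cast hn
  have h1 : ((n : ℝ) + 1) ^ w ≤ (n : ℝ) ^ (2 * w) := by
    rw [pow_mul]
    gcongr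
    nlinarith
  have h2 : (1 : ℝ) ≤ (n : ℝ) ^ (2 * w) := one_le_pow₀ (by linarith)
  have h3 : (1 : ℝ) ≤ 2 ^ (w ^ 2) := one_le_pow₀ (by norm_num)
  have h4 : (Nst w n : ℝ) ≤ (n : ℝ) ^ (2 * w) * (4 * 2 ^ (w ^ 2)) := by
    unfold Nst
    push_cast
    have h5 : ((n : ℝ) + 1) ^ w * 2 ^ (w ^ 2) ≤ (n : ℝ) ^ (2 * w) * 2 ^ (w ^ 2) := by gcongr
    have h6 : (2 : ℝ) ≤ 2 * ((n : ℝ) ^ (2 * w) * 2 ^ (w ^ 2)) := by
      have : (1 : ℝ) ≤ (n : ℝ) ^ (2 * w) * 2 ^ (w ^ 2) := by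
        calc (1 : ℝ) = 1 * 1 := (one_mul 1).symm
          _ ≤ _ := by gcongr
      linarith
    have h7 : 0 ≤ (n : ℝ) ^ (2 * w) * 2 ^ (w ^ 2) := by positivity
    linarith
  calc Bm w n = Cg w * Nst w n := rfl
    _ ≤ 2 ^ (w ^ 2 + 1) * ((n : ℝ) ^ (2 * w) * (4 * 2 ^ (w ^ 2))) := by
        unfold Cg
        gcongr
    _ = (n : ℝ) ^ (2 * w) * 2 ^ (2 * w ^ 2 + 3) := by
        rw [show 2 * w ^ 2 + 3 = (w ^ 2 + 1) + (w ^ 2) + 2 by ring, pow_add, pow_add]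
        norm_num
        ring
    _ ≤ (n : ℝ) ^ (2 * w) * n := by gcongr
    _ = (n : ℝ) ^ (2 * w + 1) := by rw [pow_succ]

/-- The quantitative lower bound for the second moment. -/
theorem core (hn : 6 ≤ n) (hk : 2 * w ^ 2 ≤ k) (hnk : n ≤ k ^ 2) (D : ℕ) (hD1 : 1 ≤ D)
    (p : ℕ) (hp : p = (2 * w + 3) * D + 3)
    (θ : ℝ) (hθ : Real.exp (2 * Real.sqrt D) ≤ θ) (hyk : Yy w D ≤ k)
    (h1 : (n : ℝ) * θ ^ 4 ≤ ((k : ℝ) / Yy w D) ^ 2)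
    (h2 : ((k : ℝ) / Yy w D) ^ 2 ≤ θ ^ (w + 1))
    (hZ : (Cg w * Nst w (4 * p * w + 2)) ^ 4 ≤ n)
    (hB : (2 : ℝ) ^ (2 * w ^ 2 + 3) ≤ n)
    (F : (Pair n → Bool) → ℝ)
    (hF : ∀ (σ : Fin n → ZMod k) (y : Pair n → Bool), (∀ e, Mono σ e → y e = false) → 1 ≤ F y)
    (hmean : 𝔼 y, F y = 0)
    (hdeg : ∀ S : Finset (Pair n), D < S.card → fh F S = 0) :
    1 / 4 ≤ (𝔼 y, F y ^ 2) * (162 * D * (2 * D + 1) / θ ^ 2 + 18 / n) := by
  have hnR : (6 : ℝ) ≤ n := by exact_mod_cast hn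
  have hn0 : (0 : ℝ) < n := by linarith
  have hn1 : (1 : ℝ) ≤ n := by linarith
  have hp0 := pbad_nonneg (k := k) w n
  set P := pbad k w n with hP
  -- Markov
  have hM := pbad_le (k := k) (n := n) w hk hnk (2 * p)
  rw [← hP] at hM
  have hk2 : (n : ℝ) ^ (2 * p) ≤ (k : ℝ) ^ (2 * (2 * p)) := by
    rw [pow_mul (k : ℝ) 2 (2 * p)]
    have : (n : ℝ) ≤ (k : ℝ) ^ 2 := by exact_mod_cast hnk
    gcongr
  have hZ' : (Cg w * Nst w (2 * (2 * p) * w + 2)) ^ (2 * (2 * p)) ≤ (n : ℝ) ^ p := by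
    have h3 : 2 * (2 * p) = 4 * p := by ring
    rw [h3, pow_mul]
    have hCg := Cg_ge_one w
    gcongr
  have hM2 : P * (n : ℝ) ^ (2 * p) ≤ 3 * (n : ℝ) ^ 2 * (n : ℝ) ^ p := by
    calc P * (n : ℝ) ^ (2 * p) ≤ P * (k : ℝ) ^ (2 * (2 * p)) := by gcongr
      _ ≤ (n : ℝ) ^ 2 * (3 * (Cg w * Nst w (2 * (2 * p) * w + 2)) ^ (2 * (2 * p))) := hM
      _ ≤ (n : ℝ) ^ 2 * (3 * (n : ℝ) ^ p) := by gcongr
      _ = 3 * (n : ℝ) ^ 2 * (n : ℝ) ^ p := by ring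
  have hM3 : P * (n : ℝ) ^ p ≤ 3 * (n : ℝ) ^ 2 := by
    have h3 : (P * (n : ℝ) ^ p) * (n : ℝ) ^ p ≤ (3 * (n : ℝ) ^ 2) * (n : ℝ) ^ p := by
      calc (P * (n : ℝ) ^ p) * (n : ℝ) ^ p = P * (n : ℝ) ^ (2 * p) := by
            rw [two_mul, pow_add]; ring
        _ ≤ _ := hM2
    exact le_of_mul_le_mul_right h3 (by positivity)
  have hPn : P ≤ 3 / n := by
    rw [le_div_iff₀ hn0]
    have h3 : (P * n) * (n : ℝ) ^ 2 ≤ 3 * (n : ℝ) ^ 2 := by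
      calc (P * n) * (n : ℝ) ^ 2 = P * (n : ℝ) ^ 3 := by ring
        _ ≤ P * (n : ℝ) ^ p := by
            gcongr
            omega
        _ ≤ _ := hM3
    exact le_of_mul_le_mul_right h3 (by positivity)
  have hPh : P ≤ 1 / 2 := by
    refine hPn.trans ?_
    rw [div_le_div_iff₀ hn0 (by norm_num)]
    linarith
  -- the error term
  have hE : P ^ 2 * Bm w n ^ (2 * D) * (TD n D).card ≤ 9 / n := by
    have hBm := Bm_le w (by omega : 2 ≤ n) hB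
    have hB0 : 0 ≤ Bm w n := by linarith [Bm_ge_one (n := n) w]
    have hT := card_TD_le2 (by omega : 2 ≤ n) D
    have h3 : Bm w n ^ (2 * D) ≤ (n : ℝ) ^ ((2 * w + 1) * (2 * D)) := by
      rw [pow_mul (n : ℝ)]
      gcongr
    rw [le_div_iff₀ hn0]
    have h4 : (P ^ 2 * Bm w n ^ (2 * D) * (TD n D).card * n) * (n : ℝ) ^ 4 ≤ 9 * (n : ℝ) ^ 4 := by
      calc (P ^ 2 * Bm w n ^ (2 * D) * (TD n D).card * n) * (n : ℝ) ^ 4
          ≤ (P ^ 2 * (n : ℝ) ^ ((2 * w + 1) * (2 * D)) * (n : ℝ) ^ (3 * D) * n) * (n : ℝ) ^ 4 := by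
            gcongr
        _ = P ^ 2 * (n : ℝ) ^ ((2 * w + 1) * (2 * D) + 3 * D + 5) := by
            rw [pow_add, pow_add]; ring
        _ ≤ P ^ 2 * (n : ℝ) ^ (p * 2) := by
            gcongr
            rw [hp]
            have h5 : ((2 * w + 3) * D + 3) * 2 =
              (2 * w + 1) * (2 * D) + 3 * D + 5 + (D + 1) := by ring
            omega
        _ = (P * (n : ℝ) ^ p) ^ 2 := by rw [mul_pow, ← pow_mul]
        _ ≤ (3 * (n : ℝ) ^ 2) ^ 2 := by gcongr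
        _ = 9 * (n : ℝ) ^ 4 := by ring
    exact le_of_mul_le_mul_right h4 (by positivity)
  have hdual := duality (k := k) w hk D F hF hmean hdeg (by rw [← hP]; linarith)
  rw [← hP] at hdual
  have hsum := sum_sq_aco_le2 (k := k) (n := n) w hk D (by omega) hD1 θ hθ hyk h1 h2
  have hnn : 0 ≤ 𝔼 y, F y ^ 2 := expect_nonneg (fun y _ => sq_nonneg _)
  calc (1 : ℝ) / 4 = (1 / 2) ^ 2 := by norm_num
    _ ≤ (1 - P) ^ 2 := by
        apply pow_le_pow_left₀ (by norm_num)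
        linarith
    _ ≤ _ := hdual
    _ ≤ (𝔼 y, F y ^ 2) * (162 * D * (2 * D + 1) / θ ^ 2 + 18 / n) := by
        apply mul_le_mul_of_nonneg_left _ hnn
        have h5 : 162 * (D : ℝ) * (2 * D + 1) / θ ^ 2 = 2 * (81 * D * (2 * D + 1) / θ ^ 2) := by
          ring
        have h6 : (18 : ℝ) / n = 2 * (9 / n) := by ring
        rw [h5, h6]
        linarith

end Pool.Agent.ColorRef
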