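import Pool.Agent.ColorRef.Bound

namespace Pool.Agent.ColorRef

open Finset BigOperators
open scoped Classical

set_option linter.unusedSectionVars false

variable {n : ℕ} {k : ℕ} [NeZero k] (w : ℕ)

/-- Weight bound for a configuration that is not pure at small classes. -/
lemma abs_wt_exp_le {S : Finset (Pair n)} {φ : Pair n → St n} (hk : 2 * w ^ 2 ≤ k)
    (hv : Valid w S φ) (hnp : ∀ K ∈ ccl S, K.card ≤ w → ¬ Pure K S (Lst S φ)) :
    |wt k w S φ| * (k : ℝ) ^ ((vset S).card + 2 * (Iset S φ).card) ≤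
      Cg w ^ S.card * (k : ℝ) ^ (lcl w S).card := by
  have hk0 := kpos (k := k)
  have hk1 : (1 : ℝ) ≤ k := by
    have := NeZero.pos k
    exact_mod_cast this
  set T := Tset S φ with hT
  set Sg := ∑ e ∈ T, (vset (hs (φ e))).card with hSg
  have h1 := abs_wt_le (k := k) w S φ
  have h2 : (∏ e ∈ T, |gco k (hs (φ e))|) * (k : ℝ) ^ Sg ≤ (Cg w * k) ^ T.card := by
    rw [hSg, ← prod_pow_eq_pow_sum, ← prod_mul_distrib, ← prod_const]
    apply prod_le_prod
    · intro e _; positivity
    · intro e he; exact gco_bound w (hv.gadm e he).1 hk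
  have h3 : pm k (Mset S φ) * (k : ℝ) ^ n ≤ (k : ℝ) ^ (ncl (Mset S φ) univ) := by
    have := pm_le k (Mset S φ)
    rwa [le_div_iff₀ (by positivity)] at this
  have h4 := hv.exponent w hnp
  have hTS : T.card ≤ S.card := card_le_card (filter_subset _ _)
  have hC := Cg_ge_one w
  have hkey : |wt k w S φ| * (k : ℝ) ^ ((vset S).card + 2 * (Iset S φ).card) *
      (k : ℝ) ^ (n + Sg) ≤ Cg w ^ S.card * (k : ℝ) ^ (lcl w S).card * (k : ℝ) ^ (n + Sg) := by
    calc |wt k w S φ| * (k : ℝ) ^ ((vset S).card + 2 * (Iset S φ).card) * (k : ℝ) ^ (n + Sg)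
        ≤ ((∏ e ∈ T, |gco k (hs (φ e))|) * pm k (Mset S φ)) *
          (k : ℝ) ^ ((vset S).card + 2 * (Iset S φ).card) * (k : ℝ) ^ (n + Sg) := by gcongr
      _ = ((∏ e ∈ T, |gco k (hs (φ e))|) * (k : ℝ) ^ Sg) * (pm k (Mset S φ) * (k : ℝ) ^ n) *
          (k : ℝ) ^ ((vset S).card + 2 * (Iset S φ).card) := by
          rw [pow_add (k : ℝ) n Sg]; ring
      _ ≤ (Cg w * k) ^ T.card * (k : ℝ) ^ (ncl (Mset S φ) univ) *
          (k : ℝ) ^ ((vset S).card + 2 * (Iset S φ).card) := by
          have hnn : 0 ≤ pm k (Mset S φ) * (k : ℝ) ^ n :=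
            mul_nonneg (pm_nonneg k _) (by positivity)
          gcongr
      _ = Cg w ^ T.card * (k : ℝ) ^ (ncl (Mset S φ) univ + 2 * (Iset S φ).card + T.card +
          (vset S).card) := by
          rw [mul_pow, pow_add, pow_add, pow_add, pow_add]; ring
      _ ≤ Cg w ^ S.card * (k : ℝ) ^ (n + (lcl w S).card + Sg) := by
          gcongr
      _ = Cg w ^ S.card * (k : ℝ) ^ (lcl w S).card * (k : ℝ) ^ (n + Sg) := by
          rw [pow_add, pow_add, pow_add]; ring
  exact le_of_mul_le_mul_right hkey (by positivity)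

/-- The number of small subsets of a set. -/
lemma card_small_subsets_le (W : Finset (Fin n)) :
    (W.powerset.filter (fun X => X.card ≤ w)).card ≤ (W.card + 1) ^ w := by
  have h1 : W.powerset.filter (fun X => X.card ≤ w) ⊆
      (range (w + 1)).biUnion (fun j => powersetCard j W) := by
    intro X hX
    rw [mem_filter, mem_powerset] at hX
    rw [mem_biUnion]
    exact ⟨X.card, by rw [mem_range]; omega, by rw [mem_powersetCard]; exact ⟨hX.1, rfl⟩⟩
  calc (W.powerset.filter (fun X => X.card ≤ w)).card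
      ≤ ∑ j ∈ range (w + 1), (powersetCard j W).card :=
        (card_le_card h1).trans card_biUnion_le
    _ ≤ ∑ j ∈ range (w + 1), W.card ^ j * 1 ^ (w - j) * w.choose j := by
        apply sum_le_sum
        intro j hj
        rw [card_powersetCard, one_pow, mul_one]
        have h2 : 1 ≤ w.choose j := Nat.choose_pos (by rw [mem_range] at hj; omega)
        calc W.card.choose j ≤ W.card ^ j := Nat.choose_le_pow _ _
          _ = W.card ^ j * 1 := (mul_one _).symm
          _ ≤ W.card ^ j * w.choose j := Nat.mul_le_mul_left _ h2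
    _ = (W.card + 1) ^ w := by rw [add_pow]; simp

/-- The number of gadgets inside a vertex set. -/
lemma card_gad_inside_le (W : Finset (Fin n)) :
    ((gad n w).filter (fun H => vset H ⊆ W)).card ≤ (W.card + 1) ^ w * 2 ^ (w ^ 2) := by
  have h1 : (gad n w).filter (fun H => vset H ⊆ W) ⊆
      (W.powerset.filter (fun X => X.card ≤ w)).biUnion (fun X => (inside X).powerset) := by
    intro H hH
    rw [mem_filter, mem_gad] at hH
    rw [mem_biUnion]
    refine ⟨vset H, ?_, ?_⟩
    · rw [mem_filter, mem_powerset]; exact ⟨hH.2, hH.1.2⟩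
    · rw [mem_powerset]; exact subset_inside H
  refine (card_le_card h1).trans ?_
  refine (card_biUnion_le_card_mul _ _ (2 ^ (w ^ 2)) ?_).trans ?_
  · intro X hX
    rw [card_powerset]
    apply Nat.pow_le_pow_right (by norm_num)
    calc (inside X).card ≤ X.card ^ 2 := card_inside_le X
      _ ≤ w ^ 2 := Nat.pow_le_pow_left (mem_filter.1 hX).2 2
  · exact Nat.mul_le_mul_right _ (card_small_subsets_le w W)

/-- Bound for the number of states inside a vertex set of size `m`. -/
def Nst (w m : ℕ) : ℕ := 2 + (m + 1) ^ w * 2 ^ (w ^ 2)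

lemma Nst_mono {m m' : ℕ} (h : m ≤ m') : Nst w m ≤ Nst w m' := by
  unfold Nst
  gcongr

/-- The states whose gadget lies inside `W`. -/
noncomputable def Sts (w : ℕ) (W : Finset (Fin n)) : Finset (St n) :=
  {none, some none} ∪
    ((gad n w).filter (fun H => vset H ⊆ W)).image (fun H => (some (some H) : St n))

lemma card_Sts_le (W : Finset (Fin n)) : (Sts w W).card ≤ Nst w W.card := by
  unfold Sts Nst
  refine (card_union_le _ _).trans ?_
  have h1 : ({none, some none} : Finset (St n)).card ≤ 2 := card_le_two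
  have h2 := card_gad_inside_le w W
  have h3 : (((gad n w).filter (fun H => vset H ⊆ W)).image
      (fun H => (some (some H) : St n))).card ≤
      ((gad n w).filter (fun H => vset H ⊆ W)).card := card_image_le
  omega

lemma card_vset_le (S : Finset (Pair n)) : (vset S).card ≤ 2 * S.card := by
  unfold vset
  refine (card_biUnion_le_card_mul _ _ 2 ?_).trans ?_
  · intro e _; exact card_le_two
  · rw [mul_comm]

lemma card_lvset_le {S : Finset (Pair n)} {φ : Pair n → St n} (hv : Valid w S φ) :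
    (lvset (Lst S φ)).card ≤ w * S.card := by
  have h1 : lvset (Lst S φ) ⊆ (Tset S φ).biUnion (fun e => vset (hs (φ e))) := by
    intro v hvv
    obtain ⟨p, hp, hvp⟩ := mem_lvset.1 hvv
    obtain ⟨e, he, rfl⟩ := mem_Lst.1 hp
    exact mem_biUnion.2 ⟨e, he, hvp⟩
  refine (card_le_card h1).trans ?_
  refine (card_biUnion_le_card_mul _ _ w ?_).trans ?_
  · intro e he
    exact (mem_gad.1 (hv.gadm e he).1).2
  · rw [mul_comm]
    exact Nat.mul_le_mul_left _ (card_le_card (filter_subset _ _))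

/-- The valid configurations with a given set of extra vertices are few. -/
lemma card_valid_le (S : Finset (Pair n)) (I : Finset (Fin n)) (D : ℕ) (hD : S.card ≤ D) :
    ((Phi S).filter (fun φ => Valid w S φ ∧ Iset S φ = I)).card ≤
      (Nst w ((w + 2) * D)) ^ S.card := by
  by_cases hI : I.card ≤ w * D
  · have h1 : (Phi S).filter (fun φ => Valid w S φ ∧ Iset S φ = I) ⊆
        Fintype.piFinset (fun e => if e ∈ S then Sts w (vset S ∪ I) else {none}) := by
      intro φ hφ
      rw [mem_filter, mem_Phi] at hφ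
      obtain ⟨h0, hv, hI'⟩ := hφ
      rw [Fintype.mem_piFinset]
      intro e
      by_cases he : e ∈ S
      · rw [if_pos he]
        unfold Sts
        rcases hφe : φ e with _ | _ | H
        · simp
        · simp
        · rw [mem_union]; right
          rw [mem_image]
          refine ⟨H, ?_, rfl⟩
          have heT : e ∈ Tset S φ := mem_filter.2 ⟨he, H, hφe⟩
          have h2 := (hv.gadm e heT).1
          have h3 : vset H ⊆ vset S ∪ I := by
            intro v hvH
            rw [mem_union]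
            by_cases hvS : v ∈ vset S
            · exact Or.inl hvS
            · right
              rw [← hI', Iset, mem_sdiff]
              refine ⟨mem_lvset.2 ⟨(e, hs (φ e)), mem_Lst.2 ⟨e, heT, rfl⟩, ?_⟩, hvS⟩
              rw [hφe]; exact hvH
          rw [hφe] at h2
          exact mem_filter.2 ⟨h2, h3⟩
      · rw [if_neg he, h0 e he]; exact mem_singleton_self _
    refine (card_le_card h1).trans ?_
    rw [Fintype.card_piFinset]
    have h4 : ∏ e : Pair n, ((if e ∈ S then Sts w (vset S ∪ I) else {none}) :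
        Finset (St n)).card = ∏ e ∈ S, (Sts w (vset S ∪ I)).card := by
      rw [← prod_filter_mul_prod_filter_not univ (fun e => e ∈ S)]
      have h5 : ∏ e ∈ univ.filter (fun e : Pair n => e ∉ S),
          ((if e ∈ S then Sts w (vset S ∪ I) else {none}) : Finset (St n)).card = 1 := by
        apply prod_eq_one
        intro e he
        rw [if_neg (mem_filter.1 he).2, card_singleton]
      rw [h5, mul_one]
      have h6 : univ.filter (fun e => e ∈ S) = S := by simp
      rw [h6]
      apply prod_congr rfl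
      intro e he
      rw [if_pos he]
    rw [h4, prod_const]
    apply Nat.pow_le_pow_left
    refine (card_Sts_le w _).trans (Nst_mono w ?_)
    calc (vset S ∪ I).card ≤ (vset S).card + I.card := card_union_le _ _
      _ ≤ 2 * D + w * D := by
          have := card_vset_le S
          omega
      _ = (w + 2) * D := by ring
  · have h1 : (Phi S).filter (fun φ => Valid w S φ ∧ Iset S φ = I) = ∅ := by
      rw [filter_eq_empty_iff]
      rintro φ - ⟨hv, hI'⟩
      apply hI
      rw [← hI']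
      calc (Iset S φ).card ≤ (lvset (Lst S φ)).card := card_le_card sdiff_subset
        _ ≤ w * S.card := card_lvset_le w hv
        _ ≤ w * D := Nat.mul_le_mul_left _ hD
    rw [h1]; simp

/-- Summation over the sets of extra vertices. -/
lemma sum_extra_le (hn : n ≤ k ^ 2) :
    ∑ I : Finset (Fin n), (1 / (k : ℝ) ^ 2) ^ I.card ≤ 3 := by
  have hk0 := kpos (k := k)
  have h1 : ∑ I : Finset (Fin n), (1 / (k : ℝ) ^ 2) ^ I.card = (1 / (k : ℝ) ^ 2 + 1) ^ n := by
    have := sum_pow_mul_eq_add_pow (1 / (k : ℝ) ^ 2) 1 (univ : Finset (Fin n))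
    rw [card_univ, Fintype.card_fin, powerset_univ] at this
    rw [← this]
    apply sum_congr rfl
    intro I _
    rw [one_pow, mul_one]
  rw [h1]
  calc (1 / (k : ℝ) ^ 2 + 1) ^ n ≤ (Real.exp (1 / (k : ℝ) ^ 2)) ^ n := by
        gcongr
        exact Real.add_one_le_exp _
    _ = Real.exp (n * (1 / (k : ℝ) ^ 2)) := by rw [← Real.exp_nat_mul]
    _ ≤ Real.exp 1 := by
        apply Real.exp_le_exp.2
        rw [mul_one_div, div_le_one (by positivity)]
        exact_mod_cast hn
    _ ≤ 3 := Real.exp_one_lt_three.le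

/-- Main coefficient bound. -/
theorem abs_aco_le {S : Finset (Pair n)} (hk : 2 * w ^ 2 ≤ k) (hn : n ≤ k ^ 2) (D : ℕ)
    (hD : S.card ≤ D) :
    |aco k w S| * (k : ℝ) ^ (vset S).card ≤
      3 * (Cg w * Nst w ((w + 2) * D)) ^ S.card * (k : ℝ) ^ (lcl w S).card := by
  have hk0 := kpos (k := k)
  -- designated blocks
  have hex : ∀ K : {K // K ∈ ccl S}, ∃ B ⊆ S, Blk B ∧ vset B ⊆ K.1 ∧
      ∀ u ∈ vset B, ∀ v ∈ vset B, u ≠ v → ¬ Conn (S \ B) u v :=
    fun K => exists_block_class K.2
  choose β hβ1 hβ2 hβ3 hβ4 using hex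
  let Bs : Finset (Finset (Pair n)) :=
    ((ccl S).attach.filter (fun K => K.1.card ≤ w)).image β
  have hBs : ∀ B ∈ Bs, B ⊆ S ∧ B ∈ gad n w := by
    intro B hB
    obtain ⟨K, hK, rfl⟩ := mem_image.1 hB
    refine ⟨hβ1 K, mem_gad.2 ⟨hβ2 K, ?_⟩⟩
    exact (card_le_card (hβ3 K)).trans (mem_filter.1 hK).2
  have hdis : ∀ B ∈ Bs, ∀ B' ∈ Bs, B ≠ B' → Disjoint B B' := by
    intro B hB B' hB' hne
    obtain ⟨K, hK, rfl⟩ := mem_image.1 hB
    obtain ⟨K', hK', rfl⟩ := mem_image.1 hB'
    have hKK : K.1 ≠ K'.1 := fun h => hne (by rw [Subtype.ext h])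
    have hd := ccl_disjoint K.2 K'.2 hKK
    rw [disjoint_left]
    intro e he he'
    exact (disjoint_left.1 hd) (hβ3 K (fst_mem_vset he)) (hβ3 K' (fst_mem_vset he'))
  have h1 := aco_eq_nonclean (k := k) w hk Bs hBs hdis
  have hbound : ∀ φ ∈ (Phi S).filter (fun φ => ∀ B ∈ Bs, ¬ Clean S φ B),
      |wt k w S φ| * (k : ℝ) ^ (vset S).card ≤
      (if Valid w S φ then (Cg w ^ S.card * (k : ℝ) ^ (lcl w S).card) *
        (1 / (k : ℝ) ^ 2) ^ (Iset S φ).card else 0) := by
    intro φ hφ
    rw [mem_filter] at hφ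
    by_cases hwt : wt k w S φ = 0
    · rw [hwt, abs_zero, zero_mul]
      have := Cg_ge_one w
      split_ifs <;> positivity
    · have hv := valid_of_wt_ne_zero (k := k) w hwt
      rw [if_pos hv]
      have hnp : ∀ K ∈ ccl S, K.card ≤ w → ¬ Pure K S (Lst S φ) := by
        intro K hK hKw hpure
        have hB : β ⟨K, hK⟩ ∈ Bs := by
          apply mem_image_of_mem
          rw [mem_filter]
          exact ⟨mem_attach _ _, hKw⟩
        exact hφ.2 _ hB (hv.clean_of_pure w hK (hβ1 ⟨K, hK⟩) (hβ2 ⟨K, hK⟩) (hβ3 ⟨K, hK⟩)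
          (hβ4 ⟨K, hK⟩) hpure)
      have h2 := abs_wt_exp_le w hk hv hnp
      rw [one_div, inv_pow, ← pow_mul, ← div_eq_mul_inv, le_div_iff₀ (by positivity)]
      rw [pow_add] at h2
      linarith [h2]
  have h2 : |aco k w S| * (k : ℝ) ^ (vset S).card ≤
      ∑ φ ∈ (Phi S).filter (fun φ => ∀ B ∈ Bs, ¬ Clean S φ B),
      (if Valid w S φ then (Cg w ^ S.card * (k : ℝ) ^ (lcl w S).card) *
        (1 / (k : ℝ) ^ 2) ^ (Iset S φ).card else 0) := by
    rw [h1]
    calc |∑ φ ∈ (Phi S).filter (fun φ => ∀ B ∈ Bs, ¬ Clean S φ B), wt k w S φ| *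
          (k : ℝ) ^ (vset S).card
        ≤ (∑ φ ∈ (Phi S).filter (fun φ => ∀ B ∈ Bs, ¬ Clean S φ B), |wt k w S φ|) *
          (k : ℝ) ^ (vset S).card := by
          gcongr
          exact abs_sum_le_sum_abs _ _
      _ = ∑ φ ∈ (Phi S).filter (fun φ => ∀ B ∈ Bs, ¬ Clean S φ B), |wt k w S φ| *
          (k : ℝ) ^ (vset S).card := by rw [sum_mul]
      _ ≤ _ := sum_le_sum hbound
  have hCC : 0 ≤ Cg w ^ S.card * (k : ℝ) ^ (lcl w S).card := by
    have := Cg_ge_one w
    positivity
  have h3 : ∑ φ ∈ (Phi S).filter (fun φ => ∀ B ∈ Bs, ¬ Clean S φ B),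
      (if Valid w S φ then (Cg w ^ S.card * (k : ℝ) ^ (lcl w S).card) *
        (1 / (k : ℝ) ^ 2) ^ (Iset S φ).card else 0) ≤
      ∑ φ ∈ Phi S,
      (if Valid w S φ then (Cg w ^ S.card * (k : ℝ) ^ (lcl w S).card) *
        (1 / (k : ℝ) ^ 2) ^ (Iset S φ).card else 0) := by
    apply sum_le_sum_of_subset_of_nonneg (filter_subset _ _)
    intro φ _ _
    split_ifs
    · positivity
    · exact le_rfl
  have h4 : ∑ φ ∈ Phi S,
      (if Valid w S φ then (Cg w ^ S.card * (k : ℝ) ^ (lcl w S).card) *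
        (1 / (k : ℝ) ^ 2) ^ (Iset S φ).card else 0) =
      ∑ I : Finset (Fin n), ∑ φ ∈ (Phi S).filter (fun φ => Valid w S φ ∧ Iset S φ = I),
        (Cg w ^ S.card * (k : ℝ) ^ (lcl w S).card) * (1 / (k : ℝ) ^ 2) ^ I.card := by
    rw [← sum_filter]
    rw [← sum_fiberwise_of_maps_to (s := (Phi S).filter (fun φ => Valid w S φ))
      (t := (univ : Finset (Finset (Fin n)))) (g := fun φ => Iset S φ) (fun _ _ => mem_univ _)]
    apply sum_congr rfl
    intro I _
    rw [filter_filter]
    apply sum_congr rfl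
    intro φ hφ
    rw [(mem_filter.1 hφ).2.2]
  have h5 : ∑ I : Finset (Fin n), ∑ φ ∈ (Phi S).filter (fun φ => Valid w S φ ∧ Iset S φ = I),
        (Cg w ^ S.card * (k : ℝ) ^ (lcl w S).card) * (1 / (k : ℝ) ^ 2) ^ I.card ≤
      ∑ I : Finset (Fin n), ((Nst w ((w + 2) * D) : ℕ) : ℝ) ^ S.card *
        ((Cg w ^ S.card * (k : ℝ) ^ (lcl w S).card) * (1 / (k : ℝ) ^ 2) ^ I.card) := by
    apply sum_le_sum
    intro I _
    rw [sum_const, nsmul_eq_mul]
    apply mul_le_mul_of_nonneg_right _ (by positivity)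
    exact_mod_cast card_valid_le w S I D hD
  calc |aco k w S| * (k : ℝ) ^ (vset S).card
      ≤ ∑ I : Finset (Fin n), ((Nst w ((w + 2) * D) : ℕ) : ℝ) ^ S.card *
        ((Cg w ^ S.card * (k : ℝ) ^ (lcl w S).card) * (1 / (k : ℝ) ^ 2) ^ I.card) := by
        refine h2.trans (h3.trans ?_)
        rw [h4]; exact h5
    _ = (((Nst w ((w + 2) * D) : ℕ) : ℝ) ^ S.card * (Cg w ^ S.card *
        (k : ℝ) ^ (lcl w S).card)) * ∑ I : Finset (Fin n), (1 / (k : ℝ) ^ 2) ^ I.card := by
        rw [mul_sum]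
        apply sum_congr rfl
        intro I _; ring
    _ ≤ (((Nst w ((w + 2) * D) : ℕ) : ℝ) ^ S.card * (Cg w ^ S.card *
        (k : ℝ) ^ (lcl w S).card)) * 3 := by
        apply mul_le_mul_of_nonneg_left (sum_extra_le hn) (by positivity)
    _ = 3 * (Cg w * Nst w ((w + 2) * D)) ^ S.card * (k : ℝ) ^ (lcl w S).card := by
        rw [mul_pow]; ring

end Pool.Agent.ColorRef
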