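import Pool.Agent.ColorRef.Moment

namespace Pool.Agent.ColorRef

open Finset BigOperators
open scoped Classical

set_option linter.unusedSectionVars false

variable {n : ℕ} {k : ℕ} [NeZero k] (w : ℕ)

/-- Fourier coefficient of a function on the cube. -/
noncomputable def fh (F : (Pair n → Bool) → ℝ) (S : Finset (Pair n)) : ℝ :=
  𝔼 y : Pair n → Bool, F y * chi S y

/-- Multilinear extension. -/
noncomputable def mle (F : (Pair n → Bool) → ℝ) (m : Pair n → ℝ) : ℝ :=
  𝔼 y : Pair n → Bool, F y * ∏ e, (1 + sg (y e) * m e)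

lemma mle_eq (F : (Pair n → Bool) → ℝ) (m : Pair n → ℝ) :
    mle F m = ∑ S : Finset (Pair n), fh F S * ∏ e ∈ S, m e := by
  unfold mle fh
  have h1 : ∀ y : Pair n → Bool, F y * ∏ e, (1 + sg (y e) * m e) =
      ∑ S : Finset (Pair n), (F y * chi S y) * ∏ e ∈ S, m e := by
    intro y
    rw [prod_one_add, mul_sum, powerset_univ]
    apply sum_congr rfl
    intro S _
    rw [prod_mul_distrib, chi]; ring
  simp only [h1]
  rw [expect_sum_comm]
  simp only [← expect_mul]

lemma expect_prod_one_add (m : Pair n → ℝ) :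
    𝔼 y : Pair n → Bool, ∏ e, (1 + sg (y e) * m e) = 1 := by
  rw [Fintype.expect_eq_sum_div_card]
  have h1 : ∑ y : Pair n → Bool, ∏ e, (1 + sg (y e) * m e) =
      ∏ e : Pair n, ∑ b : Bool, (1 + sg b * m e) := by
    rw [prod_univ_sum, Fintype.piFinset_univ]
  rw [h1]
  have h2 : ∀ e : Pair n, ∑ b : Bool, (1 + sg b * m e) = 2 := by
    intro e
    rw [Fintype.sum_bool]
    simp only [sg, if_true, Bool.false_eq_true, if_false]
    ring
  simp only [h2]
  rw [prod_const, card_univ, Fintype.card_fun, Fintype.card_bool]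
  push_cast
  rw [div_self]
  positivity

/-- Lower bound for the multilinear extension at a point of the cube that forbids the
monochromatic edges. -/
lemma one_le_mle (F : (Pair n → Bool) → ℝ) (σ : Fin n → ZMod k)
    (hF : ∀ y : Pair n → Bool, (∀ e, Mono σ e → y e = false) → 1 ≤ F y)
    (m : Pair n → ℝ) (hm : ∀ e, |m e| ≤ 1) (hσ : ∀ e, Mono σ e → m e = -1) :
    1 ≤ mle F m := by
  have hnn : ∀ y : Pair n → Bool, 0 ≤ ∏ e, (1 + sg (y e) * m e) := by
    intro y
    apply prod_nonneg
    intro e _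
    have h1 : |sg (y e) * m e| ≤ 1 := by
      rw [abs_mul, abs_sg, one_mul]; exact hm e
    linarith [(abs_le.1 h1).1]
  calc (1 : ℝ) = 𝔼 y : Pair n → Bool, ∏ e, (1 + sg (y e) * m e) :=
        (expect_prod_one_add m).symm
    _ ≤ mle F m := by
        unfold mle
        apply expect_le_expect
        intro y _
        by_cases hy : ∀ e, Mono σ e → y e = false
        · calc ∏ e, (1 + sg (y e) * m e) = 1 * ∏ e, (1 + sg (y e) * m e) := (one_mul _).symm
            _ ≤ _ := mul_le_mul_of_nonneg_right (hF y hy) (hnn y)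
        · push Not at hy
          obtain ⟨e, he, hye⟩ := hy
          have hye' : y e = true := by simpa using hye
          have h0 : ∏ e, (1 + sg (y e) * m e) = 0 := by
            apply prod_eq_zero (mem_univ e)
            rw [hye', hσ e he]
            simp [sg]
          rw [h0, mul_zero]

/-- The good event. -/
def Good (σ : Fin n → ZMod k) (R : Finset (Pair n)) (x : Pair n → Bool) : Prop :=
  ∀ e, |bf w σ R x e| ≤ 1

variable (k) in
/-- Probability of the bad event. -/
noncomputable def pbad (n : ℕ) : ℝ :=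
  𝔼 σ : Fin n → ZMod k, 𝔼 R : Finset (Pair n), 𝔼 x : Pair n → Bool,
    if Good w σ R x then (0 : ℝ) else 1

/-- Triple expectation. -/
noncomputable def EE (g : (Fin n → ZMod k) → Finset (Pair n) → (Pair n → Bool) → ℝ) : ℝ :=
  𝔼 σ : Fin n → ZMod k, 𝔼 R : Finset (Pair n), 𝔼 x : Pair n → Bool, g σ R x

lemma EE_le {g g' : (Fin n → ZMod k) → Finset (Pair n) → (Pair n → Bool) → ℝ}
    (h : ∀ σ R x, g σ R x ≤ g' σ R x) : EE g ≤ EE g' :=
  expect_le_expect (fun σ _ => expect_le_expect (fun R _ => expect_le_expect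
    (fun x _ => h σ R x)))

lemma EE_sub (g g' : (Fin n → ZMod k) → Finset (Pair n) → (Pair n → Bool) → ℝ) :
    EE (fun σ R x => g σ R x - g' σ R x) = EE g - EE g' := by
  simp only [EE, expect_sub_distrib]

lemma EE_const (c : ℝ) :
    EE (fun (_ : Fin n → ZMod k) (_ : Finset (Pair n)) (_ : Pair n → Bool) => c) = c := by
  simp [EE]

lemma EE_sum {ι : Type*} (s : Finset ι)
    (g : ι → (Fin n → ZMod k) → Finset (Pair n) → (Pair n → Bool) → ℝ) :
    EE (fun σ R x => ∑ i ∈ s, g i σ R x) = ∑ i ∈ s, EE (g i) := by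
  simp only [EE, expect_sum_comm]

lemma EE_mul (c : ℝ) (g : (Fin n → ZMod k) → Finset (Pair n) → (Pair n → Bool) → ℝ) :
    EE (fun σ R x => c * g σ R x) = c * EE g := by
  simp only [EE, mul_expect]

lemma abs_EE_le (g : (Fin n → ZMod k) → Finset (Pair n) → (Pair n → Bool) → ℝ) :
    |EE g| ≤ EE (fun σ R x => |g σ R x|) := by
  rw [abs_le]
  constructor
  · have h1 : EE (fun σ R x => -1 * |g σ R x|) ≤ EE g :=
      EE_le (fun σ R x => by linarith [neg_abs_le (g σ R x)])
    rw [EE_mul] at h1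
    linarith
  · exact EE_le (fun σ R x => le_abs_self _)

lemma pbad_eq (n : ℕ) : pbad k w n = EE (fun σ R x => if Good (k := k) (n := n) w σ R x then (0 : ℝ) else 1) := rfl

lemma pbad_nonneg (n : ℕ) : 0 ≤ pbad k w n := by
  rw [pbad_eq]
  have := EE_le (k := k) (n := n) (g := fun _ _ _ => 0)
    (g' := fun σ R x => if Good w σ R x then (0 : ℝ) else 1)
    (fun σ R x => by split_ifs <;> norm_num)
  rwa [EE_const] at this

/-- Markov bound for the bad event. -/
lemma pbad_le (hk : 2 * w ^ 2 ≤ k) (hn : n ≤ k ^ 2) (q : ℕ) :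
    pbad k w n * (k : ℝ) ^ (2 * q) ≤
      (n : ℝ) ^ 2 * (3 * (Cg w * Nst w (2 * q * w + 2)) ^ (2 * q)) := by
  have hk0 := kpos (k := k)
  have h1 : pbad k w n ≤ EE (k := k) (n := n) (fun σ R x => ∑ e : Pair n, (bf w σ R x e) ^ (2 * q)) := by
    rw [pbad_eq]
    apply EE_le
    intro σ R x
    split_ifs with hg
    · exact sum_nonneg (fun e _ => by rw [pow_mul]; positivity)
    · unfold Good at hg
      push Not at hg
      obtain ⟨e, he⟩ := hg
      have h2 : (1 : ℝ) ≤ (bf w σ R x e) ^ (2 * q) := by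
        rw [pow_mul, ← sq_abs, ← pow_mul]
        exact one_le_pow₀ he.le
      refine h2.trans ?_
      exact single_le_sum (f := fun e => (bf w σ R x e) ^ (2 * q))
        (fun e _ => by rw [pow_mul]; positivity) (mem_univ e)
  have h3 : EE (k := k) (n := n) (fun σ R x => ∑ e : Pair n, (bf w σ R x e) ^ (2 * q)) * (k : ℝ) ^ (2 * q) ≤
      ∑ e : Pair n, (3 * (Cg w * Nst w (2 * q * w + 2)) ^ (2 * q)) := by
    rw [EE_sum, sum_mul]
    apply sum_le_sum
    intro e _
    have h4 : EE (k := k) (n := n) (fun σ R x => (bf w σ R x e) ^ (2 * q)) * (k : ℝ) ^ (2 * q) =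
        𝔼 σ : Fin n → ZMod k, 𝔼 R : Finset (Pair n),
          ((𝔼 x : Pair n → Bool, (bf w σ R x e) ^ (2 * q)) * (k : ℝ) ^ (2 * q)) := by
      simp only [EE, expect_mul]
    rw [h4]
    calc 𝔼 σ : Fin n → ZMod k, 𝔼 R : Finset (Pair n),
          ((𝔼 x : Pair n → Bool, (bf w σ R x e) ^ (2 * q)) * (k : ℝ) ^ (2 * q))
        ≤ 𝔼 σ : Fin n → ZMod k, 𝔼 R : Finset (Pair n),
          (3 * (Cg w * Nst w (2 * q * w + 2)) ^ (2 * q)) :=
          expect_le_expect (fun σ _ => expect_le_expect (fun R _ =>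
            moment_bf w hk hn σ R e (2 * q)))
      _ = _ := by simp
  rw [sum_const, nsmul_eq_mul, card_univ] at h3
  have h5 : (Fintype.card (Pair n) : ℝ) ≤ (n : ℝ) ^ 2 := by
    have h6 : Fintype.card (Pair n) ≤ n ^ 2 := by
      calc Fintype.card (Pair n) ≤ Fintype.card (Fin n × Fin n) :=
            Fintype.card_le_of_injective _ Subtype.val_injective
        _ = n ^ 2 := by rw [Fintype.card_prod, Fintype.card_fin]; ring
    exact_mod_cast h6
  have hCg := Cg_ge_one w
  calc pbad k w n * (k : ℝ) ^ (2 * q)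
      ≤ EE (k := k) (n := n) (fun σ R x => ∑ e : Pair n, (bf w σ R x e) ^ (2 * q)) * (k : ℝ) ^ (2 * q) := by
        gcongr
    _ ≤ _ := h3
    _ ≤ _ := by gcongr

/-- A crude bound for the response field. -/
noncomputable def Bm (w n : ℕ) : ℝ := Cg w * Nst w n

lemma Bm_ge_one : 1 ≤ Bm w n := by
  unfold Bm
  have h1 := Cg_ge_one w
  have h2 : (1 : ℝ) ≤ Nst w n := by
    unfold Nst
    push_cast
    have : (0 : ℝ) ≤ ((n : ℝ) + 1) ^ w * 2 ^ (w ^ 2) := by positivity
    linarith
  calc (1 : ℝ) = 1 * 1 := (one_mul 1).symm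
    _ ≤ _ := mul_le_mul h1 h2 (by norm_num) (by linarith)

lemma abs_bf_le (hk : 2 * w ^ 2 ≤ k) (σ : Fin n → ZMod k) (R : Finset (Pair n))
    (x : Pair n → Bool) (e : Pair n) : |bf w σ R x e| ≤ Bm w n := by
  have hk0 := kpos (k := k)
  have hk1 : (1 : ℝ) ≤ k := by
    have := NeZero.pos k
    exact_mod_cast this
  have hCg := Cg_ge_one w
  have h1 : ∀ H ∈ gad n w, |if (e ∈ H ∧ H ∩ R = {e} ∧ Rain σ H) then
      gco k H * chi (H.erase e) x else 0| ≤ Cg w := by
    intro H hH
    split_ifs with h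
    · rw [abs_mul, abs_chi, mul_one]
      have h2 := gco_bound w hH hk
      have h3 : 1 ≤ (vset H).card := by
        apply card_pos.2
        exact ⟨_, fst_mem_vset h.1⟩
      have h4 : |gco k H| * (k : ℝ) ^ 1 ≤ Cg w * k := by
        refine le_trans ?_ h2
        gcongr
      rw [pow_one] at h4
      exact le_of_mul_le_mul_right h4 hk0
    · rw [abs_zero]; linarith
  have h5 : (gad n w).card ≤ Nst w n := by
    have := card_gad_inside_le w (univ : Finset (Fin n))
    rw [card_univ, Fintype.card_fin] at this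
    have h6 : (gad n w).filter (fun H => vset H ⊆ univ) = gad n w := by
      rw [filter_true_of_mem]
      intro H _
      exact subset_univ _
    rw [h6] at this
    unfold Nst
    omega
  calc |bf w σ R x e| ≤ ∑ H ∈ gad n w, |if (e ∈ H ∧ H ∩ R = {e} ∧ Rain σ H) then
      gco k H * chi (H.erase e) x else 0| := abs_sum_le_sum_abs _ _
    _ ≤ ∑ H ∈ gad n w, Cg w := sum_le_sum h1
    _ = Cg w * (gad n w).card := by rw [sum_const, nsmul_eq_mul, mul_comm]
    _ ≤ Bm w n := by
        unfold Bm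
        have : ((gad n w).card : ℝ) ≤ Nst w n := by exact_mod_cast h5
        gcongr

lemma abs_m0_le (hk : 2 * w ^ 2 ≤ k) (σ : Fin n → ZMod k) (R : Finset (Pair n))
    (x : Pair n → Bool) (e : Pair n) : |m0 w σ R x e| ≤ Bm w n := by
  have h1 := Bm_ge_one (n := n) w
  unfold m0
  split_ifs
  · simpa using h1
  · exact abs_bf_le w hk σ R x e
  · rw [abs_sg]; exact h1

/-- The index set of the Fourier coefficients that matter. -/
noncomputable def TD (n D : ℕ) : Finset (Finset (Pair n)) :=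
  univ.filter (fun S => 1 ≤ S.card ∧ S.card ≤ D)

/-- Duality bound. -/
theorem duality (hk : 2 * w ^ 2 ≤ k) (D : ℕ) (F : (Pair n → Bool) → ℝ)
    (hF : ∀ (σ : Fin n → ZMod k) (y : Pair n → Bool), (∀ e, Mono σ e → y e = false) → 1 ≤ F y)
    (hmean : 𝔼 y, F y = 0)
    (hdeg : ∀ S : Finset (Pair n), D < S.card → fh F S = 0) (hp : pbad k w n ≤ 1) :
    (1 - pbad k w n) ^ 2 ≤ (𝔼 y, F y ^ 2) *
      (2 * ∑ S ∈ TD n D, aco k w S ^ 2 +
        2 * (pbad k w n ^ 2 * Bm w n ^ (2 * D) * (TD n D).card)) := by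
  -- truncated coefficients
  let a : Finset (Pair n) → ℝ := fun S =>
    EE (k := k) (fun σ R x => (if Good w σ R x then (1 : ℝ) else 0) * ∏ e ∈ S, m0 w σ R x e)
  have hB1 := Bm_ge_one (n := n) w
  have h1 : 1 - pbad k w n ≤ ∑ S ∈ TD n D, fh F S * a S := by
    have h2 : 1 - pbad k w n ≤ EE (k := k) (n := n) (fun σ R x =>
        (if Good w σ R x then (1 : ℝ) else 0) * mle F (m0 w σ R x)) := by
      have h3 : 1 - pbad k w n = EE (k := k) (n := n) (fun σ R x =>
          1 - (if Good w σ R x then (0 : ℝ) else 1)) := by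
        rw [EE_sub, EE_const, pbad_eq]
      rw [h3]
      apply EE_le
      intro σ R x
      by_cases hg : Good w σ R x
      · rw [if_pos hg, if_pos hg]
        have h4 := one_le_mle F σ (hF σ) (m0 w σ R x) ?_ ?_
        · linarith
        · intro e
          unfold m0
          split_ifs
          · simp
          · exact hg e
          · rw [abs_sg]
        · intro e he
          unfold m0
          rw [if_pos he]
      · rw [if_neg hg, if_neg hg]; simp
    refine h2.trans (le_of_eq ?_)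
    have h5 : ∀ (σ : Fin n → ZMod k) (R : Finset (Pair n)) (x : Pair n → Bool),
        (if Good w σ R x then (1 : ℝ) else 0) * mle F (m0 w σ R x) =
        ∑ S ∈ TD n D, fh F S * ((if Good w σ R x then (1 : ℝ) else 0) *
          ∏ e ∈ S, m0 w σ R x e) := by
      intro σ R x
      rw [mle_eq, mul_sum]
      have h6 : ∑ S ∈ TD n D, (if Good w σ R x then (1 : ℝ) else 0) *
          (fh F S * ∏ e ∈ S, m0 w σ R x e) =
          ∑ S : Finset (Pair n), (if Good w σ R x then (1 : ℝ) else 0) *
          (fh F S * ∏ e ∈ S, m0 w σ R x e) := by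
        apply sum_subset (subset_univ _)
        intro S _ hS
        have h7 : fh F S = 0 := by
          by_cases hc : D < S.card
          · exact hdeg S hc
          · have : S = ∅ := by
              by_contra hne
              apply hS
              rw [TD, mem_filter]
              refine ⟨mem_univ _, ?_, not_lt.1 hc⟩
              exact card_pos.2 (nonempty_iff_ne_empty.2 hne)
            rw [this, fh]
            simp only [chi_empty, mul_one]
            exact hmean
        rw [h7]; ring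
      rw [← h6]
      apply sum_congr rfl
      intro S _; ring
    simp only [h5]
    rw [EE_sum]
    apply sum_congr rfl
    intro S _
    rw [EE_mul]
  have h2 : ∑ S ∈ TD n D, fh F S * a S = 𝔼 y, F y * ∑ S ∈ TD n D, a S * chi S y := by
    have h3 : ∀ y : Pair n → Bool, F y * ∑ S ∈ TD n D, a S * chi S y =
        ∑ S ∈ TD n D, a S * (F y * chi S y) := by
      intro y
      rw [mul_sum]
      apply sum_congr rfl
      intro S _; ring
    simp only [h3]
    rw [expect_sum_comm]
    apply sum_congr rfl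
    intro S _
    rw [← mul_expect, fh]; ring
  have h3 : 𝔼 y : Pair n → Bool, (∑ S ∈ TD n D, a S * chi S y) ^ 2 = ∑ S ∈ TD n D, a S ^ 2 := by
    have h4 : ∀ y : Pair n → Bool, (∑ S ∈ TD n D, a S * chi S y) ^ 2 =
        ∑ S ∈ TD n D, ∑ S' ∈ TD n D, (a S * a S') * chi (symmDiff S S') y := by
      intro y
      rw [sq, sum_mul_sum]
      apply sum_congr rfl
      intro S _
      apply sum_congr rfl
      intro S' _
      rw [chi_symmDiff]; ring
    simp only [h4]
    rw [expect_sum_comm]
    apply sum_congr rfl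
    intro S hS
    rw [expect_sum_comm]
    have h5 : ∀ S', 𝔼 y : Pair n → Bool, (a S * a S') * chi (symmDiff S S') y =
        if S' = S then a S ^ 2 else 0 := by
      intro S'
      rw [← mul_expect, expect_chi]
      by_cases h6 : S' = S
      · subst h6; simp [sq]
      · rw [if_neg h6, if_neg, mul_zero]
        intro h7
        exact h6 (symmDiff_eq_bot.1 h7).symm
    simp only [h5]
    rw [sum_ite_eq' (TD n D) S (fun _ => a S ^ 2), if_pos hS]
  have hCS : (𝔼 y, F y * ∑ S ∈ TD n D, a S * chi S y) ^ 2 ≤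
      (𝔼 y, F y ^ 2) * ∑ S ∈ TD n D, a S ^ 2 := by
    rw [← h3]
    exact expect_mul_sq_le_sq_mul_sq _ _ _
  have h4 : ∀ S ∈ TD n D, a S ^ 2 ≤ 2 * aco k w S ^ 2 +
      2 * (pbad k w n ^ 2 * Bm w n ^ (2 * D)) := by
    intro S hS
    let b : ℝ := EE (k := k) (n := n) (fun σ R x => (if Good w σ R x then (0 : ℝ) else 1) *
      ∏ e ∈ S, m0 w σ R x e)
    have h5 : a S = aco k w S - b := by
      have h6 : aco k w S = EE (k := k) (n := n) (fun σ R x => ∏ e ∈ S, m0 w σ R x e) := rfl
      rw [h6]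
      simp only [a, b]
      rw [← EE_sub]
      congr 1
      funext σ R x
      split_ifs <;> ring
    have h6 : |b| ≤ pbad k w n * Bm w n ^ D := by
      refine (abs_EE_le _).trans ?_
      rw [pbad_eq]
      have h7 : EE (k := k) (n := n) (fun σ R x => if Good w σ R x then (0 : ℝ) else 1) * Bm w n ^ D =
          EE (k := k) (n := n) (fun σ R x => Bm w n ^ D * (if Good w σ R x then (0 : ℝ) else 1)) := by
        rw [EE_mul]; ring
      rw [h7]
      apply EE_le
      intro σ R x
      split_ifs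
      · simp
      · rw [one_mul, mul_one, abs_prod]
        calc ∏ e ∈ S, |m0 w σ R x e| ≤ ∏ _e ∈ S, Bm w n :=
              prod_le_prod (fun _ _ => abs_nonneg _) (fun e _ => abs_m0_le w hk σ R x e)
          _ = Bm w n ^ S.card := by rw [prod_const]
          _ ≤ Bm w n ^ D := by
              apply pow_le_pow_right₀ hB1
              exact (mem_filter.1 hS).2.2
    have h7 : b ^ 2 ≤ pbad k w n ^ 2 * Bm w n ^ (2 * D) := by
      calc b ^ 2 = |b| ^ 2 := (sq_abs b).symm
        _ ≤ (pbad k w n * Bm w n ^ D) ^ 2 := pow_le_pow_left₀ (abs_nonneg b) h6 2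
        _ = _ := by rw [mul_pow, ← pow_mul, mul_comm D 2]
    rw [h5]
    nlinarith [sq_nonneg (aco k w S + b)]
  have h5 : ∑ S ∈ TD n D, a S ^ 2 ≤ 2 * ∑ S ∈ TD n D, aco k w S ^ 2 +
        2 * (pbad k w n ^ 2 * Bm w n ^ (2 * D) * (TD n D).card) := by
    calc ∑ S ∈ TD n D, a S ^ 2 ≤ ∑ S ∈ TD n D, (2 * aco k w S ^ 2 +
          2 * (pbad k w n ^ 2 * Bm w n ^ (2 * D))) := sum_le_sum h4
      _ = _ := by
          rw [sum_add_distrib, ← mul_sum, sum_const, nsmul_eq_mul]; ring
  have hnn : 0 ≤ 𝔼 y, F y ^ 2 := expect_nonneg (fun y _ => sq_nonneg _)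
  calc (1 - pbad k w n) ^ 2 ≤ (∑ S ∈ TD n D, fh F S * a S) ^ 2 := by
        apply pow_le_pow_left₀ _ h1
        linarith
    _ = (𝔼 y, F y * ∑ S ∈ TD n D, a S * chi S y) ^ 2 := by rw [h2]
    _ ≤ (𝔼 y, F y ^ 2) * ∑ S ∈ TD n D, a S ^ 2 := hCS
    _ ≤ _ := mul_le_mul_of_nonneg_left h5 hnn

end Pool.Agent.ColorRef
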