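import Pool.Agent.ColorRef.Block

namespace Pool.Agent.ColorRef

open Finset BigOperators
open scoped Classical

set_option linter.unusedSectionVars false

variable {n : ℕ} {k : ℕ} [NeZero k]

/-- Sign of a Boolean. -/
def sg (b : Bool) : ℝ := if b then 1 else -1

lemma sg_mul_self (b : Bool) : sg b * sg b = 1 := by cases b <;> simp [sg]

lemma abs_sg (b : Bool) : |sg b| = 1 := by cases b <;> simp [sg]

/-- Character of the hypercube. -/
def chi (F : Finset (Pair n)) (x : Pair n → Bool) : ℝ := ∏ e ∈ F, sg (x e)

@[simp] lemma chi_empty (x : Pair n → Bool) : chi ∅ x = 1 := by simp [chi]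

lemma chi_mul_self (F : Finset (Pair n)) (x : Pair n → Bool) : chi F x * chi F x = 1 := by
  rw [chi, ← prod_mul_distrib]
  exact prod_eq_one (fun e _ => sg_mul_self _)

lemma abs_chi (F : Finset (Pair n)) (x : Pair n → Bool) : |chi F x| = 1 := by
  rw [chi, abs_prod]
  exact prod_eq_one (fun e _ => abs_sg _)

lemma chi_symmDiff (F H : Finset (Pair n)) (x : Pair n → Bool) :
    chi (symmDiff F H) x = chi F x * chi H x := by
  have h1 : chi F x = chi (F \ H) x * chi (F ∩ H) x := by
    simp only [chi]
    rw [← prod_union (disjoint_sdiff_inter F H), sdiff_union_inter]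
  have h2 : chi H x = chi (H \ F) x * chi (F ∩ H) x := by
    simp only [chi]
    rw [inter_comm F H, ← prod_union (disjoint_sdiff_inter H F), sdiff_union_inter]
  have h3 : chi (symmDiff F H) x = chi (F \ H) x * chi (H \ F) x := by
    simp only [chi]
    rw [← prod_union]
    · rfl
    · exact disjoint_sdiff_sdiff
  have h4 := chi_mul_self (F ∩ H) x
  rw [h1, h2, h3]
  linear_combination (-(chi (F \ H) x * chi (H \ F) x)) * h4

lemma chi_erase {H : Finset (Pair n)} {e : Pair n} (he : e ∈ H) (x : Pair n → Bool) :
    chi (H.erase e) x = sg (x e) * chi H x := by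
  have h1 : sg (x e) * chi (H.erase e) x = chi H x := mul_prod_erase H (fun e => sg (x e)) he
  rw [← h1, ← mul_assoc, sg_mul_self, one_mul]

lemma expect_chi (F : Finset (Pair n)) :
    𝔼 x : Pair n → Bool, chi F x = if F = ∅ then 1 else 0 := by
  split_ifs with h
  · subst h; simp
  · obtain ⟨e, he⟩ := nonempty_iff_ne_empty.2 h
    -- flip the coordinate `e`
    let fl : (Pair n → Bool) → (Pair n → Bool) := fun x => Function.update x e (!(x e))
    have hfl : Function.Involutive fl := by
      intro x
      funext f
      by_cases hf : f = e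
      · subst hf; simp [fl]
      · simp [fl, hf]
    have hneg : ∀ x, chi F (fl x) = - chi F x := by
      intro x
      have h1 : chi F (fl x) = sg (fl x e) * chi (F.erase e) (fl x) :=
        (mul_prod_erase F (fun e => sg (fl x e)) he).symm
      have h2 : chi F x = sg (x e) * chi (F.erase e) x :=
        (mul_prod_erase F (fun e => sg (x e)) he).symm
      have h3 : chi (F.erase e) (fl x) = chi (F.erase e) x := by
        apply prod_congr rfl
        intro f hf
        have : f ≠ e := (mem_erase.1 hf).1
        simp [fl, this]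
      have h4 : sg (fl x e) = - sg (x e) := by
        simp only [fl, Function.update_self]
        cases x e <;> simp [sg]
      rw [h1, h2, h3, h4]; ring
    have h5 : 𝔼 x : Pair n → Bool, chi F x = 𝔼 x : Pair n → Bool, chi F (fl x) :=
      (Fintype.expect_bijective fl hfl.bijective _ _ (fun x => rfl)).symm
    simp only [hneg, expect_neg_distrib] at h5
    linarith

/-- The edge `e` is monochromatic. -/
def Mono (σ : Fin n → ZMod k) (e : Pair n) : Prop := σ e.1.1 = σ e.1.2

/-- The vertices of `H` have pairwise distinct colours. -/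
def Rain (σ : Fin n → ZMod k) (H : Finset (Pair n)) : Prop :=
  ∀ u ∈ vset H, ∀ v ∈ vset H, σ u = σ v → u = v

/-- Small inseparable graphs. -/
noncomputable def gad (n w : ℕ) : Finset (Finset (Pair n)) :=
  univ.filter (fun H => Blk H ∧ (vset H).card ≤ w)

lemma mem_gad {w : ℕ} {H : Finset (Pair n)} : H ∈ gad n w ↔ Blk H ∧ (vset H).card ≤ w := by
  simp [gad]

variable (k) in
/-- Probability that `B` is monochromatic. -/
noncomputable def pm (B : Finset (Pair n)) : ℝ :=
  𝔼 σ : Fin n → ZMod k, if (∀ e ∈ B, Mono σ e) then 1 else 0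

variable (k) in
/-- Expected number of `e ∈ B` such that `B` is rainbow and meets the random set `R` in `e`. -/
noncomputable def pr (B : Finset (Pair n)) : ℝ :=
  𝔼 σ : Fin n → ZMod k, 𝔼 R : Finset (Pair n),
    ∑ e ∈ B, if (Rain σ B ∧ B ∩ R = {e}) then 1 else 0

variable (k) in
/-- The coefficient of the gadget `B`. -/
noncomputable def gco (B : Finset (Pair n)) : ℝ := -((-1) ^ B.card * pm k B / pr k B)

/-- The states of an edge: `none` is monochromatic, `some none` is a base edge and
`some (some H)` is a response edge using the gadget `H`. -/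
abbrev St (n : ℕ) := Option (Option (Finset (Pair n)))

variable (w : ℕ)

/-- Indicator of a state. -/
noncomputable def ind (σ : Fin n → ZMod k) (R : Finset (Pair n)) (e : Pair n) : St n → ℝ
  | none => if Mono σ e then 1 else 0
  | some none => if (¬ Mono σ e ∧ e ∉ R) then 1 else 0
  | some (some H) => if (H ∈ gad n w ∧ e ∈ H ∧ H ∩ R = {e} ∧ Rain σ H) then 1 else 0

variable (k) in
/-- Coefficient of a state. -/
noncomputable def co : St n → ℝ
  | none => -1
  | some none => 1
  | some (some H) => gco k H

/-- Character of a state. -/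
noncomputable def ch (x : Pair n → Bool) (e : Pair n) : St n → ℝ
  | none => 1
  | some none => sg (x e)
  | some (some H) => chi (H.erase e) x

/-- The field acting on the response edge `e`. -/
noncomputable def bf (σ : Fin n → ZMod k) (R : Finset (Pair n)) (x : Pair n → Bool)
    (e : Pair n) : ℝ :=
  ∑ H ∈ gad n w, if (e ∈ H ∧ H ∩ R = {e} ∧ Rain σ H) then gco k H * chi (H.erase e) x else 0

/-- Conditional mean of the sign of the edge `e`. -/
noncomputable def m0 (σ : Fin n → ZMod k) (R : Finset (Pair n)) (x : Pair n → Bool)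
    (e : Pair n) : ℝ :=
  if Mono σ e then -1 else if e ∉ R then sg (x e) else bf w σ R x e

lemma Rain.not_mono {σ : Fin n → ZMod k} {H : Finset (Pair n)} (h : Rain σ H) {e : Pair n}
    (he : e ∈ H) : ¬ Mono σ e := by
  intro hm
  have := h _ (fst_mem_vset he) _ (snd_mem_vset he) hm
  exact absurd this (ne_of_lt e.2)

lemma m0_eq (σ : Fin n → ZMod k) (R : Finset (Pair n)) (x : Pair n → Bool) (e : Pair n) :
    m0 w σ R x e = ∑ st : St n, ind w σ R e st * co k st * ch x e st := by
  rw [Fintype.sum_option, Fintype.sum_option]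
  have hsum : ∑ H : Finset (Pair n), ind w σ R e (some (some H)) * co k (some (some H)) *
      ch x e (some (some H)) = bf w σ R x e := by
    rw [bf, ← sum_filter_add_sum_filter_not univ (fun H => H ∈ gad n w)]
    rw [filter_mem_eq_inter, univ_inter]
    have h2 : ∑ H ∈ univ.filter (fun H => H ∉ gad n w), ind w σ R e (some (some H)) *
        co k (some (some H)) * ch x e (some (some H)) = 0 := by
      apply sum_eq_zero
      intro H hH
      simp [ind, (mem_filter.1 hH).2]
    rw [h2, add_zero]
    apply sum_congr rfl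
    intro H hH
    simp only [ind, co, ch, hH, true_and]
    split_ifs <;> simp
  rw [hsum]
  simp only [ind, co, ch, m0]
  by_cases h1 : Mono σ e
  · have hb : bf w σ R x e = 0 := by
      rw [bf]
      apply sum_eq_zero
      intro H _
      rw [if_neg]
      rintro ⟨h2, -, h3⟩
      exact h3.not_mono h2 h1
    simp [h1, hb]
  · by_cases h2 : e ∈ R
    · simp [h1, h2]
    · have hb : bf w σ R x e = 0 := by
        rw [bf]
        apply sum_eq_zero
        intro H _
        rw [if_neg]
        rintro ⟨-, h3, -⟩
        have : e ∈ H ∩ R := by rw [h3]; simp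
        exact h2 (mem_inter.1 this).2
      simp [h1, h2, hb]

/-- The set of state assignments on `S`. -/
noncomputable def Phi (S : Finset (Pair n)) : Finset (Pair n → St n) :=
  Fintype.piFinset (fun e => if e ∈ S then univ else {none})

lemma mem_Phi {S : Finset (Pair n)} {φ : Pair n → St n} :
    φ ∈ Phi S ↔ ∀ e, e ∉ S → φ e = none := by
  rw [Phi, Fintype.mem_piFinset]
  constructor
  · intro h e he
    have := h e
    rw [if_neg he] at this
    exact mem_singleton.1 this
  · intro h e
    by_cases he : e ∈ S
    · simp [he]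
    · simp [he, h e he]

/-- Weight of a state assignment. -/
noncomputable def wt (k : ℕ) [NeZero k] (w : ℕ) (S : Finset (Pair n)) (φ : Pair n → St n) : ℝ :=
  (∏ e ∈ S, co k (φ e)) *
    (𝔼 σ : Fin n → ZMod k, 𝔼 R : Finset (Pair n), ∏ e ∈ S, ind w σ R e (φ e)) *
    𝔼 x : Pair n → Bool, ∏ e ∈ S, ch x e (φ e)

/-- Fourier coefficient of the planted law (before truncation). -/
noncomputable def aco (k : ℕ) [NeZero k] (w : ℕ) (S : Finset (Pair n)) : ℝ :=
  𝔼 σ : Fin n → ZMod k, 𝔼 R : Finset (Pair n), 𝔼 x : Pair n → Bool, ∏ e ∈ S, m0 w σ R x e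

lemma prod_sum_states (S : Finset (Pair n)) (f : Pair n → St n → ℝ) :
    ∏ e ∈ S, ∑ st : St n, f e st = ∑ φ ∈ Phi S, ∏ e ∈ S, f e (φ e) := by
  have h1 : ∏ e ∈ S, ∑ st : St n, f e st =
      ∏ e : Pair n, ∑ st ∈ (if e ∈ S then univ else {none} : Finset (St n)),
        (if e ∈ S then f e st else 1) := by
    rw [← prod_filter_mul_prod_filter_not univ (fun e => e ∈ S)]
    have h2 : univ.filter (fun e => e ∈ S) = S := by simp
    rw [h2]
    have h3 : ∏ e ∈ univ.filter (fun e => e ∉ S),
        ∑ st ∈ (if e ∈ S then univ else {none} : Finset (St n)),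
        (if e ∈ S then f e st else 1) = 1 := by
      apply prod_eq_one
      intro e he
      simp [(mem_filter.1 he).2]
    rw [h3, mul_one]
    apply prod_congr rfl
    intro e he
    simp [he]
  rw [h1, prod_univ_sum, Phi]
  apply sum_congr rfl
  intro φ _
  rw [← prod_filter_mul_prod_filter_not univ (fun e => e ∈ S)]
  have h2 : univ.filter (fun e => e ∈ S) = S := by simp
  rw [h2]
  have h3 : ∏ e ∈ univ.filter (fun e => e ∉ S), (if e ∈ S then f e (φ e) else 1) = 1 := by
    apply prod_eq_one
    intro e he
    simp [(mem_filter.1 he).2]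
  rw [h3, mul_one]
  apply prod_congr rfl
  intro e he
  simp [he]

lemma aco_eq (S : Finset (Pair n)) : aco k w S = ∑ φ ∈ Phi S, wt k w S φ := by
  rw [aco]
  have h1 : ∀ (σ : Fin n → ZMod k) (R : Finset (Pair n)) (x : Pair n → Bool),
      ∏ e ∈ S, m0 w σ R x e =
      ∑ φ ∈ Phi S, (∏ e ∈ S, co k (φ e)) * (∏ e ∈ S, ind w σ R e (φ e)) *
        ∏ e ∈ S, ch x e (φ e) := by
    intro σ R x
    have : ∏ e ∈ S, m0 w σ R x e = ∏ e ∈ S, ∑ st : St n, ind w σ R e st * co k st * ch x e st :=
      prod_congr rfl (fun e _ => m0_eq w σ R x e)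
    rw [this, prod_sum_states]
    apply sum_congr rfl
    intro φ _
    rw [← prod_mul_distrib, ← prod_mul_distrib]
    apply prod_congr rfl
    intro e _
    ring
  simp only [h1]
  simp only [expect_sum_comm]
  apply sum_congr rfl
  intro φ _
  rw [wt]
  simp only [← mul_expect, ← expect_mul]

end Pool.Agent.ColorRef
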