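import Pool.Agent.ColorRef.Count

namespace Pool.Agent.ColorRef

open Finset BigOperators
open scoped Classical

set_option linter.unusedSectionVars false

variable {n : ℕ} {k : ℕ} [NeZero k] (w : ℕ)

/-- Flip one coordinate. -/
def flp (f : Pair n) (x : Pair n → Bool) : Pair n → Bool := Function.update x f (!(x f))

lemma flp_invol (f : Pair n) : Function.Involutive (flp f) := by
  intro x
  funext g
  by_cases hg : g = f
  · subst hg; simp [flp]
  · simp [flp, hg]

lemma chi_flp (f : Pair n) (F : Finset (Pair n)) (x : Pair n → Bool) :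
    chi F (flp f x) = (if f ∈ F then -1 else 1) * chi F x := by
  split_ifs with hf
  · have h1 : chi F (flp f x) = sg (flp f x f) * chi (F.erase f) (flp f x) :=
      (mul_prod_erase F (fun e => sg (flp f x e)) hf).symm
    have h2 : chi F x = sg (x f) * chi (F.erase f) x :=
      (mul_prod_erase F (fun e => sg (x e)) hf).symm
    have h3 : chi (F.erase f) (flp f x) = chi (F.erase f) x := by
      apply prod_congr rfl
      intro g hg
      have : g ≠ f := (mem_erase.1 hg).1
      simp [flp, this]
    have h4 : sg (flp f x f) = - sg (x f) := by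
      simp only [flp, Function.update_self]
      cases x f <;> simp [sg]
    rw [h1, h2, h3, h4]; ring
  · rw [one_mul]
    apply prod_congr rfl
    intro g hg
    have : g ≠ f := fun h => hf (h ▸ hg)
    simp [flp, this]

lemma expect_prod_chi_zero {ι : Type*} [Fintype ι] (F : ι → Finset (Pair n)) (f : Pair n)
    (i₀ : ι) (h0 : f ∈ F i₀) (h1 : ∀ i, f ∈ F i → i = i₀) :
    𝔼 x : Pair n → Bool, ∏ i, chi (F i) x = 0 := by
  have h2 : ∀ x, ∏ i, chi (F i) (flp f x) = - ∏ i, chi (F i) x := by
    intro x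
    have h3 : ∀ i, chi (F i) (flp f x) = (if i = i₀ then -1 else 1) * chi (F i) x := by
      intro i
      rw [chi_flp]
      have : f ∈ F i ↔ i = i₀ := ⟨h1 i, fun h => h ▸ h0⟩
      simp only [this]
    simp only [h3]
    rw [prod_mul_distrib, prod_ite_eq' univ i₀ (fun _ => (-1 : ℝ))]
    simp
  have h5 : 𝔼 x : Pair n → Bool, ∏ i, chi (F i) x = 𝔼 x : Pair n → Bool, ∏ i, chi (F i) (flp f x) :=
    (Fintype.expect_bijective (flp f) (flp_invol f).bijective _ _ (fun x => rfl)).symm
  simp only [h2, expect_neg_distrib] at h5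
  linarith

/-- The vertices of a family outside the edge `e`. -/
noncomputable def Jset {p : ℕ} (e : Pair n) (h : Fin p → Finset (Pair n)) : Finset (Fin n) :=
  (univ.biUnion (fun i => vset (h i))) \ {e.1.1, e.1.2}

lemma sum_vset_ge {p : ℕ} {e : Pair n} {h : Fin p → Finset (Pair n)} (he : ∀ i, e ∈ h i)
    (hne : (𝔼 x : Pair n → Bool, ∏ i, chi ((h i).erase e) x) ≠ 0) :
    2 * p + 2 * (Jset e h).card ≤ ∑ i, (vset (h i)).card := by
  have h1 : ∀ u ∈ Jset e h, 2 ≤ (univ.filter (fun i => u ∈ vset (h i))).card := by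
    intro u hu
    rw [Jset, mem_sdiff, mem_biUnion] at hu
    obtain ⟨⟨i, -, hi⟩, hue⟩ := hu
    by_contra hlt
    push Not at hlt
    have hi' : i ∈ univ.filter (fun i => u ∈ vset (h i)) := by simp [hi]
    have hone : (univ.filter (fun i => u ∈ vset (h i))).card ≤ 1 := by omega
    have huniq : ∀ j, u ∈ vset (h j) → j = i := by
      intro j hj
      exact card_le_one.1 hone j (by simp [hj]) i hi'
    obtain ⟨f, hf, hfu⟩ := mem_vset.1 hi
    have hfe : f ≠ e := by
      rintro rfl
      apply hue
      rw [mem_insert, mem_singleton]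
      exact hfu
    apply hne
    refine expect_prod_chi_zero (fun j => (h j).erase e) f i (mem_erase.2 ⟨hfe, hf⟩) ?_
    intro j hj
    apply huniq
    have hfj : f ∈ h j := (mem_erase.1 hj).2
    rcases hfu with h2 | h2
    · rw [h2]; exact fst_mem_vset hfj
    · rw [h2]; exact snd_mem_vset hfj
  have h2 : ∀ i, (vset (h i)).card = 2 + (vset (h i) \ {e.1.1, e.1.2}).card := by
    intro i
    have hsub : ({e.1.1, e.1.2} : Finset (Fin n)) ⊆ vset (h i) := by
      intro u hu
      rw [mem_insert, mem_singleton] at hu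
      rcases hu with rfl | rfl
      · exact fst_mem_vset (he i)
      · exact snd_mem_vset (he i)
    have h3 := card_sdiff_add_card_eq_card hsub
    have h4 : ({e.1.1, e.1.2} : Finset (Fin n)).card = 2 := card_pair (ne_of_lt e.2)
    omega
  have h3 : ∀ i, (vset (h i) \ {e.1.1, e.1.2}).card =
      ∑ u ∈ Jset e h, if u ∈ vset (h i) then 1 else 0 := by
    intro i
    rw [← card_filter]
    congr 1
    ext u
    rw [mem_filter, Jset, mem_sdiff, mem_sdiff, mem_biUnion]
    constructor
    · rintro ⟨h4, h5⟩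
      exact ⟨⟨⟨i, mem_univ _, h4⟩, h5⟩, h4⟩
    · rintro ⟨⟨-, h5⟩, h4⟩
      exact ⟨h4, h5⟩
  have h4 : ∑ i, (vset (h i) \ {e.1.1, e.1.2}).card =
      ∑ u ∈ Jset e h, (univ.filter (fun i => u ∈ vset (h i))).card := by
    simp only [h3]
    rw [sum_comm]
    apply sum_congr rfl
    intro u _
    rw [card_filter]
  have h5 : 2 * (Jset e h).card ≤ ∑ u ∈ Jset e h, (univ.filter (fun i => u ∈ vset (h i))).card := by
    calc 2 * (Jset e h).card = ∑ u ∈ Jset e h, 2 := by rw [sum_const, smul_eq_mul, mul_comm]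
      _ ≤ _ := sum_le_sum h1
  have h6 : ∑ i, (vset (h i)).card = 2 * p + ∑ i, (vset (h i) \ {e.1.1, e.1.2}).card := by
    simp only [h2]
    rw [sum_add_distrib, sum_const, card_univ, Fintype.card_fin, smul_eq_mul, mul_comm]
  rw [h6, h4]
  omega

/-- Moment bound for the response field. -/
theorem moment_bf (hk : 2 * w ^ 2 ≤ k) (hn : n ≤ k ^ 2) (σ : Fin n → ZMod k)
    (R : Finset (Pair n)) (e : Pair n) (p : ℕ) :
    (𝔼 x : Pair n → Bool, (bf w σ R x e) ^ p) * (k : ℝ) ^ p ≤
      3 * (Cg w * Nst w (p * w + 2)) ^ p := by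
  have hk0 := kpos (k := k)
  have hCg := Cg_ge_one w
  let c : Finset (Pair n) → ℝ := fun H => if (e ∈ H ∧ H ∩ R = {e} ∧ Rain σ H) then gco k H else 0
  have hbf : ∀ x, bf w σ R x e = ∑ H ∈ gad n w, c H * chi (H.erase e) x := by
    intro x
    rw [bf]
    apply sum_congr rfl
    intro H _
    simp only [c]
    split_ifs <;> simp
  have hexp : ∀ x, (bf w σ R x e) ^ p =
      ∑ h ∈ Fintype.piFinset (fun _ : Fin p => gad n w),
        (∏ i, c (h i)) * ∏ i, chi ((h i).erase e) x := by
    intro x
    rw [hbf]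
    have h1 : (∑ H ∈ gad n w, c H * chi (H.erase e) x) ^ p =
        ∏ _i : Fin p, ∑ H ∈ gad n w, c H * chi (H.erase e) x := by
      rw [prod_const, card_univ, Fintype.card_fin]
    rw [h1, prod_univ_sum]
    apply sum_congr rfl
    intro h _
    rw [prod_mul_distrib]
  simp only [hexp]
  rw [expect_sum_comm, sum_mul]
  simp only [← mul_expect]
  have hbound : ∀ h ∈ Fintype.piFinset (fun _ : Fin p => gad n w),
      ((∏ i, c (h i)) * 𝔼 x : Pair n → Bool, ∏ i, chi ((h i).erase e) x) * (k : ℝ) ^ p ≤
      Cg w ^ p * (1 / (k : ℝ) ^ 2) ^ (Jset e h).card := by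
    intro h hh
    rw [Fintype.mem_piFinset] at hh
    by_cases hz : (∏ i, c (h i)) * 𝔼 x : Pair n → Bool, ∏ i, chi ((h i).erase e) x = 0
    · rw [hz, zero_mul]; positivity
    · have hc : ∀ i, c (h i) ≠ 0 := by
        have := left_ne_zero_of_mul hz
        rw [prod_ne_zero_iff] at this
        exact fun i => this i (mem_univ _)
      have he : ∀ i, e ∈ h i := by
        intro i
        by_contra hne
        apply hc i
        simp only [c]
        rw [if_neg]
        exact fun h => hne h.1
      have hcg : ∀ i, |c (h i)| * (k : ℝ) ^ (vset (h i)).card ≤ Cg w * k := by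
        intro i
        simp only [c]
        split_ifs
        · exact gco_bound w (hh i) hk
        · rw [abs_zero, zero_mul]; positivity
      have h2 := sum_vset_ge he (right_ne_zero_of_mul hz)
      have h3 : (∏ i, |c (h i)|) * (k : ℝ) ^ (∑ i, (vset (h i)).card) ≤ (Cg w * k) ^ p := by
        rw [← prod_pow_eq_pow_sum, ← prod_mul_distrib]
        calc ∏ i, |c (h i)| * (k : ℝ) ^ (vset (h i)).card ≤ ∏ _i : Fin p, (Cg w * k) :=
              prod_le_prod (fun i _ => by positivity) (fun i _ => hcg i)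
          _ = (Cg w * k) ^ p := by rw [prod_const, card_univ, Fintype.card_fin]
      have hE : |𝔼 x : Pair n → Bool, ∏ i, chi ((h i).erase e) x| ≤ 1 := by
        refine (abs_expect_le _ _).trans ?_
        have : ∀ x ∈ (univ : Finset (Pair n → Bool)), |∏ i, chi ((h i).erase e) x| ≤ 1 := by
          intro x _
          rw [abs_prod]
          exact le_of_eq (prod_eq_one (fun i _ => abs_chi _ _))
        calc 𝔼 x : Pair n → Bool, |∏ i, chi ((h i).erase e) x| ≤ 𝔼 x : Pair n → Bool, (1:ℝ) :=
              expect_le_expect this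
          _ = 1 := by simp
      have hk1 : (1 : ℝ) ≤ k := by
        have := NeZero.pos k
        exact_mod_cast this
      have h4 : (∏ i, |c (h i)|) * (k : ℝ) ^ (2 * p + 2 * (Jset e h).card) ≤ (Cg w * k) ^ p := by
        refine le_trans ?_ h3
        gcongr
      have h5 : (∏ i, |c (h i)|) * (k : ℝ) ^ p * (k : ℝ) ^ (2 * (Jset e h).card) ≤ Cg w ^ p := by
        have h6 : ((∏ i, |c (h i)|) * (k : ℝ) ^ p * (k : ℝ) ^ (2 * (Jset e h).card)) *
            (k : ℝ) ^ p ≤ Cg w ^ p * (k : ℝ) ^ p := by
          calc ((∏ i, |c (h i)|) * (k : ℝ) ^ p * (k : ℝ) ^ (2 * (Jset e h).card)) * (k : ℝ) ^ p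
              = (∏ i, |c (h i)|) * (k : ℝ) ^ (2 * p + 2 * (Jset e h).card) := by
                rw [pow_add, two_mul, pow_add]; ring
            _ ≤ (Cg w * k) ^ p := h4
            _ = _ := by rw [mul_pow]
        exact le_of_mul_le_mul_right h6 (by positivity)
      rw [one_div, inv_pow, ← pow_mul, ← div_eq_mul_inv, le_div_iff₀ (by positivity)]
      calc ((∏ i, c (h i)) * 𝔼 x : Pair n → Bool, ∏ i, chi ((h i).erase e) x) * (k : ℝ) ^ p *
            (k : ℝ) ^ (2 * (Jset e h).card)
          ≤ |(∏ i, c (h i)) * 𝔼 x : Pair n → Bool, ∏ i, chi ((h i).erase e) x| * (k : ℝ) ^ p *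
            (k : ℝ) ^ (2 * (Jset e h).card) := by
            gcongr
            exact le_abs_self _
        _ = (∏ i, |c (h i)|) * |𝔼 x : Pair n → Bool, ∏ i, chi ((h i).erase e) x| * (k : ℝ) ^ p *
            (k : ℝ) ^ (2 * (Jset e h).card) := by rw [abs_mul, abs_prod]
        _ ≤ (∏ i, |c (h i)|) * 1 * (k : ℝ) ^ p * (k : ℝ) ^ (2 * (Jset e h).card) := by
            have : 0 ≤ ∏ i, |c (h i)| := prod_nonneg (fun _ _ => abs_nonneg _)
            gcongr
        _ ≤ Cg w ^ p := by rw [mul_one]; exact h5
  have hcount : ∀ J : Finset (Fin n),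
      ((Fintype.piFinset (fun _ : Fin p => gad n w)).filter (fun h => Jset e h = J)).card ≤
      (Nst w (p * w + 2)) ^ p := by
    intro J
    by_cases hJ : J.card ≤ p * w
    · have h1 : (Fintype.piFinset (fun _ : Fin p => gad n w)).filter (fun h => Jset e h = J) ⊆
          Fintype.piFinset (fun _ : Fin p =>
            (gad n w).filter (fun H => vset H ⊆ J ∪ {e.1.1, e.1.2})) := by
        intro h hh
        rw [mem_filter, Fintype.mem_piFinset] at hh
        rw [Fintype.mem_piFinset]
        intro i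
        rw [mem_filter]
        refine ⟨hh.1 i, ?_⟩
        intro v hv
        rw [mem_union]
        by_cases hve : v ∈ ({e.1.1, e.1.2} : Finset (Fin n))
        · exact Or.inr hve
        · left
          rw [← hh.2, Jset, mem_sdiff, mem_biUnion]
          exact ⟨⟨i, mem_univ _, hv⟩, hve⟩
      refine (card_le_card h1).trans ?_
      rw [Fintype.card_piFinset, prod_const, card_univ, Fintype.card_fin]
      apply Nat.pow_le_pow_left
      refine (card_gad_inside_le w _).trans ?_
      have h2 : (J ∪ {e.1.1, e.1.2}).card ≤ p * w + 2 := by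
        refine (card_union_le _ _).trans ?_
        have := card_le_two (a := e.1.1) (b := e.1.2)
        omega
      unfold Nst
      have h3 : ((J ∪ {e.1.1, e.1.2}).card + 1) ^ w * 2 ^ (w ^ 2) ≤
          ((p * w + 2) + 1) ^ w * 2 ^ (w ^ 2) := by
        gcongr
      omega
    · have h1 : (Fintype.piFinset (fun _ : Fin p => gad n w)).filter (fun h => Jset e h = J) = ∅ := by
        rw [filter_eq_empty_iff]
        intro h hh hJ'
        apply hJ
        rw [Fintype.mem_piFinset] at hh
        rw [← hJ', Jset]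
        refine (card_le_card sdiff_subset).trans ?_
        refine (card_biUnion_le_card_mul _ _ w ?_).trans ?_
        · intro i _
          exact (mem_gad.1 (hh i)).2
        · rw [card_univ, Fintype.card_fin]
      rw [h1]; simp
  calc ∑ h ∈ Fintype.piFinset (fun _ : Fin p => gad n w),
        ((∏ i, c (h i)) * 𝔼 x : Pair n → Bool, ∏ i, chi ((h i).erase e) x) * (k : ℝ) ^ p
      ≤ ∑ h ∈ Fintype.piFinset (fun _ : Fin p => gad n w),
        Cg w ^ p * (1 / (k : ℝ) ^ 2) ^ (Jset e h).card := sum_le_sum hbound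
    _ = ∑ J : Finset (Fin n),
        ∑ h ∈ (Fintype.piFinset (fun _ : Fin p => gad n w)).filter (fun h => Jset e h = J),
        Cg w ^ p * (1 / (k : ℝ) ^ 2) ^ J.card := by
        rw [← sum_fiberwise_of_maps_to (s := Fintype.piFinset (fun _ : Fin p => gad n w))
          (t := (univ : Finset (Finset (Fin n)))) (g := fun h => Jset e h) (fun _ _ => mem_univ _)]
        apply sum_congr rfl
        intro J _
        apply sum_congr rfl
        intro h hh
        rw [(mem_filter.1 hh).2]
    _ ≤ ∑ J : Finset (Fin n), ((Nst w (p * w + 2) : ℕ) : ℝ) ^ p *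
        (Cg w ^ p * (1 / (k : ℝ) ^ 2) ^ J.card) := by
        apply sum_le_sum
        intro J _
        rw [sum_const, nsmul_eq_mul]
        apply mul_le_mul_of_nonneg_right _ (by positivity)
        exact_mod_cast hcount J
    _ = (((Nst w (p * w + 2) : ℕ) : ℝ) ^ p * Cg w ^ p) *
        ∑ J : Finset (Fin n), (1 / (k : ℝ) ^ 2) ^ J.card := by
        rw [mul_sum]
        apply sum_congr rfl
        intro J _; ring
    _ ≤ (((Nst w (p * w + 2) : ℕ) : ℝ) ^ p * Cg w ^ p) * 3 := by
        apply mul_le_mul_of_nonneg_left (sum_extra_le hn) (by positivity)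
    _ = 3 * (Cg w * Nst w (p * w + 2)) ^ p := by rw [mul_pow]; ring

end Pool.Agent.ColorRef
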