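import Pool.Agent.ColorRef.Asym

namespace Pool.Agent.ColorRef

open Finset BigOperators
open scoped Classical

set_option linter.unusedSectionVars false

variable {n : ℕ} {k : ℕ}

/-- The 0/1 vector of a Boolean vector. -/
noncomputable def bvec (y : Pair n → Bool) : Pair n → ℝ := fun e => if y e = true then 1 else 0

lemma fh_poly_zero (f : MvPolynomial (Pair n) ℝ) (D : ℕ) (hf : f.totalDegree ≤ D)
    (S : Finset (Pair n)) (hS : D < S.card) :
    fh (fun y => MvPolynomial.eval (bvec y) f) S = 0 := by
  unfold fh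
  simp only [MvPolynomial.eval_eq, sum_mul]
  rw [expect_sum_comm]
  apply sum_eq_zero
  intro d hd
  have hcard : d.support.card ≤ D := by
    have h1 := MvPolynomial.le_totalDegree hd
    have h2 : d.support.card ≤ d.sum fun _ e => e := by
      rw [Finsupp.sum, card_eq_sum_ones]
      apply sum_le_sum
      intro i hi
      have := Finsupp.mem_support_iff.1 hi
      omega
    omega
  obtain ⟨e, heS, hed⟩ : ∃ e ∈ S, e ∉ d.support := by
    by_contra hcon
    push Not at hcon
    have := card_le_card (show S ⊆ d.support from fun e he => hcon e he)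
    omega
  have hflip : ∀ y : Pair n → Bool,
      MvPolynomial.coeff d f * (∏ i ∈ d.support, bvec (flp e y) i ^ d i) * chi S (flp e y) =
      -(MvPolynomial.coeff d f * (∏ i ∈ d.support, bvec y i ^ d i) * chi S y) := by
    intro y
    rw [chi_flp, if_pos heS]
    have h1 : ∏ i ∈ d.support, bvec (flp e y) i ^ d i = ∏ i ∈ d.support, bvec y i ^ d i := by
      apply prod_congr rfl
      intro i hi
      have hie : i ≠ e := fun h => hed (h ▸ hi)
      have : bvec (flp e y) i = bvec y i := by simp [bvec, flp, hie]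
      rw [this]
    rw [h1]; ring
  have h5 : 𝔼 y : Pair n → Bool,
      MvPolynomial.coeff d f * (∏ i ∈ d.support, bvec y i ^ d i) * chi S y =
      𝔼 y : Pair n → Bool,
      MvPolynomial.coeff d f * (∏ i ∈ d.support, bvec (flp e y) i ^ d i) * chi S (flp e y) :=
    (Fintype.expect_bijective (flp e) (flp_invol e).bijective _ _ (fun x => rfl)).symm
  simp only [hflip, expect_neg_distrib] at h5
  linarith

/-- The graph of a Boolean vector. -/
def toG (y : Pair n → Bool) : SimpleGraph (Fin n) where
  Adj u v := (∃ h : u < v, y ⟨(u, v), h⟩ = true) ∨ (∃ h : v < u, y ⟨(v, u), h⟩ = true)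
  symm := ⟨by
    intro u v h
    exact h.symm⟩
  loopless := ⟨by
    intro u h
    rcases h with ⟨h, -⟩ | ⟨h, -⟩ <;> exact lt_irrefl _ h⟩

lemma toG_adj (y : Pair n → Bool) (e : Pair n) : (toG y).Adj e.1.1 e.1.2 ↔ y e = true := by
  constructor
  · rintro (⟨h, hy⟩ | ⟨h, -⟩)
    · exact hy
    · exact absurd h (not_lt.2 e.2.le)
  · intro h
    exact Or.inl ⟨e.2, h⟩

/-- Graphs are Boolean vectors. -/
noncomputable def eqG (n : ℕ) : (Pair n → Bool) ≃ SimpleGraph (Fin n) where
  toFun := toG
  invFun X := fun e => decide (X.Adj e.1.1 e.1.2)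
  left_inv y := by
    funext e
    have h1 := toG_adj y e
    by_cases h : y e = true
    · simp [h1.2 h, h]
    · have : ¬ (toG y).Adj e.1.1 e.1.2 := fun h2 => h (h1.1 h2)
      simp [this, h]
  right_inv X := by
    ext u v
    constructor
    · rintro (⟨h, hy⟩ | ⟨h, hy⟩)
      · simpa using hy
      · have : X.Adj v u := by simpa using hy
        exact this.symm
    · intro h
      rcases lt_or_gt_of_ne h.ne with h1 | h1
      · exact Or.inl ⟨h1, by simpa using h⟩
      · exact Or.inr ⟨h1, by simpa using h.symm⟩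

lemma toG_colorable [NeZero k] (σ : Fin n → ZMod k) (y : Pair n → Bool)
    (h : ∀ e, Mono σ e → y e = false) : (toG y).Colorable k := by
  have h1 : ∀ {u v : Fin n}, (toG y).Adj u v → σ u ≠ σ v := by
    intro u v huv heq
    rcases huv with ⟨hlt, hy⟩ | ⟨hlt, hy⟩
    · have := h ⟨(u, v), hlt⟩ heq
      rw [hy] at this
      exact absurd this (by simp)
    · have := h ⟨(v, u), hlt⟩ heq.symm
      rw [hy] at this
      exact absurd this (by simp)
  have h2 := (SimpleGraph.Coloring.mk σ h1).colorable
  rwa [ZMod.card] at h2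

end Pool.Agent.ColorRef
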