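import Pool.Agent.ColorRef.Model

namespace Pool.Agent.ColorRef

open Finset BigOperators
open scoped Classical

set_option linter.unusedSectionVars false

variable {n : ℕ} {k : ℕ} [NeZero k] (w : ℕ)

/-- The gadget of a state. -/
def hs : St n → Finset (Pair n)
  | none => ∅
  | some none => ∅
  | some (some H) => H

/-- Edges in the monochromatic state. -/
noncomputable def Mset (S : Finset (Pair n)) (φ : Pair n → St n) : Finset (Pair n) :=
  S.filter (fun e => φ e = none)

/-- Edges in a response state. -/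
noncomputable def Tset (S : Finset (Pair n)) (φ : Pair n → St n) : Finset (Pair n) :=
  S.filter (fun e => ∃ H, φ e = some (some H))

/-- The list of response edges with their gadgets. -/
noncomputable def Lst (S : Finset (Pair n)) (φ : Pair n → St n) :
    List (Pair n × Finset (Pair n)) :=
  (Tset S φ).toList.map (fun e => (e, hs (φ e)))

/-- Combinatorial consistency of a state assignment. -/
structure Valid (S : Finset (Pair n)) (φ : Pair n → St n) : Prop where
  gadm : ∀ e ∈ Tset S φ, hs (φ e) ∈ gad n w ∧ e ∈ hs (φ e)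
  sep : ∀ e ∈ Tset S φ, ∀ f ∈ Tset S φ, e ≠ f → e ∉ hs (φ f)
  fin_eq : fin S (Lst S φ) = Mset S φ

lemma chi_fin (x : Pair n → Bool) (L : List (Pair n × Finset (Pair n))) :
    ∀ S : Finset (Pair n), chi (fin S L) x = chi S x * (L.map (fun p => chi p.2 x)).prod := by
  induction L with
  | nil => intro S; simp [fin]
  | cons p L ih =>
    intro S
    simp only [fin, List.map_cons, List.prod_cons]
    rw [ih, chi_symmDiff]; ring

lemma chi_fin_Lst (S : Finset (Pair n)) (φ : Pair n → St n) (x : Pair n → Bool) :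
    chi (fin S (Lst S φ)) x = chi S x * ∏ e ∈ Tset S φ, chi (hs (φ e)) x := by
  rw [chi_fin, Lst, List.map_map]
  congr 1
  exact prod_map_toList (Tset S φ) (fun e => chi (hs (φ e)) x)

lemma prod_ch (S : Finset (Pair n)) (φ : Pair n → St n)
    (h : ∀ e ∈ Tset S φ, e ∈ hs (φ e)) (x : Pair n → Bool) :
    ∏ e ∈ S, ch x e (φ e) = chi (symmDiff (fin S (Lst S φ)) (Mset S φ)) x := by
  rw [chi_symmDiff, chi_fin_Lst]
  have h1 : ∀ e ∈ S, ch x e (φ e) = sg (x e) * (if φ e = none then sg (x e) else 1) *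
      (if ∃ H, φ e = some (some H) then chi (hs (φ e)) x else 1) := by
    intro e he
    rcases hφ : φ e with _ | _ | H
    · simp [ch, sg_mul_self]
    · simp [ch]
    · have hT : e ∈ Tset S φ := by
        rw [Tset, mem_filter]; exact ⟨he, H, hφ⟩
      have heH : e ∈ H := by
        have := h e hT
        rw [hφ] at this
        exact this
      simp [ch, hs, chi_erase heH]
  rw [prod_congr rfl h1, prod_mul_distrib, prod_mul_distrib]
  have h2 : ∏ e ∈ S, (if φ e = none then sg (x e) else 1) = chi (Mset S φ) x := by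
    rw [chi, Mset, prod_filter]
  have h3 : ∏ e ∈ S, (if ∃ H, φ e = some (some H) then chi (hs (φ e)) x else 1) =
      ∏ e ∈ Tset S φ, chi (hs (φ e)) x := by
    rw [Tset, prod_filter]
  rw [h2, h3]
  simp only [chi]
  ring

lemma valid_of_wt_ne_zero {S : Finset (Pair n)} {φ : Pair n → St n}
    (h : wt k w S φ ≠ 0) : Valid w S φ := by
  rw [wt] at h
  have hx : (𝔼 x : Pair n → Bool, ∏ e ∈ S, ch x e (φ e)) ≠ 0 := right_ne_zero_of_mul h
  have h' := left_ne_zero_of_mul h
  have hi : (𝔼 σ : Fin n → ZMod k, 𝔼 R : Finset (Pair n), ∏ e ∈ S, ind w σ R e (φ e)) ≠ 0 :=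
    right_ne_zero_of_mul h'
  obtain ⟨σ, -, hσ⟩ := exists_ne_zero_of_expect_ne_zero hi
  obtain ⟨R, -, hR⟩ := exists_ne_zero_of_expect_ne_zero hσ
  rw [prod_ne_zero_iff] at hR
  have hall : ∀ e ∈ Tset S φ, hs (φ e) ∈ gad n w ∧ e ∈ hs (φ e) ∧ hs (φ e) ∩ R = {e} := by
    intro e he
    rw [Tset, mem_filter] at he
    obtain ⟨heS, H, hH⟩ := he
    have h1 := hR e heS
    rw [hH, ind] at h1
    split_ifs at h1 with h2
    · rw [hH]; exact ⟨h2.1, h2.2.1, h2.2.2.1⟩
    · exact absurd rfl h1
  refine ⟨fun e he => ⟨(hall e he).1, (hall e he).2.1⟩, ?_, ?_⟩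
  · intro e he f hf hef hmem
    have h1 : e ∈ R := by
      have : e ∈ hs (φ e) ∩ R := by rw [(hall e he).2.2]; simp
      exact (mem_inter.1 this).2
    have h2 : e ∈ hs (φ f) ∩ R := mem_inter.2 ⟨hmem, h1⟩
    rw [(hall f hf).2.2, mem_singleton] at h2
    exact hef h2
  · have h1 : (𝔼 x : Pair n → Bool, ∏ e ∈ S, ch x e (φ e)) =
        𝔼 x : Pair n → Bool, chi (symmDiff (fin S (Lst S φ)) (Mset S φ)) x :=
      expect_congr rfl (fun x _ => prod_ch S φ (fun e he => (hall e he).2.1) x)
    rw [h1, expect_chi] at hx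
    split_ifs at hx with h2
    · exact symmDiff_eq_bot.1 h2
    · exact absurd rfl hx

lemma card_mono_le (M : Finset (Pair n)) :
    (univ.filter (fun σ : Fin n → ZMod k => ∀ e ∈ M, Mono σ e)).card ≤ k ^ (ncl M univ) := by
  -- a representative for every class
  have hrep : ∀ C : {C // C ∈ univ.image (cls M)}, ∃ v, cls M v = C.1 := by
    intro C
    obtain ⟨v, -, hv⟩ := mem_image.1 C.2
    exact ⟨v, hv⟩
  choose rep hrep using hrep
  let F : (Fin n → ZMod k) → ({C // C ∈ univ.image (cls M)} → ZMod k) := fun σ C => σ (rep C)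
  have hinj : Set.InjOn F (univ.filter (fun σ : Fin n → ZMod k => ∀ e ∈ M, Mono σ e)) := by
    intro σ hσ τ hτ hst
    have hσ' : ∀ e ∈ M, Mono σ e := by simpa using hσ
    have hτ' : ∀ e ∈ M, Mono τ e := by simpa using hτ
    funext v
    have hC : cls M v ∈ univ.image (cls M) := mem_image_of_mem _ (mem_univ _)
    have hc : Conn M v (rep ⟨cls M v, hC⟩) := by
      rw [← cls_eq_iff]
      exact (hrep ⟨cls M v, hC⟩).symm
    have h1 : σ v = σ (rep ⟨cls M v, hC⟩) := Conn.map σ (fun e he => hσ' e he) hc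
    have h2 : τ v = τ (rep ⟨cls M v, hC⟩) := Conn.map τ (fun e he => hτ' e he) hc
    have h3 : σ (rep ⟨cls M v, hC⟩) = τ (rep ⟨cls M v, hC⟩) := congrFun hst ⟨cls M v, hC⟩
    rw [h1, h2, h3]
  calc (univ.filter (fun σ : Fin n → ZMod k => ∀ e ∈ M, Mono σ e)).card
      = ((univ.filter (fun σ : Fin n → ZMod k => ∀ e ∈ M, Mono σ e)).image F).card :=
        (card_image_of_injOn hinj).symm
    _ ≤ (univ : Finset ({C // C ∈ univ.image (cls M)} → ZMod k)).card :=
        card_le_card (subset_univ _)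
    _ = k ^ (ncl M univ) := by
        rw [card_univ, Fintype.card_fun, ZMod.card, Fintype.card_coe]
        rfl

lemma kpos : (0 : ℝ) < (k : ℝ) := by
  have := NeZero.pos k
  exact_mod_cast this

lemma card_col : (Fintype.card (Fin n → ZMod k) : ℝ) = (k : ℝ) ^ n := by
  rw [Fintype.card_fun, ZMod.card, Fintype.card_fin]; push_cast; rfl

variable (k) in
lemma pm_le (M : Finset (Pair n)) :
    pm k M ≤ (k : ℝ) ^ (ncl M univ) / (k : ℝ) ^ n := by
  rw [pm, Fintype.expect_eq_sum_div_card, card_col]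
  apply div_le_div_of_nonneg_right _ (by have := kpos (k := k); positivity)
  rw [sum_boole]
  exact_mod_cast card_mono_le M

variable (k) in
lemma pm_nonneg (M : Finset (Pair n)) : 0 ≤ pm k M := by
  rw [pm]
  exact expect_nonneg (fun _ _ => by split_ifs <;> norm_num)

/-- The absolute weight is bounded by the gadget coefficients and the probability that the
monochromatic edges are monochromatic. -/
lemma abs_wt_le (S : Finset (Pair n)) (φ : Pair n → St n) :
    |wt k w S φ| ≤ (∏ e ∈ Tset S φ, |gco k (hs (φ e))|) * pm k (Mset S φ) := by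
  rw [wt, abs_mul, abs_mul]
  have h1 : |∏ e ∈ S, co k (φ e)| = ∏ e ∈ Tset S φ, |gco k (hs (φ e))| := by
    rw [abs_prod, Tset, prod_filter]
    apply prod_congr rfl
    intro e _
    rcases hφ : φ e with _ | _ | H <;> simp [co, hs]
  have h2 : |𝔼 x : Pair n → Bool, ∏ e ∈ S, ch x e (φ e)| ≤ 1 := by
    refine (abs_expect_le _ _).trans ?_
    have : ∀ x ∈ (univ : Finset (Pair n → Bool)), |∏ e ∈ S, ch x e (φ e)| ≤ 1 := by
      intro x _
      rw [abs_prod]
      apply le_of_eq
      apply prod_eq_one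
      intro e _
      rcases φ e with _ | _ | H
      · simp [ch]
      · simp [ch, abs_sg]
      · simp [ch, abs_chi]
    calc 𝔼 x : Pair n → Bool, |∏ e ∈ S, ch x e (φ e)| ≤ 𝔼 x : Pair n → Bool, (1:ℝ) :=
          expect_le_expect this
      _ = 1 := by simp
  have hnn : ∀ (σ : Fin n → ZMod k) (R : Finset (Pair n)), 0 ≤ ∏ e ∈ S, ind w σ R e (φ e) := by
    intro σ R
    apply prod_nonneg
    intro e _
    rcases φ e with _ | _ | H <;> simp only [ind] <;> split_ifs <;> norm_num
  have hle : ∀ (σ : Fin n → ZMod k) (R : Finset (Pair n)),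
      ∏ e ∈ S, ind w σ R e (φ e) ≤ if (∀ e ∈ Mset S φ, Mono σ e) then 1 else 0 := by
    intro σ R
    split_ifs with hM
    · apply prod_le_one
      · intro e _
        rcases φ e with _ | _ | H <;> simp only [ind] <;> split_ifs <;> norm_num
      · intro e _
        rcases φ e with _ | _ | H <;> simp only [ind] <;> split_ifs <;> norm_num
    · push Not at hM
      obtain ⟨e, he, hne⟩ := hM
      rw [Mset, mem_filter] at he
      apply le_of_eq
      apply prod_eq_zero he.1
      rw [he.2]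
      simp [ind, hne]
  have h3 : |𝔼 σ : Fin n → ZMod k, 𝔼 R : Finset (Pair n), ∏ e ∈ S, ind w σ R e (φ e)| ≤
      pm k (Mset S φ) := by
    rw [abs_of_nonneg (expect_nonneg (fun σ _ => expect_nonneg (fun R _ => hnn σ R))), pm]
    apply expect_le_expect
    intro σ _
    calc 𝔼 R : Finset (Pair n), ∏ e ∈ S, ind w σ R e (φ e)
        ≤ 𝔼 R : Finset (Pair n), (if (∀ e ∈ Mset S φ, Mono σ e) then (1:ℝ) else 0) :=
          expect_le_expect (fun R _ => hle σ R)
      _ = _ := by rw [expect_const univ_nonempty]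
  rw [h1]
  have h4 : 0 ≤ ∏ e ∈ Tset S φ, |gco k (hs (φ e))| := prod_nonneg (fun _ _ => abs_nonneg _)
  calc (∏ e ∈ Tset S φ, |gco k (hs (φ e))|) *
        |𝔼 σ : Fin n → ZMod k, 𝔼 R : Finset (Pair n), ∏ e ∈ S, ind w σ R e (φ e)| *
        |𝔼 x : Pair n → Bool, ∏ e ∈ S, ch x e (φ e)|
      ≤ (∏ e ∈ Tset S φ, |gco k (hs (φ e))|) * pm k (Mset S φ) * 1 := by
        gcongr
        exact mul_nonneg h4 (pm_nonneg k _)
    _ = _ := by ring

end Pool.Agent.ColorRef
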